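import Pool.Agent.MP_5d9b3c_ag.H48L.Spec
import Pool.Agent.MP_5d9b3c_ag.H48N.BasicP

/-!
Basic lemmas on operators, face polynomials, derivatives at a point, and densities.
-/

namespace Pool.Agent.MP_5d9b3c_ag.H48L

open Finset MvPolynomial Pool.Agent.MP_5d9b3c_ag.H22 Pool.Agent.MP_5d9b3c_ag.H48N

variable {ζ ζ' I : Type}

/-! ### Families of operators that are polynomial in a parameter -/

section PW

lemma pderiv_mem_WW (i : ζ) :
    (pderiv i : Derivation ℂ (MvPolynomial ζ ℂ) (MvPolynomial ζ ℂ)).toLinearMap ∈ WW ζ :=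
  Algebra.subset_adjoin (Or.inr ⟨i, rfl⟩)

lemma mul_mem_WW (q : MvPolynomial ζ ℂ) : LinearMap.mulLeft ℂ q ∈ WW ζ := by
  induction q using MvPolynomial.induction_on with
  | C r =>
    have : LinearMap.mulLeft ℂ (C r : MvPolynomial ζ ℂ) = algebraMap ℂ _ r := by
      refine LinearMap.ext (fun g => ?_)
      simp [Module.algebraMap_end_apply, smul_eq_C_mul]
    rw [this]
    exact (WW ζ).algebraMap_mem r
  | add p q hp hq =>
    have : LinearMap.mulLeft ℂ (p + q) = LinearMap.mulLeft ℂ p + LinearMap.mulLeft ℂ q :=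
      LinearMap.ext (fun g => by simp [add_mul])
    rw [this]
    exact add_mem hp hq
  | mul_X p i hp =>
    have : LinearMap.mulLeft ℂ (p * X i) = LinearMap.mulLeft ℂ p * LinearMap.mulLeft ℂ (X i) :=
      LinearMap.ext (fun g => by simp)
    rw [this]
    exact mul_mem hp (Algebra.subset_adjoin (Or.inl ⟨i, rfl⟩))

/-- A family of operators that is polynomial in the parameter. -/
def PW (A : ℕ → Module.End ℂ (MvPolynomial ζ ℂ)) : Prop :=
  ∃ (d : ℕ) (P : ℕ → Module.End ℂ (MvPolynomial ζ ℂ)), (∀ t, P t ∈ WW ζ) ∧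
    ∀ m : ℕ, A m = ∑ t ∈ range d, (m : ℂ) ^ t • P t

variable {A B : ℕ → Module.End ℂ (MvPolynomial ζ ℂ)} {Q : Module.End ℂ (MvPolynomial ζ ℂ)}

lemma isB_iff {g : MvPolynomial ζ ℂ} {b : Polynomial ℂ} :
    IsB g b ↔ ∃ A, PW A ∧ ∀ m : ℕ, A m (g ^ (m + 1)) = b.eval (m : ℂ) • g ^ m := by
  constructor
  · rintro ⟨d, P, h1, h2⟩
    exact ⟨_, ⟨d, P, h1, fun _ => rfl⟩, fun m => by
      simpa only [LinearMap.sum_apply, LinearMap.smul_apply] using h2 m⟩
  · rintro ⟨A, ⟨d, P, h1, h3⟩, h2⟩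
    exact ⟨d, P, h1, fun m => by
      simpa only [h3, LinearMap.sum_apply, LinearMap.smul_apply] using h2 m⟩

lemma PW.const (hQ : Q ∈ WW ζ) : PW (fun _ => Q) := ⟨1, fun _ => Q, fun _ => hQ, by simp⟩

lemma PW.congr (h : PW A) (e : ∀ m, B m = A m) : PW B := (funext e : B = A) ▸ h

lemma PW.add (h : PW A) (h' : PW B) : PW (fun m => A m + B m) := by
  obtain ⟨d, P, h1, h2⟩ := h
  obtain ⟨d', P', h3, h4⟩ := h'
  have key : ∀ (e D : ℕ) (R : ℕ → Module.End ℂ (MvPolynomial ζ ℂ)) (m : ℕ), e ≤ D →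
      ∑ t ∈ range e, (m : ℂ) ^ t • R t =
        ∑ t ∈ range D, (m : ℂ) ^ t • if t < e then R t else 0 := by
    intro e D R m he
    rw [← sum_subset (range_mono he) (fun t _ ht => by
      rw [if_neg (by simpa using ht), smul_zero])]
    exact sum_congr rfl (fun t ht => by rw [if_pos (mem_range.1 ht)])
  refine ⟨d + d', fun t => (if t < d then P t else 0) + if t < d' then P' t else 0,
    fun t => add_mem ?_ ?_, fun m => ?_⟩
  · split_ifs
    exacts [h1 t, zero_mem _]
  · split_ifs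
    exacts [h3 t, zero_mem _]
  · simp only [smul_add, sum_add_distrib]
    rw [h2, h4, key d (d + d') P m (by omega), key d' (d + d') P' m (by omega)]

lemma PW.nat (h : PW A) : PW (fun m => (m : ℂ) • A m) := by
  obtain ⟨d, P, h1, h2⟩ := h
  refine ⟨d + 1, fun t => if t = 0 then 0 else P (t - 1), fun t => ?_, fun m => ?_⟩
  · dsimp only
    split_ifs
    exacts [zero_mem _, h1 _]
  · dsimp only
    rw [sum_range_succ', h2, smul_sum]
    simp [smul_smul, pow_succ']

lemma PW.left (hQ : Q ∈ WW ζ) (h : PW A) : PW (fun m => Q * A m) := by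
  obtain ⟨d, P, h1, h2⟩ := h
  exact ⟨d, fun t => Q * P t, fun t => mul_mem hQ (h1 t), fun m => by simp [h2, mul_sum]⟩

lemma PW.smul (h : PW A) (r : ℂ) : PW (fun m => r • A m) :=
  (h.left ((WW ζ).algebraMap_mem r)).congr (fun _ => Algebra.smul_def _ _)

lemma PW.sum {α : Type} (s : Finset α) {F : α → ℕ → Module.End ℂ (MvPolynomial ζ ℂ)}
    (h : ∀ a ∈ s, PW (F a)) : PW (fun m => ∑ a ∈ s, F a m) := by
  classical
  induction s using Finset.induction_on with
  | empty => exact (PW.const (zero_mem _)).congr (by simp)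
  | insert a s ha ih =>
    exact ((h a (mem_insert_self _ _)).add (ih (fun b hb => h b (mem_insert_of_mem hb)))).congr
      (fun m => sum_insert ha)

lemma PW.pow (h : PW A) (t : ℕ) : PW (fun m => (m : ℂ) ^ t • A m) := by
  induction t with
  | zero => exact h.congr (by simp)
  | succ t ih => exact ih.nat.congr (fun m => by rw [smul_smul, pow_succ'])

lemma PW.poly (h : PW A) (q : Polynomial ℂ) : PW (fun m => q.eval (m : ℂ) • A m) :=
  (PW.sum (range (q.natDegree + 1)) (fun t _ => (h.pow t).smul (q.coeff t))).congr (fun m => by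
    rw [Polynomial.eval_eq_sum_range, sum_smul]
    simp only [smul_smul])

lemma PW.mul (h : PW A) (h' : PW B) : PW (fun m => A m * B m) := by
  obtain ⟨d, P, h1, h2⟩ := h
  exact (PW.sum (range d) (fun t _ => (h'.left (h1 t)).pow t)).congr (fun m => by
    simp [h2, sum_mul])

end PW

/-! ### Face polynomials -/

section Face

/-- The part of weight `n`. -/
noncomputable abbrev wc {R : Type} [CommRing R] (w : ζ → ℕ) (n : ℕ) :
    MvPolynomial ζ R →ₗ[R] MvPolynomial ζ R := weightedHomogeneousComponent w n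

variable {w : ζ → ℕ} {μ n : ℕ} {q q' : MvPolynomial ζ ℂ}

lemma coeff_wc {R : Type} [CommRing R] (q : MvPolynomial ζ R) (α : ζ →₀ ℕ) :
    coeff α (wc w n q) = if Finsupp.weight w α = n then coeff α q else 0 :=
  coeff_weightedHomogeneousComponent n q α

lemma weight_eq [Fintype ζ] (α : ζ →₀ ℕ) : Finsupp.weight w α = ∑ i, w i * α i := by
  rw [Finsupp.weight_apply, Finsupp.sum_fintype _ _ (by simp)]
  exact sum_congr rfl (fun i _ => by simp [mul_comm])

lemma wgt_eq [Fintype ζ] (α : ζ →₀ ℕ) :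
    wgt (fun i => (w i : ℤ)) α = (Finsupp.weight w α : ℕ) := by
  rw [weight_eq, wgt]
  push_cast
  rfl

open Classical in
lemma coeff_fc [Fintype ζ] (α : ζ →₀ ℕ) : coeff α (fc w q) =
    if ∀ α' ∈ q.support, Finsupp.weight w α ≤ Finsupp.weight w α' then coeff α q else 0 := by
  simp only [fc, fac, wgt_eq, Nat.cast_le, coeff_sum, coeff_monomial, sum_ite_eq', mem_filter]
  by_cases h : α ∈ q.support
  · simp only [h, true_and]
  · simp [h, notMem_support_iff.1 h]

lemma fc_eq [Fintype ζ] (h0 : ∀ α ∈ q.support, μ ≤ Finsupp.weight w α) (h1 : wc w μ q ≠ 0) :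
    fc w q = wc w μ q := by
  obtain ⟨β, hβ⟩ := ne_zero_iff.1 h1
  rw [coeff_wc] at hβ
  have h2 : Finsupp.weight w β = μ := by
    by_contra h
    exact hβ (if_neg h)
  rw [if_pos h2] at hβ
  ext α
  rw [coeff_fc, coeff_wc]
  by_cases h : α ∈ q.support
  · refine if_congr ⟨fun h3 => le_antisymm (h2 ▸ h3 β (mem_support_iff.2 hβ)) (h0 α h),
      fun h3 => h3 ▸ h0⟩ rfl rfl
  · simp [notMem_support_iff.1 h]

lemma exists_fc [Fintype ζ] (w : ζ → ℕ) (hq : q ≠ 0) :
    ∃ μ, (∀ α ∈ q.support, μ ≤ Finsupp.weight w α) ∧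
      (∃ α ∈ q.support, Finsupp.weight w α = μ) ∧ fc w q = wc w μ q := by
  obtain ⟨β, h1, h2⟩ := exists_min_image q.support (Finsupp.weight w) (support_nonempty.2 hq)
  refine ⟨_, h2, ⟨β, h1, rfl⟩, fc_eq h2 (ne_zero_iff.2 ⟨β, ?_⟩)⟩
  rw [coeff_wc, if_pos rfl]
  exact mem_support_iff.1 h1

lemma fc_zero [Fintype ζ] : fc w (0 : MvPolynomial ζ ℂ) = 0 := by simp [fc, fac]

lemma le_mul (h0 : ∀ α ∈ q.support, μ ≤ Finsupp.weight w α) :
    ∀ α ∈ (q * q').support, μ ≤ Finsupp.weight w α := by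
  classical
  intro α hα
  obtain ⟨β, hβ, γ, _, rfl⟩ := mem_add.1 (support_mul q q' hα)
  rw [map_add]
  exact (h0 β hβ).trans (Nat.le_add_right _ _)

lemma wc_mul (h0 : ∀ α ∈ q.support, μ ≤ Finsupp.weight w α) :
    wc w μ (q * q') = wc w μ q * wc w 0 q' := by
  classical
  ext α
  rw [coeff_wc, coeff_mul, coeff_mul]
  simp only [coeff_wc]
  split_ifs with h
  · refine sum_congr rfl (fun x hx => ?_)
    have h1 := congrArg (Finsupp.weight w) (mem_antidiagonal.1 hx)
    rw [map_add, h] at h1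
    by_cases h2 : x.1 ∈ q.support
    · have := h0 _ h2
      rw [if_pos (by omega), if_pos (by omega)]
    · simp [notMem_support_iff.1 h2]
  · refine (sum_eq_zero (fun x hx => ?_)).symm
    have h1 := congrArg (Finsupp.weight w) (mem_antidiagonal.1 hx)
    rw [map_add] at h1
    split_ifs with h2 h3
    · omega
    all_goals simp

lemma wc_zero_mul : wc w 0 (q * q') = wc w 0 q * wc w 0 q' := wc_mul (fun _ _ => Nat.zero_le _)

lemma wc_zero_C (r : ℂ) : wc w 0 (C r : MvPolynomial ζ ℂ) = C r := by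
  classical
  ext α
  rw [coeff_wc, coeff_C]
  by_cases h : 0 = α
  · subst h
    simp
  · simp [h]

lemma wc_zero_one : wc w 0 (1 : MvPolynomial ζ ℂ) = 1 := wc_zero_C 1

lemma wc_zero_X (i : ζ) : wc w 0 (X i : MvPolynomial ζ ℂ) = if w i = 0 then X i else 0 := by
  classical
  ext α
  rw [coeff_wc]
  by_cases h : Finsupp.single i 1 = α
  · subst h
    split_ifs <;> simp_all [Finsupp.weight_single]
  · split_ifs <;> simp [coeff_X, h]

lemma eval_cut (x : ζ → ℂ) (q : MvPolynomial ζ ℂ) : eval (cut w x) q = eval x (wc w 0 q) := by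
  induction q using MvPolynomial.induction_on with
  | C r => rw [wc_zero_C, eval_C, eval_C]
  | add p q hp hq => rw [map_add, map_add, map_add, hp, hq]
  | mul_X p i hp =>
    rw [wc_zero_mul, map_mul, map_mul, hp, wc_zero_X, eval_X, cut]
    split_ifs <;> simp

lemma pderiv_wc {V : ζ} (h : pderiv V q = 0) : pderiv V (wc w n q) = 0 := by
  ext α
  have := congrArg (coeff α) h
  rw [coeff_pderiv] at this ⊢
  rw [coeff_wc]
  split_ifs
  · exact this
  · simp

lemma pderiv_fc [Fintype ζ] {V : ζ} (h : pderiv V q = 0) : pderiv V (fc w q) = 0 := by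
  by_cases hq : q = 0
  · simp [hq, fc_zero]
  · obtain ⟨μ, _, _, h1⟩ := exists_fc w hq
    rw [h1, pderiv_wc h]

lemma weight_mapDomain (f : ζ' → ζ) (α : ζ' →₀ ℕ) :
    Finsupp.weight w (α.mapDomain f) = Finsupp.weight (w ∘ f) α := by
  rw [Finsupp.weight_apply, Finsupp.weight_apply, Finsupp.sum_mapDomain_index (by simp)
    (fun _ _ _ => add_smul _ _ _)]
  rfl

lemma wc_monomial (α : ζ →₀ ℕ) (r : ℂ) :
    wc w n (monomial α r) = if Finsupp.weight w α = n then monomial α r else 0 := by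
  classical
  ext β
  rw [coeff_wc]
  by_cases h : α = β
  · subst h
    split_ifs <;> simp
  · split_ifs <;> simp [coeff_monomial, h]

lemma wc_rename (f : ζ' → ζ) (q : MvPolynomial ζ' ℂ) :
    wc w n (rename f q) = rename f (wc (w ∘ f) n q) := by
  induction q using MvPolynomial.induction_on' with
  | monomial α r =>
    rw [rename_monomial, wc_monomial, wc_monomial, weight_mapDomain]
    split_ifs
    · rw [rename_monomial]
    · simp
  | add p q hp hq => simp only [map_add, hp, hq]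

lemma fc_rename [Fintype ζ] [Fintype ζ'] {f : ζ' → ζ} (hf : Function.Injective f)
    (q : MvPolynomial ζ' ℂ) : fc w (rename f q) = rename f (fc (w ∘ f) q) := by
  classical
  by_cases hq : q = 0
  · simp [hq, fc_zero]
  obtain ⟨μ, h1, ⟨β, h2, h3⟩, h4⟩ := exists_fc (w ∘ f) hq
  rw [h4, ← wc_rename]
  refine fc_eq (fun α hα => ?_) (fun h => ?_)
  · rw [support_rename_of_injective hf] at hα
    obtain ⟨γ, hγ, rfl⟩ := mem_image.1 hα
    rw [weight_mapDomain]
    exact h1 γ hγ
  · rw [wc_rename, ← map_zero (rename f)] at h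
    have := congrArg (coeff β) (rename_injective f hf h)
    rw [coeff_wc, if_pos h3] at this
    exact mem_support_iff.1 h2 this

/-- Scaling of the variables. -/
noncomputable def scl {R : Type} [CommRing R] (r : R) : MvPolynomial ζ R →ₐ[R] MvPolynomial ζ R :=
  aeval (fun i => C r * X i)

lemma scl_monomial {R : Type} [CommRing R] (r c : R) (α : ζ →₀ ℕ) :
    scl r (monomial α c) = monomial α (r ^ α.degree * c) := by
  rw [scl, aeval_monomial, monomial_eq, algebraMap_eq]
  simp only [Finsupp.prod, mul_pow, prod_mul_distrib, ← C_pow, ← map_prod, prod_pow_eq_pow_sum]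
  rw [Finsupp.degree_apply, C_mul, mul_comm (C _) (C c), mul_assoc]

lemma coeff_scl {R : Type} [CommRing R] (r : R) (q : MvPolynomial ζ R) (α : ζ →₀ ℕ) :
    coeff α (scl r q) = r ^ α.degree * coeff α q := by
  classical
  induction q using MvPolynomial.induction_on' with
  | monomial β c =>
    rw [scl_monomial, coeff_monomial, coeff_monomial]
    split_ifs with h
    · rw [h]
    · simp
  | add p q hp hq => simp only [map_add, coeff_add, hp, hq, mul_add]

lemma map_scl {R S : Type} [CommRing R] [CommRing S] (j : R →+* S) (r : R)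
    (q : MvPolynomial ζ R) : map j (scl r q) = scl (j r) (map j q) := by
  ext α
  simp [coeff_map, coeff_scl]

lemma eval_scl (r : ℂ) (x : ζ → ℂ) (q : MvPolynomial ζ ℂ) :
    eval x (scl r q) = eval (fun i => r * x i) q := by
  induction q using MvPolynomial.induction_on with
  | C c => simp [scl]
  | add p q hp hq => simp only [map_add, hp, hq]
  | mul_X p i hp => rw [map_mul, map_mul, map_mul, hp]; simp [scl]

lemma pderiv_scl {R : Type} [CommRing R] (r : R) (t : ζ) (q : MvPolynomial ζ R) :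
    pderiv t (scl r q) = C r * scl r (pderiv t q) := by
  ext α
  rw [coeff_pderiv, coeff_C_mul, coeff_scl, coeff_scl, coeff_pderiv, map_add,
    Finsupp.degree_single, pow_succ]
  ring

lemma fc_scl [Fintype ζ] {r c : ℂ} (hr : r ≠ 0) (hc : c ≠ 0) (q : MvPolynomial ζ ℂ) :
    fc w (C c * scl r q) = C c * scl r (fc w q) := by
  have hs : (C c * scl r q).support = q.support := by
    ext α
    simp [mem_support_iff, coeff_C_mul, coeff_scl, hr, hc]
  ext α
  rw [coeff_fc, hs, coeff_C_mul, coeff_C_mul, coeff_scl, coeff_scl, coeff_fc]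
  split_ifs <;> simp

lemma NRel.ne [Fintype ζ] [Fintype I] {x : ζ → ℂ} {e : I → MvPolynomial ζ ℂ}
    (h : NRel Set.univ w x e) (o : I) : e o ≠ 0 := by
  classical
  intro h0
  obtain ⟨t, ht⟩ := h (Pi.single o 1) (by simp) (fun o' ho => by
    have : o' = o := by
      by_contra h1
      exact ho (Pi.single_eq_of_ne h1 _)
    simp [this, h0, fc_zero])
  refine ht (sum_eq_zero (fun o' _ => ?_))
  by_cases h1 : o' = o
  · simp [h1, h0, fc_zero]
  · simp [Pi.single_eq_of_ne h1]

end Face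

/-! ### Derivatives at a point -/

section PD

variable [Fintype ζ] {z ξ : ζ → ℂ} {q q' : MvPolynomial ζ ℂ}

lemma pd_add : pd z ξ (q + q') = pd z ξ q + pd z ξ q' := by
  simp [pd, add_mul, sum_add_distrib]

lemma pd_sub : pd z ξ (q - q') = pd z ξ q - pd z ξ q' := by
  simp [pd, sub_mul, sum_sub_distrib]

lemma pd_mul : pd z ξ (q * q') = eval z q * pd z ξ q' + eval z q' * pd z ξ q := by
  simp only [pd, Derivation.leibniz, smul_eq_mul, map_add, map_mul, mul_sum, ← sum_add_distrib]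
  exact sum_congr rfl (fun t _ => by ring)

lemma pd_C (r : ℂ) : pd z ξ (C r) = 0 := by simp [pd]

lemma pd_zero : pd z ξ 0 = 0 := by simp [pd]

lemma pd_one : pd z ξ 1 = 0 := by simp [pd]

lemma pd_X (i : ζ) : pd z ξ (X i) = ξ i := by
  classical
  simp [pd, pderiv_X, Pi.single_apply, apply_ite (eval z)]

lemma pd_sum {α : Type} (s : Finset α) (g : α → MvPolynomial ζ ℂ) :
    pd z ξ (∑ a ∈ s, g a) = ∑ a ∈ s, pd z ξ (g a) := by
  simp only [pd, map_sum, sum_mul]
  exact sum_comm

lemma pd_dir_zero : pd z 0 q = 0 := by simp [pd]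

lemma pd_rename [Fintype ζ'] (f : ζ' → ζ) (q : MvPolynomial ζ' ℂ) :
    pd z ξ (rename f q) = pd (z ∘ f) (ξ ∘ f) q := by
  induction q using MvPolynomial.induction_on with
  | C c => rw [rename_C, pd_C, pd_C]
  | add p q hp hq => rw [map_add, pd_add, pd_add, hp, hq]
  | mul_X p i hp =>
    rw [map_mul, rename_X, pd_mul, pd_mul, hp, pd_X, pd_X, eval_rename, eval_X, eval_X]
    rfl

/-- The derivative vanishes if the direction vanishes on the variables that occur. -/
lemma pd_eq_zero (h : ∀ t, ξ t = 0 ∨ pderiv t q = 0) : pd z ξ q = 0 :=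
  sum_eq_zero (fun t _ => by rcases h t with h | h <;> simp [h])

end PD

/-! ### Evaluation modulo powers of `p` -/

section EV

variable {p : ℕ} [Fact p.Prime] {k : ℕ} (x : ζ → ZMod (p ^ k))

/-- Evaluation as a ring homomorphism. -/
noncomputable def evh : MvPolynomial ζ ℤ_[p] →+* ZMod (p ^ k) :=
  eval₂Hom (PadicInt.toZModPow k) x

lemma ev_eq (q : MvPolynomial ζ ℤ_[p]) : ev k x q = evh x q := rfl

lemma evh_C (r : ℤ_[p]) : evh x (C r) = PadicInt.toZModPow k r := eval₂Hom_C _ _ _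

lemma evh_X (i : ζ) : evh x (X i) = x i := eval₂Hom_X' _ _ _

lemma evh_rename (f : ζ' → ζ) (q : MvPolynomial ζ' ℤ_[p]) :
    evh x (rename f q) = evh (x ∘ f) q := eval₂Hom_rename _ _ _ _

lemma evh_aeval (Φ : ζ' → MvPolynomial ζ ℤ_[p]) (f : MvPolynomial ζ' ℤ) :
    evh x (aeval Φ f) = aeval (fun i => evh x (Φ i)) f :=
  MvPolynomial.comp_aeval_apply Φ (evh x).toIntAlgHom f

lemma evh_map (f : MvPolynomial ζ ℤ) : evh x (map (Int.castRingHom ℤ_[p]) f) = aeval x f := by
  rw [evh, eval₂Hom_map_hom, aeval_eq_eval₂Hom]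
  congr 1
  exact congrArg (fun g => eval₂Hom g x) (Subsingleton.elim _ _)

lemma toZModPow_eq_zero {r : ℤ_[p]} : PadicInt.toZModPow k r = 0 ↔ (p : ℤ_[p]) ^ k ∣ r := by
  rw [← RingHom.mem_ker, PadicInt.ker_toZModPow, Ideal.mem_span_singleton]

lemma exists_appr (r : ℤ_[p]) (k : ℕ) : ∃ c : ℤ, (p : ℤ_[p]) ^ k ∣ (c : ℤ_[p]) - r := by
  refine ⟨r.appr k, dvd_sub_comm.1 ?_⟩
  simpa [Ideal.mem_span_singleton] using PadicInt.appr_spec k r

omit [Fact p.Prime] in
lemma isUnit_one_add (y : ZMod (p ^ k)) : IsUnit (1 + (p : ZMod (p ^ k)) * y) := by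
  refine IsNilpotent.isUnit_one_add ⟨k, ?_⟩
  rw [mul_pow, ← Nat.cast_pow, ZMod.natCast_self, zero_mul]

end EV

lemma md_zero_iff {R S : Type} [CommRing R] [CommRing S] (φ : MvPolynomial ζ R →+* S)
    {e lam : I → MvPolynomial ζ R} {o' : I} (h : lam o' = 0) :
    (∀ o, φ (md e lam o' o) = 0) ↔ ∀ o, φ (e o) = 0 := by
  simp only [md, map_add, map_mul]
  constructor
  · intro h1 o
    have h2 := h1 o'
    rw [h, map_zero, zero_mul, add_zero] at h2
    simpa [h2] using h1 o
  · intro h1 o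
    simp [h1]

lemma map_cay {R S : Type} [CommRing R] [CommRing S] [Fintype I] (j : R →+* S)
    (e : I → MvPolynomial ζ R) : map j (cay e) = cay (fun o => map j (e o)) := by
  simp [cay, map_rename]

/-- Rescaling the variable of the generating series. -/
lemma Good.scale {p N : ℕ} {l : ℝ} {s : ℕ → ℂ} (hp : 0 < p)
    (h : Good p (l + N) (fun k => (((p : ℂ) ^ N)⁻¹) ^ k * s k)) : Good p l s := by
  obtain ⟨D, C, h1, h2⟩ := h
  have hp0 : (p : ℂ) ^ N ≠ 0 := pow_ne_zero _ (by exact_mod_cast hp.ne')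
  have key : ∀ P : Polynomial ℂ, ((P.comp (Polynomial.C ((p : ℂ) ^ N) * Polynomial.X) :
      Polynomial ℂ) : PowerSeries ℂ) = PowerSeries.rescale ((p : ℂ) ^ N) P := by
    intro P
    ext n
    rw [Polynomial.coeff_coe, Polynomial.comp_C_mul_X_coeff, PowerSeries.coeff_rescale,
      Polynomial.coeff_coe, mul_comm]
  refine ⟨D.comp (Polynomial.C ((p : ℂ) ^ N) * Polynomial.X),
    C.comp (Polynomial.C ((p : ℂ) ^ N) * Polynomial.X), ?_, fun T hT => ?_⟩
  · rw [key, key, ← h1, map_mul]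
    congr 1
    ext n
    rw [PowerSeries.coeff_rescale, PowerSeries.coeff_mk, PowerSeries.coeff_mk, ← mul_assoc,
      ← mul_pow, mul_inv_cancel₀ hp0, one_pow, one_mul]
  · rw [Polynomial.eval_comp]
    refine h2 _ ?_
    have hp1 : (0 : ℝ) < p := by exact_mod_cast hp
    rw [Polynomial.eval_mul, Polynomial.eval_C, Polynomial.eval_X, norm_mul, hT,
      Real.rpow_add hp1, Real.rpow_natCast, norm_pow, Complex.norm_natCast, mul_comm]

end Pool.Agent.MP_5d9b3c_ag.H48L
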