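import Pool.Agent.MP_5d9b3c_ag.H48L.Basic

/-!
The functional equation of the big polynomial.
-/

namespace Pool.Agent.MP_5d9b3c_ag.H48L

open Finset MvPolynomial Pool.Agent.MP_5d9b3c_ag.H22 Pool.Agent.MP_5d9b3c_ag.H48N

namespace BigBAux

/-- The pull back of `y_0 f + ∑ y_s u_s`. -/
lemma core (hT : TSStmt) (hE : ETStmt) (ζ σ : Type) [Fintype ζ] [Fintype σ]
    (f : MvPolynomial ζ ℂ) (b : Polynomial ℂ) (hb : IsB f b)
    (e lam : Option (Option σ) → MvPolynomial (ζ ⊕ Option σ) ℂ)
    (x : ζ → MvPolynomial (ζ ⊕ Option σ) ℂ) (U : MvPolynomial (ζ ⊕ Option σ) ℂ)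
    (R : σ → MvPolynomial (ζ ⊕ Option σ) ℂ)
    (he : e none = U * aeval x f + ∑ s, R s * e (some (some s)))
    (hl : lam (some none) = 0)
    (hJ : ∀ z : ζ ⊕ Option σ → ℂ, eval z (e (some none)) = 0 →
      eval z U ≠ 0 ∧ JInj (Sum.elim x (fun o => e (some o))) z) :
    IsB (cay (md e lam (some none)))
      ((Polynomial.X + 1) * b.comp (Polynomial.X + Polynomial.C (Fintype.card (Option σ) : ℂ))) := by
  classical
  let Ψ : (ζ ⊕ Option σ) ⊕ Option (Option σ) →
      MvPolynomial ((ζ ⊕ Option σ) ⊕ Option (Option σ)) ℂ :=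
    Sum.elim (fun t => rename Sum.inl (Sum.elim x (fun o => e (some o)) t))
      (fun o => o.elim (X (Sum.inr none) * rename Sum.inl U) (fun o' => o'.elim
        (X (Sum.inr (some none)) + ∑ o, X (Sum.inr o) * rename Sum.inl (lam o))
        (fun s => X (Sum.inr (some (some s))) + X (Sum.inr none) * rename Sum.inl (R s))))
  have hF : aeval Ψ (cay (fun o : Option (Option σ) =>
      o.elim (rename Sum.inl f) (fun s => X (Sum.inr s)) :
        Option (Option σ) → MvPolynomial (ζ ⊕ Option σ) ℂ)) = cay (md e lam (some none)) := by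
    have h1 : aeval Ψ (rename Sum.inl (rename Sum.inl f : MvPolynomial (ζ ⊕ Option σ) ℂ)) =
        rename Sum.inl (aeval x f) := by
      rw [aeval_rename, aeval_rename, MvPolynomial.comp_aeval_apply]
      rfl
    simp only [cay, md, map_sum, map_mul, map_add, aeval_X, mul_add, sum_add_distrib,
      ← mul_assoc, ← sum_mul]
    simp only [Fintype.sum_option, Option.elim, h1, rename_X, aeval_X]
    simp only [Fintype.sum_option, Option.elim, Ψ, Sum.elim_inl,
      Sum.elim_inr, he, map_add, map_mul, map_sum, add_mul, sum_add_distrib, mul_add, mul_sum,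
      mul_assoc]
    ring
  rw [← hF]
  refine hE _ Ψ _ _ (Sum.inr (some none)) (hT ζ (Option σ) f b hb) (fun z hz ξ hξ => ?_)
  rw [hF] at hz
  have h0 : ∀ q : MvPolynomial (ζ ⊕ Option σ) ℂ,
      pderiv (Sum.inr (some none) : (ζ ⊕ Option σ) ⊕ Option (Option σ)) (rename Sum.inl q) = 0 :=
    fun q => pderiv_eq_zero_of_notMem_vars (fun h => by
      obtain ⟨i, _, hi⟩ := mem_vars_rename _ _ h
      exact Sum.inl_ne_inr hi)
  have h2 : pderiv (Sum.inr (some none)) (cay (md e lam (some none))) =
      rename Sum.inl (e (some none)) := by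
    simp only [cay, map_sum, Derivation.leibniz, h0, mul_zero, zero_add, smul_eq_mul, pderiv_X]
    rw [sum_eq_single (some none)]
    · simp [md, hl]
    · intro o _ ho
      rw [Pi.single_eq_of_ne (by simpa using ho), mul_zero]
    · simp
  rw [h2, eval_rename] at hz
  obtain ⟨h3, h4⟩ := hJ _ hz
  have h5 : ξ ∘ Sum.inl = 0 := h4 _ (fun t => by
    have := hξ (Sum.inl t)
    simpa only [Ψ, Sum.elim_inl, pd_rename] using this)
  have h6 : ∀ q : MvPolynomial (ζ ⊕ Option σ) ℂ, pd z ξ (rename Sum.inl q) = 0 := fun q => by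
    rw [pd_rename, h5, pd_dir_zero]
  have h7 : ξ (Sum.inr none) = 0 := by
    have := hξ (Sum.inr none)
    simp only [Ψ, Sum.elim_inr, Option.elim, pd_mul, h6, pd_X, mul_zero, zero_add,
      eval_rename] at this
    exact (mul_eq_zero.1 this).resolve_left h3
  have h8 : ∀ s, ξ (Sum.inr (some (some s))) = 0 := fun s => by
    have := hξ (Sum.inr (some (some s)))
    simpa only [Ψ, Sum.elim_inr, Option.elim, pd_mul, pd_add, h6, pd_X, mul_zero, zero_add, h7,
      add_zero] using this
  have h9 : ξ (Sum.inr (some none)) = 0 := by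
    have := hξ (Sum.inr (some none))
    simpa only [Ψ, Sum.elim_inr, Option.elim, pd_mul, pd_add, pd_sum, h6, pd_X, mul_zero,
      zero_add, Fintype.sum_option, h7, h8, hl, map_zero, zero_mul, sum_const_zero,
      add_zero, pd_zero] using this
  funext t
  rcases t with t | _ | _ | s
  · exact congrFun h5 t
  · exact h7
  · exact h9
  · exact h8 s

/-- The difference of two values of a polynomial. -/
lemma diff {ζ S : Type} [Fintype ζ] [CommRing S] [Algebra ℤ S] (a c : ζ → S)
    (f : MvPolynomial ζ ℤ) :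
    ∃ r : ζ → S, aeval a f = aeval c f + ∑ i, r i * (a i - c i) := by
  classical
  induction f using MvPolynomial.induction_on with
  | C n => exact ⟨0, by simp⟩
  | add p q hp hq =>
    obtain ⟨r, hr⟩ := hp
    obtain ⟨r', hr'⟩ := hq
    refine ⟨r + r', ?_⟩
    simp only [map_add, hr, hr', Pi.add_apply, add_mul, sum_add_distrib]
    ring
  | mul_X p i hp =>
    obtain ⟨r, hr⟩ := hp
    refine ⟨fun k => a i * r k + if k = i then aeval c p else 0, ?_⟩
    simp only [map_mul, aeval_X, hr, add_mul, sum_add_distrib, ite_mul, zero_mul, sum_ite_eq',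
      mem_univ, if_true, mul_assoc, ← mul_sum]
    ring

lemma pd_prod {ζ α : Type} [Fintype ζ] {z ξ : ζ → ℂ} (s : Finset α) (g : α → MvPolynomial ζ ℂ)
    (h : ∀ a ∈ s, pd z ξ (g a) = 0) : pd z ξ (∏ a ∈ s, g a) = 0 :=
  prod_induction g (fun q => pd z ξ q = 0) (fun q q' h1 h2 => by simp [pd_mul, h1, h2]) pd_one h

end BigBAux

theorem bigB (hT : TSStmt) (hE : ETStmt) : BigBStmt := by
  intro ζ I _ _ _ _ p _ j f a Φ h u η hd E a' b hb lam hl
  obtain ⟨r, hr⟩ := Ideal.mem_span_range_iff_exists_fun.1 hd.mem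
  obtain ⟨c, hc⟩ := BigBAux.diff (fun i => rename (vx ζ I) (Φ (Sum.inl i))) (xs (p := p) I E a') f
  have he : eqs E a' Φ h η none = rename (vx ζ I) u * aeval (xs (p := p) I E a') f +
      ∑ s, Sum.elim (fun i => rename (vx ζ I) u * c i) (fun s => rename (vx ζ I) (r s)) s *
        eqs E a' Φ h η (some (some s)) := by
    have h1 : h = u * aeval (fun i => Φ (Sum.inl i)) f + ∑ s, r s * Φ (Sum.inr s) := by
      rw [hr]
      ring
    have h2 : rename (vx ζ I) (aeval (fun i => Φ (Sum.inl i)) f) =
        aeval (fun i => rename (vx ζ I) (Φ (Sum.inl i))) f :=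
      MvPolynomial.comp_aeval_apply _
        (rename (vx ζ I) : MvPolynomial (ζ ⊕ I) ℤ_[p] →ₐ[ℤ_[p]] _).toRingHom.toIntAlgHom f
    have h3 : eqs E a' Φ h η none = rename (vx ζ I) h := rfl
    have h4 : ∀ s, eqs E a' Φ h η (some (some s)) =
        rename (vx ζ I) (Φ s) - Sum.elim (xs I E a') 0 s := fun _ => rfl
    rw [h3]
    simp only [h4, Fintype.sum_sum_type, Sum.elim_inl, Sum.elim_inr, Pi.zero_apply, sub_zero,
      mul_assoc, ← mul_sum]
    rw [h1, map_add, map_mul, h2, hc, map_sum]
    simp only [map_mul]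
    ring
  rw [map_cay]
  have hm : (fun o => map j (md (eqs E a' Φ h η) lam (some none) o)) =
      md (fun o => map j (eqs E a' Φ h η o)) (fun o => map j (lam o)) (some none) := by
    funext o
    simp [md]
  rw [hm]
  refine BigBAux.core hT hE ζ (ζ ⊕ I) _ b hb _ _ (fun i => map j (xs I E a' i))
    (map j (rename (vx ζ I) u)) (fun s => map j
      (Sum.elim (fun i => rename (vx ζ I) u * c i) (fun s => rename (vx ζ I) (r s)) s))
    ?_ (by simp [hl]) (fun z hz => ?_)
  · have h5 : aeval (fun i => map j (xs (p := p) I E a' i)) (map (Int.castRingHom ℂ) f) =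
        map j (aeval (xs (p := p) I E a') f) := by
      rw [show Int.castRingHom ℂ = algebraMap ℤ ℂ from rfl, aeval_map_algebraMap]
      exact (MvPolynomial.comp_aeval_apply _ (map j).toIntAlgHom f).symm
    rw [h5, he]
    simp only [map_add, map_mul, map_sum]
  · have h6 : eqs E a' Φ h η (some none) = 1 - X (Sum.inr none) * et η := rfl
    have h7 : eval z (map j (et η)) ≠ 0 := by
      intro h0
      rw [h6] at hz
      simp [h0] at hz
    have h8 : eval (z ∘ vx ζ I) (map j η) ≠ 0 := by
      intro h0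
      apply h7
      rw [et, map_mul, map_mul, map_rename, eval_rename, h0, zero_mul]
    obtain ⟨h9, h10⟩ := hd.et _ h8
    refine ⟨by rwa [map_rename, eval_rename], fun ξ hξ => ?_⟩
    have hx : ∀ i, pd z ξ (map j (xs (p := p) I E a' i)) = 0 := fun i => hξ (Sum.inl i)
    have k1 : ∀ i, ξ (Sum.inl i) = 0 := fun i => by
      have := hx i
      simp only [xs, map_add, map_mul, map_C, map_X, pd_add, pd_mul, pd_C, pd_X, eval_C,
        mul_zero, add_zero, zero_add, map_pow j, map_natCast j] at this
      exact (mul_eq_zero.1 this).resolve_left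
        (pow_ne_zero _ (Nat.cast_ne_zero.2 (Fact.out : p.Prime).ne_zero))
    have k2 : ξ ∘ vx ζ I = 0 := h10 _ (fun s => by
      have : pd z ξ (map j (rename (vx ζ I) (Φ s) - Sum.elim (xs I E a') 0 s)) = 0 :=
        hξ (Sum.inr (some s))
      rw [map_sub, pd_sub, map_rename, pd_rename] at this
      rcases s with i | s
      · simpa only [Sum.elim_inl, hx, sub_zero] using this
      · simpa only [Sum.elim_inr, Pi.zero_apply, map_zero, pd_zero, sub_zero] using this)
    have k3 : pd z ξ (map j (et η)) = 0 := by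
      rw [et, map_mul, pd_mul, map_rename, pd_rename, k2, pd_dir_zero, map_prod,
        BigBAux.pd_prod _ _ (fun i _ => ?_), mul_zero, mul_zero, add_zero]
      rw [map_prod]
      refine BigBAux.pd_prod _ _ (fun n _ => ?_)
      rw [map_sub, map_X, map_C, pd_sub, pd_X, pd_C, k1, sub_zero]
    have k4 : ξ (Sum.inr none) = 0 := by
      have : pd z ξ (map j (1 - X (Sum.inr none) * et η)) = 0 := hξ (Sum.inr none)
      rw [map_sub, map_one, map_mul, map_X, pd_sub, pd_one, pd_mul, k3, pd_X, mul_zero, zero_add,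
        zero_sub, neg_eq_zero] at this
      exact (mul_eq_zero.1 this).resolve_left h7
    funext t
    rcases t with i | _ | s
    · exact k1 i
    · exact k4
    · exact congrFun k2 s

end Pool.Agent.MP_5d9b3c_ag.H48L
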