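import Pool.Agent.MP_5d9b3c_ag.H48L.Basic
import Pool.Agent.MP_5d9b3c_ag.H48N.Gamma

/-!
Generic `p`-adic coefficients, and the faces of `∑ y_o e_o`.
-/

namespace Pool.Agent.MP_5d9b3c_ag.H48L

open Finset MvPolynomial Pool.Agent.MP_5d9b3c_ag.H22 Pool.Agent.MP_5d9b3c_ag.H48N

namespace CayAux

lemma unc (p : ℕ) [Fact p.Prime] : Cardinal.aleph0 < Cardinal.mk ℤ_[p] := by
  rw [← IsFractionRing.cardinalMk (R := ℤ_[p]) ℚ_[p]]
  exact Cardinal.aleph0_lt_continuum.trans_le (continuum_le_cardinal_of_nontriviallyNormedField _)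

variable {τ : Type} {W : τ → ℕ}

lemma wc_X_mul (i : τ) (m : ℕ) (q : MvPolynomial τ ℂ) :
    wc W (W i + m) (X i * q) = X i * wc W m q := by
  induction q using MvPolynomial.induction_on' with
  | monomial α r =>
    rw [X, monomial_mul, wc_monomial, wc_monomial, map_add, Finsupp.weight_single, one_smul]
    by_cases h : Finsupp.weight W α = m
    · rw [if_pos h, if_pos (by rw [h]), monomial_mul]
    · rw [if_neg h, if_neg (by omega), mul_zero]
  | add p q hp hq => simp only [mul_add, map_add, hp, hq]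

lemma le_X_mul (i : τ) {m : ℕ} {q : MvPolynomial τ ℂ}
    (h : ∀ α ∈ q.support, m ≤ Finsupp.weight W α) :
    ∀ α ∈ (X i * q).support, W i + m ≤ Finsupp.weight W α := by
  classical
  intro α hα
  obtain ⟨β, hβ, γ, hγ, rfl⟩ := mem_add.1 (support_mul _ _ hα)
  rw [support_X, mem_singleton] at hβ
  rw [hβ, map_add, Finsupp.weight_single, one_smul]
  exact Nat.add_le_add_left (h γ hγ) _

lemma wc_lt {m n : ℕ} {q : MvPolynomial τ ℂ} (h : ∀ α ∈ q.support, m ≤ Finsupp.weight W α)
    (hn : n < m) : wc W n q = 0 := by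
  ext α
  rw [coeff_wc, coeff_zero]
  split_ifs with h1
  · by_contra h2
    have := h α (mem_support_iff.2 h2)
    omega
  · rfl

lemma pd_inr {ζ I : Type} [DecidableEq I] (S : Finset I) (g : I → MvPolynomial ζ ℂ) {o : I}
    (ho : o ∈ S) : pderiv (Sum.inr o) (∑ o' ∈ S, X (Sum.inr o') * rename Sum.inl (g o') :
      MvPolynomial (ζ ⊕ I) ℂ) = rename Sum.inl (g o) := by
  classical
  have h0 : ∀ q : MvPolynomial ζ ℂ,
      pderiv (Sum.inr o) (rename Sum.inl q : MvPolynomial (ζ ⊕ I) ℂ) = 0 := by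
    intro q
    induction q using MvPolynomial.induction_on with
    | C c => simp
    | add p q hp hq => rw [map_add, map_add, hp, hq, add_zero]
    | mul_X p i hp => rw [map_mul, rename_X, Derivation.leibniz, hp, pderiv_X_of_ne (by simp)]; simp
  rw [map_sum, sum_eq_single o]
  · rw [Derivation.leibniz, h0, pderiv_X_self]
    simp
  · intro o' _ h
    rw [Derivation.leibniz, h0, pderiv_X_of_ne (by simpa using h)]
    simp
  · exact fun h => absurd ho h

lemma pd_inl {ζ I : Type} (S : Finset I) (g : I → MvPolynomial ζ ℂ) (t : ζ) :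
    pderiv (Sum.inl t) (∑ o' ∈ S, X (Sum.inr o') * rename Sum.inl (g o') :
      MvPolynomial (ζ ⊕ I) ℂ) = ∑ o' ∈ S, X (Sum.inr o') * rename Sum.inl (pderiv t (g o')) := by
  classical
  rw [map_sum]
  refine sum_congr rfl (fun o _ => ?_)
  rw [Derivation.leibniz, pderiv_rename Sum.inl_injective, pderiv_X_of_ne (by simp)]
  simp

lemma face {ζ I : Type} [Fintype ζ] [Fintype I] [Nonempty I] (e : I → MvPolynomial ζ ℂ)
    (he : ∀ o, e o ≠ 0) (W : ζ ⊕ I → ℕ) : ∃ S : Finset I, S.Nonempty ∧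
      fc W (cay e) = ∑ o ∈ S, X (Sum.inr o) * rename Sum.inl (fc (W ∘ Sum.inl) (e o)) := by
  classical
  choose μ h1 h2 h3 using fun o => exists_fc (W ∘ Sum.inl) (he o)
  obtain ⟨o0, -, h0⟩ := exists_min_image univ (fun o => W (Sum.inr o) + μ o) univ_nonempty
  have hr : ∀ o, ∀ α ∈ (X (Sum.inr o) * rename Sum.inl (e o) : MvPolynomial (ζ ⊕ I) ℂ).support,
      W (Sum.inr o) + μ o ≤ Finsupp.weight W α := by
    intro o
    refine le_X_mul _ (fun α hα => ?_)
    rw [support_rename_of_injective Sum.inl_injective] at hα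
    obtain ⟨γ, hγ, rfl⟩ := mem_image.1 hα
    rw [weight_mapDomain]
    exact h1 o γ hγ
  have hm : o0 ∈ univ.filter (fun o => W (Sum.inr o) + μ o = W (Sum.inr o0) + μ o0) := by simp
  have key : wc W (W (Sum.inr o0) + μ o0) (cay e) =
      ∑ o ∈ univ.filter (fun o => W (Sum.inr o) + μ o = W (Sum.inr o0) + μ o0),
        X (Sum.inr o) * rename Sum.inl (fc (W ∘ Sum.inl) (e o)) := by
    rw [cay, map_sum, sum_filter]
    refine sum_congr rfl (fun o _ => ?_)
    split_ifs with h
    · rw [← h, wc_X_mul, wc_rename, h3]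
    · exact wc_lt (hr o) (lt_of_le_of_ne (h0 o (mem_univ _)) (Ne.symm h))
  refine ⟨_, ⟨o0, hm⟩, (fc_eq (fun α hα => ?_) (fun h => ?_)).trans key⟩
  · obtain ⟨o, -, ho⟩ := mem_biUnion.1 (support_sum hα)
    exact (h0 o (mem_univ _)).trans (hr o α ho)
  · have h4 := pd_inr _ (fun o => fc (W ∘ Sum.inl) (e o)) hm
    rw [← key, h, map_zero, ← map_zero (rename Sum.inl)] at h4
    obtain ⟨β, hβ, hw⟩ := h2 o0
    have h5 := congrArg (coeff β) (rename_injective _ Sum.inl_injective h4)
    rw [h3, coeff_wc, if_pos hw] at h5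
    exact mem_support_iff.1 hβ h5.symm

end CayAux

open CayAux

theorem trans : TransStmt := by
  classical
  intro α κ _ _ _ p _ j hj c
  have hK : Cardinal.mk (Subfield.closure (Set.range c)) ≤ Cardinal.aleph0 :=
    (Subfield.cardinalMk_closure_le_max _).trans
      (max_le (Set.finite_range c).lt_aleph0.le le_rfl)
  obtain ⟨s, hs⟩ := (AlgebraicIndependent.matroid (Subfield.closure (Set.range c)) ℂ).exists_isBasis
    (Set.range j)
  obtain ⟨h1, h2, h3⟩ := AlgebraicIndependent.matroid_isBasis_iff.1 hs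
  have hinf : s.Infinite := by
    intro hf
    have a1 : Cardinal.mk (Algebra.adjoin (Subfield.closure (Set.range c)) s) ≤ Cardinal.aleph0 :=
      (Algebra.cardinalMk_adjoin_le _ s).trans (max_le (max_le hK hf.lt_aleph0.le) le_rfl)
    have a2 := (Algebraic.cardinalMk_le_max
      (Algebra.adjoin (Subfield.closure (Set.range c)) s) ℂ).trans (max_le a1 le_rfl)
    have a3 : Cardinal.mk (Set.range j) ≤ Cardinal.aleph0 :=
      (Cardinal.mk_subtype_le_of_subset h3).trans a2
    rw [Cardinal.mk_range_eq _ hj] at a3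
    exact absurd (unc p) (not_lt.2 a3)
  obtain ⟨t, hst, ht⟩ := exists_isTranscendenceBasis_superset h1
  have : Infinite s := hinf.to_subtype
  let f : α ↪ s := (Fintype.equivFin α).toEmbedding.trans
    (Fin.valEmbedding.trans (Infinite.natEmbedding s))
  choose γ hγ using fun i => h2 (f i).2
  refine ⟨Subfield.closure (Set.range c), γ, fun k => Subfield.subset_closure ⟨k, rfl⟩,
    fun i => ?_⟩
  obtain ⟨D, hD⟩ := GammaAux.exists_der ht ⟨f i, hst (f i).2⟩
  refine ⟨D, fun i' => ?_⟩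
  rw [hγ, hD ⟨f i', hst (f i').2⟩]
  simp [Subtype.val_inj]

theorem cayley : CayStmt := by
  classical
  intro ζ I _ _ _ e h W x hx _
  obtain ⟨S, ⟨o0, h0⟩, hS⟩ := face e (h 0 1 (fun _ => one_ne_zero)).ne W
  by_contra hn
  push Not at hn
  obtain ⟨t, ht⟩ := h (W ∘ Sum.inl) (x ∘ Sum.inl) (fun i => hx _)
    (fun o => if o ∈ S then x (Sum.inr o) else 0)
    (fun h1 => hx (Sum.inr o0) (by simpa [h0] using congrFun h1 o0)) (fun o ho => by
      have h1 : o ∈ S := by
        by_contra h2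
        exact ho (if_neg h2)
      have h2 := hn (Sum.inr o)
      rw [hS, pd_inr _ _ h1, eval_rename] at h2
      exact ⟨Set.mem_univ _, h2⟩)
  have h2 := hn (Sum.inl t)
  rw [hS, pd_inl, map_sum] at h2
  refine ht (Eq.trans ?_ h2)
  simp only [ite_mul, zero_mul, sum_ite_mem, univ_inter, map_mul, eval_X, eval_rename]

end Pool.Agent.MP_5d9b3c_ag.H48L
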