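import Pool.Agent.MP_5d9b3c_ag.H48L.Basic
import Pool.Agent.MP_5d9b3c_ag.H10.Count

/-!
Counting: the zeros of `∑ y_o e_o`, and the fibres of a chart.
-/

namespace Pool.Agent.MP_5d9b3c_ag.H48L

open Finset MvPolynomial Pool.Agent.MP_5d9b3c_ag.H22 Pool.Agent.MP_5d9b3c_ag.H48N

namespace CntAux

open Pool.Agent.MP_5d9b3c_ag.H10

variable {ζ I : Type} {p : ℕ} [Fact p.Prime]

lemma ev_cay [Fintype I] {k : ℕ} (e : I → MvPolynomial ζ ℤ_[p]) (z : ζ ⊕ I → ZMod (p ^ k)) :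
    ev k z (cay e) = dot (fun o => ev k (fun j => z (Sum.inl j)) (e o)) fun o => z (Sum.inr o) := by
  simp only [ev_eq, cay, map_sum, map_mul, evh_X, evh_rename]
  rfl

lemma red_ev {m : ℕ} (z : ζ → ZMod (p ^ (m + 1))) (q : MvPolynomial ζ ℤ_[p]) :
    ev m (redv ζ p m z) q = red p m (ev (m + 1) z q) := by
  rw [ev, ev, eval₂_comp_left, red, PadicInt.zmod_cast_comp_toZModPow _ _ m.le_succ]
  rfl

lemma card_split [Fintype ζ] [DecidableEq ζ] [Fintype I] {k : ℕ} [NeZero (p ^ k)]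
    (e : I → MvPolynomial ζ ℤ_[p]) (P : ZMod (p ^ k) → Prop) :
    Nat.card {z : ζ ⊕ I → ZMod (p ^ k) // P (ev k z (cay e))} =
      ∑ x : ζ → ZMod (p ^ k), Nat.card {y // P (dot (fun o => ev k x (e o)) y)} := by
  rw [← Nat.card_sigma]
  refine Nat.card_congr
    { toFun := fun z => ⟨fun j => z.1 (Sum.inl j), fun i => z.1 (Sum.inr i), by
        rw [← ev_cay]; exact z.2⟩
      invFun := fun w => ⟨Sum.elim w.1 w.2.1, by rw [ev_cay]; exact w.2.2⟩
      left_inv := fun z => Subtype.ext (funext fun i => by cases i <;> rfl)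
      right_inv := fun w => rfl }

lemma recursion [Fintype ζ] [Fintype I] (m : ℕ) (e : I → MvPolynomial ζ ℤ_[p]) :
    p * Nat.card {z : ζ ⊕ I → ZMod (p ^ (m + 1)) // ev (m + 1) z (cay e) = 0} +
        (p ^ (m + 1)) ^ Fintype.card I *
          Nat.card {x : ζ → ZMod (p ^ (m + 1)) // ∀ o, ev (m + 1) x (e o) = 0} =
      p ^ (Fintype.card ζ + Fintype.card I) *
          Nat.card {z : ζ ⊕ I → ZMod (p ^ m) // ev m z (cay e) = 0} +
        p * ((p ^ (m + 1)) ^ Fintype.card I *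
          Nat.card {x : ζ → ZMod (p ^ (m + 1)) // ∀ o, ev (m + 1) x (e o) = 0}) := by
  classical
  have hp : p.Prime := Fact.out
  have : NeZero (p ^ (m + 1)) := ⟨pow_ne_zero _ hp.ne_zero⟩
  have h1 := card_pre (redv (ζ ⊕ I) p m) (fun z => ev m z (cay e) = 0)
    fun h _ => redv_surj _ p m h
  rw [card_ker_redv _ hp.pos, Fintype.card_sum] at h1
  simp only [red_ev] at h1
  have h3 : (p ^ (m + 1)) ^ Fintype.card I *
      Nat.card {x : ζ → ZMod (p ^ (m + 1)) // ∀ o, ev (m + 1) x (e o) = 0} =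
      ∑ x : ζ → ZMod (p ^ (m + 1)),
        if (fun o => ev (m + 1) x (e o)) = 0 then (p ^ (m + 1)) ^ Fintype.card I else 0 := by
    rw [← Finset.sum_filter, Finset.sum_const, smul_eq_mul, mul_comm, Nat.card_eq_fintype_card,
      Fintype.card_subtype]
    simp only [funext_iff, Pi.zero_apply]
  rw [← h1, h3, card_split e (fun t => t = 0), card_split e (fun t => red p m t = 0),
    Finset.mul_sum, Finset.mul_sum, ← Finset.sum_add_distrib, ← Finset.sum_add_distrib]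
  exact Finset.sum_congr rfl fun x _ => fibre hp _

lemma dvd_ev {k : ℕ} {d : ZMod (p ^ k)} {x x' : ζ → ZMod (p ^ k)} (h : ∀ t, d ∣ x t - x' t)
    (q : MvPolynomial ζ ℤ_[p]) : d ∣ evh x q - evh x' q := by
  induction q using MvPolynomial.induction_on with
  | C r => simp [evh_C]
  | add a b ha hb =>
    rw [map_add, map_add, add_sub_add_comm]
    exact dvd_add ha hb
  | mul_X a i ha =>
    rw [map_mul, map_mul, evh_X, evh_X, show evh x a * x i - evh x' a * x' i =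
      (evh x a - evh x' a) * x i + evh x' a * (x i - x' i) by ring]
    exact dvd_add (ha.mul_right _) ((h i).mul_left _)

lemma shift_inj (k : ℕ) (q : ζ → MvPolynomial ζ ℤ_[p]) : Function.Injective
    fun (x : ζ → ZMod (p ^ k)) t => x t + (p : ZMod (p ^ k)) * evh x (q t) := by
  intro x x' h
  have key : ∀ i : ℕ, ∀ t, (p : ZMod (p ^ k)) ^ i ∣ x t - x' t := by
    intro i
    induction i with
    | zero => simp
    | succ i ih =>
      intro t
      have h1 : x t + (p : ZMod (p ^ k)) * evh x (q t) = x' t + p * evh x' (q t) := congrFun h t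
      rw [show x t - x' t = -((evh x (q t) - evh x' (q t)) * p) by linear_combination h1, pow_succ]
      exact (mul_dvd_mul_right (dvd_ev ih (q t)) _).neg_right
  funext t
  have := key k t
  rwa [← Nat.cast_pow, ZMod.natCast_self, zero_dvd_iff, sub_eq_zero] at this

/-- Coordinatewise reduction. -/
noncomputable def rd (τ : Type) (p : ℕ) [Fact p.Prime] (k : ℕ) :
    (τ → ℤ_[p]) →+ (τ → ZMod (p ^ k)) := (PadicInt.toZModPow k).toAddMonoidHom.compLeft τ

lemma rd_eq_zero {τ : Type} {k : ℕ} {x : τ → ℤ_[p]} :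
    rd τ p k x = 0 ↔ ∃ v : τ → ℤ_[p], x = (p : ℤ_[p]) ^ k • v := by
  constructor
  · intro h
    have h1 : ∀ t, (p : ℤ_[p]) ^ k ∣ x t := fun t => toZModPow_eq_zero.1 (congrFun h t)
    choose v hv using h1
    exact ⟨v, funext hv⟩
  · rintro ⟨v, rfl⟩
    exact funext fun t => toZModPow_eq_zero.2 ⟨v t, rfl⟩

lemma rd_mulVec {τ : Type} [Fintype τ] {k : ℕ} (M : Matrix τ τ ℤ_[p]) (x : τ → ℤ_[p]) :
    rd τ p k (M.mulVec x) = (M.map (PadicInt.toZModPow k)).mulVec (rd τ p k x) :=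
  funext fun t => RingHom.map_mulVec (PadicInt.toZModPow k) M x t

lemma card_ker {τ : Type} [Fintype τ] [DecidableEq τ] {M N : Matrix τ τ ℤ_[p]} {δ k : ℕ}
    (h1 : M * N = (p : ℤ_[p]) ^ δ • 1) (h2 : N * M = (p : ℤ_[p]) ^ δ • 1) (hk : δ ≤ k) :
    Nat.card {x : τ → ZMod (p ^ k) // (M.map (PadicInt.toZModPow k)).mulVec x = 0} =
      M.mulVecLin.toAddMonoidHom.range.index := by
  have hp0 : (p : ℤ_[p]) ≠ 0 := by exact_mod_cast (Fact.out : p.Prime).ne_zero
  have e1 : ∀ w, M.mulVec (N.mulVec w) = (p : ℤ_[p]) ^ δ • w := fun w => by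
    rw [Matrix.mulVec_mulVec, h1, Matrix.smul_mulVec, Matrix.one_mulVec]
  have e2 : ∀ w, N.mulVec (M.mulVec w) = (p : ℤ_[p]) ^ δ • w := fun w => by
    rw [Matrix.mulVec_mulVec, h2, Matrix.smul_mulVec, Matrix.one_mulVec]
  obtain ⟨l, rfl⟩ := Nat.exists_eq_add_of_le hk
  let ψ : (τ → ℤ_[p]) →+ (τ → ZMod (p ^ (δ + l))) :=
    (rd τ p (δ + l)).comp ((p : ℤ_[p]) ^ l • N.mulVecLin).toAddMonoidHom
  have hψ : ∀ w, ψ w = rd τ p (δ + l) ((p : ℤ_[p]) ^ l • N.mulVec w) := fun _ => rfl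
  have hker : ψ.ker = M.mulVecLin.toAddMonoidHom.range := by
    ext w
    rw [AddMonoidHom.mem_ker, hψ, rd_eq_zero]
    constructor
    · rintro ⟨v, hv⟩
      have h3 := congrArg M.mulVec hv
      rw [Matrix.mulVec_smul, Matrix.mulVec_smul, e1, smul_smul, ← pow_add, add_comm l] at h3
      exact ⟨v, (smul_right_injective _ (pow_ne_zero _ hp0) h3).symm⟩
    · rintro ⟨v, rfl⟩
      refine ⟨v, ?_⟩
      change _ • N.mulVec (M.mulVec v) = _
      rw [e2, smul_smul, ← pow_add, add_comm]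
  rw [← hker, AddSubgroup.index_ker]
  refine Nat.card_congr (Equiv.subtypeEquivRight fun x => ?_)
  constructor
  · intro hx
    obtain ⟨x, rfl⟩ : ∃ x', rd τ p (δ + l) x' = x :=
      (ZMod.ringHom_surjective (PadicInt.toZModPow (δ + l))).comp_left x
    rw [← rd_mulVec, rd_eq_zero] at hx
    obtain ⟨w, hw⟩ := hx
    have h3 := congrArg N.mulVec hw
    rw [e2, Matrix.mulVec_smul, pow_add, ← smul_smul] at h3
    exact ⟨w, by rw [hψ, smul_right_injective _ (pow_ne_zero _ hp0) h3]⟩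
  · rintro ⟨w, rfl⟩
    rw [hψ, ← rd_mulVec, rd_eq_zero]
    exact ⟨w, by rw [Matrix.mulVec_smul, e1, smul_smul, ← pow_add, add_comm]⟩

end CntAux

open CntAux

theorem count : CntStmt := by
  intro ζ I _ _ p _ e k hk
  obtain ⟨m, rfl⟩ : ∃ m, k = m + 1 := ⟨k - 1, by omega⟩
  have hp0 : (p : ℂ) ≠ 0 := Nat.cast_ne_zero.2 (Fact.out : p.Prime).ne_zero
  rw [dif, if_pos hk, Nat.add_sub_cancel, den, den, den, Fintype.card_sum]
  have h := congrArg (Nat.cast : ℕ → ℂ) (recursion m e)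
  push_cast at h
  generalize (Nat.card {z : ζ ⊕ I → ZMod (p ^ (m + 1)) // ev (m + 1) z (cay e) = 0} : ℂ) = A
    at h ⊢
  generalize (Nat.card {z : ζ ⊕ I → ZMod (p ^ m) // ev m z (cay e) = 0} : ℂ) = B at h ⊢
  generalize (Nat.card {x : ζ → ZMod (p ^ (m + 1)) // ∀ o, ev (m + 1) x (e o) = 0} : ℂ) = N
    at h ⊢
  have hA : A = ((p : ℂ) ^ (Fintype.card ζ + Fintype.card I) * B +
      (p - 1) * (((p : ℂ) ^ (m + 1)) ^ Fintype.card I * N)) / p := by
    field_simp
    linear_combination h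
  rw [hA]
  simp only [inv_pow]
  field_simp
  ring

theorem fibre : FibStmt := by
  intro τ _ _ p _ M t0 q Θ hM hΘ
  have hp : p.Prime := Fact.out
  have hd := PadicInt.unitCoeff_spec hM
  set u := PadicInt.unitCoeff hM
  set δ := M.det.valuation
  have h1 : M * ((u⁻¹ : ℤ_[p]ˣ) : ℤ_[p]) • M.adjugate = (p : ℤ_[p]) ^ δ • 1 := by
    rw [Matrix.mul_smul, Matrix.mul_adjugate, smul_smul, hd, Units.inv_mul_cancel_left]
  have h2 : ((u⁻¹ : ℤ_[p]ˣ) : ℤ_[p]) • M.adjugate * M = (p : ℤ_[p]) ^ δ • 1 := by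
    rw [Matrix.smul_mul, Matrix.adjugate_mul, smul_smul, hd, Units.inv_mul_cancel_left]
  generalize ((u⁻¹ : ℤ_[p]ˣ) : ℤ_[p]) • M.adjugate = N at h1 h2
  refine ⟨δ, M.mulVecLin.toAddMonoidHom.range.index, ?_, fun k z => ?_, fun k hk z y hz => ?_⟩
  · have : NeZero (p ^ δ) := ⟨pow_ne_zero _ hp.ne_zero⟩
    rw [← card_ker h1 h2 le_rfl]
    have : Nonempty {x : τ → ZMod (p ^ δ) // (M.map (PadicInt.toZModPow δ)).mulVec x = 0} :=
      ⟨⟨0, Matrix.mulVec_zero _⟩⟩
    exact Nat.card_pos.ne'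
  · obtain ⟨z, rfl⟩ : ∃ x', rd τ p k x' = z :=
      (ZMod.ringHom_surjective (PadicInt.toZModPow k)).comp_left z
    refine ⟨rd τ p k (N.mulVec z), fun s => ?_⟩
    have h3 := congrFun (rd_mulVec (k := k) M (N.mulVec z)) s
    rw [Matrix.mulVec_mulVec, h1, Matrix.smul_mulVec, Matrix.one_mulVec] at h3
    refine Eq.trans ?_ h3
    change _ * PadicInt.toZModPow k (z s) = PadicInt.toZModPow k ((p : ℤ_[p]) ^ δ * z s)
    rw [map_mul, map_pow, map_natCast]
  · have : NeZero (p ^ k) := ⟨pow_ne_zero _ hp.ne_zero⟩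
    rw [← card_ker h1 h2 hk]
    refine Nat.card_congr (Equiv.subtypeEquiv ((Equiv.ofBijective _
      (Finite.injective_iff_bijective.1 (shift_inj k q))).trans (Equiv.subRight y)) fun x => ?_)
    rw [funext_iff]
    refine forall_congr' fun s => ?_
    rw [hz, hΘ, ev_eq]
    simp only [map_add, map_sum, map_mul, evh_C, evh_X, map_natCast, add_right_inj,
      Equiv.trans_apply, Equiv.subRight_apply, Equiv.ofBijective_apply, Matrix.mulVec,
      dotProduct, Matrix.map_apply, Pi.sub_apply, mul_sub, sum_sub_distrib, Pi.zero_apply,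
      sub_eq_zero]

end Pool.Agent.MP_5d9b3c_ag.H48L
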