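import Pool.Agent.Results.MP_5d9b3c_ag.LocallyNondegenerate

/-!
Polynomials that are nondegenerate along all faces have a chart at every point.
-/

namespace Pool.Agent.MP_5d9b3c_ag.H48L

open MvPolynomial Pool.Agent.Results.MP_5d9b3c_ag.LocallyNondegenerate

theorem chart_of_all_faces {n p : ℕ} [Fact p.Prime] (f : MvPolynomial (Fin n) ℤ)
    (h : ∀ w : Fin n → ℕ, H22.Nond (face w (map (Int.castRingHom ℂ) f))) (a : Fin n → ℤ_[p]) :
    HasChart (stabilise f 0 0) (Sum.elim a 0) := by
  classical
  obtain ⟨E⟩ := exists_emb p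
  refine ⟨0, Sum.elim (fun i => ((Sum.elim a 0 i : ℤ_[p]) : ℚ_[p])) 0, fun i => X (Sum.inl i),
    Fin.elim0, aeval (fun i => X (Sum.inl i)) (stabilise f 0 0), 1, fun i => by simp,
    fun j => j.elim0, ?_, by simp, by simp, ?_⟩
  · rw [show (Matrix.of fun s t => _) = 1 from ?_]
    · simp
    · ext s t
      rcases s with s | s
      · simp [pderiv_X, Pi.single_apply, Matrix.one_apply, apply_ite (eval _)]
      · exact s.elim0
  intro w x _ hx _
  let ι : Fin n → (Fin n ⊕ Fin 0 ⊕ Fin 0 ⊕ Fin 0) ⊕ Fin 0 := fun i => Sum.inl (Sum.inl i)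
  have hι : Function.Injective ι := Sum.inl_injective.comp Sum.inl_injective
  let j := E.toRingHom.comp (algebraMap ℚ_[p] _)
  have key : ∀ q : MvPolynomial _ ℚ_[p], eval (fun i => E (x i)) (map j q) = E (aeval x q) :=
    fun q => by
    induction q using MvPolynomial.induction_on with
    | C r => simp [j]
    | add p q hp hq => simp only [map_add, hp, hq]
    | mul_X p i hp => rw [map_mul, map_mul, map_mul, map_mul, hp]; simp
  have h1 : ∀ f, map j (aeval (fun i => (X (Sum.inl i) : MvPolynomial (_ ⊕ Fin 0) ℚ_[p]))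
      (stabilise f 0 0)) = rename ι (map (Int.castRingHom ℂ) f) := fun f => by
    rw [stabilise, Finset.univ_eq_empty, Finset.sum_empty, add_zero]
    induction f using MvPolynomial.induction_on with
    | C r => simp
    | add p q hp hq => simp only [map_add, hp, hq]
    | mul_X p i hp => simp only [map_mul, hp]; simp [ι]
  have h2 := map_face (RingHom.id ℂ) (w ∘ ι) (map (Int.castRingHom ℂ) f)
  rw [map_id, map_id] at h2
  have h3 := map_face j w (aeval (fun i => (X (Sum.inl i) : MvPolynomial (_ ⊕ Fin 0) ℚ_[p]))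
      (stabilise f 0 0))
  rw [h1, fc_rename hι, h2] at h3
  rw [linearIndependent_subsingleton_index_iff]
  rintro ⟨o, ho⟩ h0
  rcases o with _ | o
  · obtain ⟨i, hi⟩ := h (w ∘ ι) ((fun i => E (x i)) ∘ ι) (fun i => by simpa using hx _) (by
      rw [← eval_rename, h3, key]
      exact (congrArg E ho).trans (map_zero E))
    rw [← eval_rename, ← pderiv_rename hι, h3, pderiv_map, key] at hi
    exact hi ((congrArg E (congrFun h0 _)).trans (map_zero E))
  · exact o.elim0

end Pool.Agent.MP_5d9b3c_ag.H48L
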