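import Pool.Agent.MP_5d9b3c_ag.H48L.Basic

/-!
The functional equation is pulled back along an etale map.
-/

namespace Pool.Agent.MP_5d9b3c_ag.H48L

open Finset MvPolynomial Pool.Agent.MP_5d9b3c_ag.H22 Pool.Agent.MP_5d9b3c_ag.H48N

namespace ETAux

variable {τ : Type} [Fintype τ] (Ψ : τ → MvPolynomial τ ℂ)

lemma chain (t : τ) (h : MvPolynomial τ ℂ) :
    pderiv t (aeval Ψ h) = ∑ s, aeval Ψ (pderiv s h) * pderiv t (Ψ s) := by
  classical
  induction h using MvPolynomial.induction_on with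
  | C c => simp
  | add p q hp hq => simp only [map_add, hp, hq, add_mul, sum_add_distrib]
  | mul_X p i hp =>
    simp only [map_mul, aeval_X, pderiv_mul, hp, map_add, add_mul, sum_add_distrib, sum_mul]
    congr 1
    · exact sum_congr rfl fun s _ => by ring
    · rw [sum_eq_single i (fun s _ hs => by rw [pderiv_X_of_ne hs.symm]; simp) (by simp)]
      simp

variable [DecidableEq τ]

/-- The Jacobian matrix. -/
noncomputable def jac : Matrix τ τ (MvPolynomial τ ℂ) := Matrix.of fun s t => pderiv t (Ψ s)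

/-- The lifted vector fields. -/
noncomputable def vf (s : τ) : Derivation ℂ (MvPolynomial τ ℂ) (MvPolynomial τ ℂ) :=
  ∑ t, (jac Ψ).adjugate t s • pderiv t

lemma vf_apply (s : τ) (h : MvPolynomial τ ℂ) :
    vf Ψ s h = ∑ t, (jac Ψ).adjugate t s * pderiv t h := by
  have := map_sum (Derivation.coeFnAddMonoidHom (R := ℂ) (A := MvPolynomial τ ℂ)
    (M := MvPolynomial τ ℂ)) (fun t => (jac Ψ).adjugate t s • pderiv t) univ
  exact (congrFun this h).trans (Finset.sum_apply _ _ _)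

lemma vf_mem (s : τ) : (vf Ψ s).toLinearMap ∈ WW τ := by
  have : (vf Ψ s).toLinearMap = ∑ t, LinearMap.mulLeft ℂ ((jac Ψ).adjugate t s) *
      (pderiv t : Derivation ℂ (MvPolynomial τ ℂ) (MvPolynomial τ ℂ)).toLinearMap :=
    LinearMap.ext fun h => by simp [vf_apply, LinearMap.sum_apply]
  rw [this]
  exact sum_mem fun t _ => mul_mem (mul_mem_WW _) (pderiv_mem_WW t)

lemma vf_aeval (s : τ) (h : MvPolynomial τ ℂ) :
    vf Ψ s (aeval Ψ h) = (jac Ψ).det * aeval Ψ (pderiv s h) := by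
  have h1 : ∀ r, ∑ t, pderiv t (Ψ r) * (jac Ψ).adjugate t s =
      if r = s then (jac Ψ).det else 0 := fun r => by
    have := congrFun (congrFun (Matrix.mul_adjugate (jac Ψ)) r) s
    simpa [Matrix.mul_apply, jac, Matrix.one_apply] using this
  calc vf Ψ s (aeval Ψ h)
      = ∑ r, aeval Ψ (pderiv r h) * ∑ t, pderiv t (Ψ r) * (jac Ψ).adjugate t s := by
        simp only [vf_apply, chain, mul_sum]
        rw [sum_comm]
        exact sum_congr rfl fun r _ => sum_congr rfl fun t _ => by ring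
    _ = _ := by
        simp only [h1, mul_ite, mul_zero, sum_ite_eq', mem_univ, if_true]
        exact mul_comm _ _

lemma lift (P : Module.End ℂ (MvPolynomial τ ℂ)) (hP : P ∈ WW τ) : ∀ k0 : ℕ, ∃ k : ℕ,
    ∃ Q ∈ WW τ, ∀ h, Q ((jac Ψ).det ^ k0 * aeval Ψ h) = (jac Ψ).det ^ k * aeval Ψ (P h) := by
  induction hP using Algebra.adjoin_induction with
  | mem x hx =>
    intro k0
    rcases hx with ⟨i, rfl⟩ | ⟨i, rfl⟩
    · exact ⟨k0, _, mul_mem_WW (Ψ i), fun h => by simp; ring⟩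
    · refine ⟨k0 + 2, _, sub_mem (mul_mem (mul_mem_WW (jac Ψ).det) (vf_mem Ψ i))
        (mul_mem_WW ((k0 : MvPolynomial τ ℂ) * vf Ψ i (jac Ψ).det)), fun h => ?_⟩
      simp only [LinearMap.sub_apply, Module.End.mul_apply, LinearMap.mulLeft_apply,
        Derivation.coeFn_coe, Derivation.leibniz, Derivation.leibniz_pow, vf_aeval, smul_eq_mul,
        nsmul_eq_mul]
      rcases k0 with _ | k0
      · simp; ring
      · rw [Nat.add_sub_cancel]; push_cast; ring
  | algebraMap r =>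
    exact fun k0 => ⟨k0, _, (WW τ).algebraMap_mem r, fun h => by
      simp [Module.algebraMap_end_apply]⟩
  | add x y _ _ hx hy =>
    intro k0
    obtain ⟨k1, Q1, a1, a2⟩ := hx k0
    obtain ⟨k2, Q2, b1, b2⟩ := hy k0
    refine ⟨k1 + k2, _, add_mem (mul_mem (mul_mem_WW ((jac Ψ).det ^ k2)) a1)
      (mul_mem (mul_mem_WW ((jac Ψ).det ^ k1)) b1), fun h => ?_⟩
    simp only [LinearMap.add_apply, Module.End.mul_apply, LinearMap.mulLeft_apply, a2, b2, map_add]
    ring
  | mul x y _ _ hx hy =>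
    intro k0
    obtain ⟨k1, Q1, a1, a2⟩ := hy k0
    obtain ⟨k2, Q2, b1, b2⟩ := hx k1
    exact ⟨k2, _, mul_mem b1 a1, fun h => by simp only [Module.End.mul_apply, a2, b2]⟩

lemma liftPW {A : ℕ → Module.End ℂ (MvPolynomial τ ℂ)} (hA : PW A) : ∃ (k : ℕ)
    (A' : ℕ → Module.End ℂ (MvPolynomial τ ℂ)), PW A' ∧
      ∀ m h, A' m (aeval Ψ h) = (jac Ψ).det ^ k * aeval Ψ (A m h) := by
  obtain ⟨d, P, h1, h2⟩ := hA
  choose k Q q1 q2 using fun t => lift Ψ (P t) (h1 t) 0
  refine ⟨∑ t ∈ range d, k t, _, ⟨d, fun t => LinearMap.mulLeft ℂ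
    ((jac Ψ).det ^ (∑ t ∈ range d, k t - k t)) * Q t, fun t => mul_mem (mul_mem_WW _) (q1 t),
    fun _ => rfl⟩, fun m h => ?_⟩
  simp only [h2, LinearMap.sum_apply, LinearMap.smul_apply, map_sum, map_smul, mul_sum,
    Module.End.mul_apply, LinearMap.mulLeft_apply]
  refine sum_congr rfl fun t ht => ?_
  have h3 := q2 t h
  rw [pow_zero, one_mul] at h3
  rw [h3, ← mul_assoc, ← pow_add, Nat.sub_add_cancel (single_le_sum (fun _ _ => Nat.zero_le _) ht),
    mul_smul_comm]

lemma coprime {u : MvPolynomial τ ℂ} (h : ∀ z : τ → ℂ, eval z u = 0 → JInj Ψ z) :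
    IsCoprime (jac Ψ).det u := by
  rw [← Ideal.isCoprime_span_singleton_iff, Ideal.isCoprime_iff_sup_eq]
  by_contra hne
  obtain ⟨M, hM, hle⟩ := Ideal.exists_le_maximal _ hne
  obtain ⟨z, rfl⟩ := eq_vanishingIdeal_singleton_of_isMaximal ℂ hM
  have h1 : eval z (jac Ψ).det = 0 := (mem_vanishingIdeal_singleton_iff z _).1
    (hle (Ideal.mem_sup_left (Ideal.mem_span_singleton_self _)))
  have h2 : eval z u = 0 := (mem_vanishingIdeal_singleton_iff z _).1
    (hle (Ideal.mem_sup_right (Ideal.mem_span_singleton_self _)))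
  rw [RingHom.map_det, ← Matrix.exists_mulVec_eq_zero_iff] at h1
  obtain ⟨v, hv, h3⟩ := h1
  exact hv (h z h2 v fun s => congrFun h3 s)

end ETAux

open ETAux in
theorem etale : ETStmt := by
  intro τ _ Ψ G β y hb hj
  classical
  obtain ⟨A, h1, h2⟩ := isB_iff.1 hb
  obtain ⟨k, A', h3, h4⟩ := liftPW Ψ h1
  obtain ⟨al, ga, h5⟩ := (coprime Ψ hj).pow_left (m := k)
  refine isB_iff.2 ⟨_, (h3.left (mul_mem_WW al)).add
    ((PW.const (mul_mem (mul_mem_WW ga) (pderiv_mem_WW y))).poly β), fun m => ?_⟩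
  have h6 := h4 m (G ^ (m + 1))
  rw [h2, map_pow (aeval Ψ), map_smul, map_pow (aeval Ψ)] at h6
  simp only [LinearMap.add_apply, Module.End.mul_apply, LinearMap.mulLeft_apply, h6,
    LinearMap.smul_apply, Derivation.coeFn_coe, pderiv_pow, Nat.add_sub_cancel,
    Polynomial.eval_mul, Polynomial.eval_add, Polynomial.eval_X, Polynomial.eval_one,
    smul_eq_C_mul, map_mul, map_add, map_natCast, map_one]
  push_cast
  linear_combination ((m + 1) * C (β.eval (m : ℂ)) * aeval Ψ G ^ m) * h5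

end Pool.Agent.MP_5d9b3c_ag.H48L
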