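import Pool.Agent.MP_5d9b3c_ag.H48L.Basic

/-!
The big system is nondegenerate where the localising polynomial does not vanish.
-/

namespace Pool.Agent.MP_5d9b3c_ag.H48L

open Finset MvPolynomial Pool.Agent.MP_5d9b3c_ag.H22 Pool.Agent.MP_5d9b3c_ag.H48N

namespace ExtAux

variable {ζ I : Type}

lemma pderiv_ren {σ τ R : Type} [CommRing R] (f : σ → τ) {t : τ} (ht : ∀ s, f s ≠ t)
    (q : MvPolynomial σ R) : pderiv t (rename f q) = 0 := by
  induction q using MvPolynomial.induction_on with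
  | C c => simp
  | add p q hp hq => rw [map_add, map_add, hp, hq, add_zero]
  | mul_X p i hp =>
    rw [map_mul, rename_X, Derivation.leibniz, hp, pderiv_X_of_ne (ht i)]
    simp

lemma vx_inj : Function.Injective (vx ζ I) := fun _ _ h => by simpa [vx] using h

lemma vx_none (s : ζ ⊕ I) : vx ζ I s ≠ Sum.inr none := by simp [vx]

lemma vx_inl (i : ζ) (s : ζ ⊕ I) : vx ζ I s ≠ Sum.inl i := by simp [vx]

variable {p : ℕ} [Fact p.Prime]

lemma pderiv_xs (E : ℕ) (a : ζ → ℤ) (i : ζ) {t : ζ ⊕ Option (ζ ⊕ I)} (ht : Sum.inl i ≠ t) :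
    pderiv t (xs (p := p) I E a i) = 0 := by
  rw [xs, map_add, pderiv_C, pderiv_C_mul, pderiv_X_of_ne ht]
  simp

lemma pderiv_eqs [Fintype ζ] (E : ℕ) (a : ζ → ℤ) (Φ : ζ ⊕ I → MvPolynomial (ζ ⊕ I) ℤ_[p])
    (h η : MvPolynomial (ζ ⊕ I) ℤ_[p]) {t : ζ ⊕ Option (ζ ⊕ I)} (ht : ∀ s, vx ζ I s ≠ t)
    (o : Option (Option (ζ ⊕ I))) (ho : o ≠ some none)
    (hi : ∀ i, o = some (some (Sum.inl i)) → Sum.inl i ≠ t) :
    pderiv t (eqs E a Φ h η o) = 0 := by
  rcases o with _ | _ | i | s
  · exact pderiv_ren _ ht _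
  · exact absurd rfl ho
  · show pderiv t (rename (vx ζ I) (Φ (Sum.inl i)) - xs I E a i) = 0
    rw [map_sub, pderiv_ren _ ht, pderiv_xs E a i (hi i rfl), sub_zero]
  · show pderiv t (rename (vx ζ I) (Φ (Sum.inr s)) - 0) = 0
    rw [sub_zero, pderiv_ren _ ht]

lemma face [Fintype ζ] [Fintype I] (j : ℤ_[p] →+* ℂ) (E : ℕ) (a : ζ → ℤ)
    (Φ : ζ ⊕ I → MvPolynomial (ζ ⊕ I) ℤ_[p]) (h η : MvPolynomial (ζ ⊕ I) ℤ_[p]) (i : ζ)
    (w : ζ ⊕ Option (ζ ⊕ I) → ℕ) (hw : w (Sum.inl i) = 0) :
    pderiv (Sum.inl i) (fc w (map j (eqs E a Φ h η (some (some (Sum.inl i)))))) =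
      - C ((p : ℂ) ^ E) := by
  have hp : (p : ℂ) ^ E ≠ 0 :=
    pow_ne_zero _ (by exact_mod_cast (Fact.out : p.Prime).ne_zero)
  have h1 : pderiv (Sum.inl i) (wc w 0 (map j (eqs E a Φ h η (some (some (Sum.inl i)))))) =
      - C ((p : ℂ) ^ E) := by
    have e : map j (eqs E a Φ h η (some (some (Sum.inl i)))) =
        rename (vx ζ I) (map j (Φ (Sum.inl i))) -
          (C (j ((a i : ℤ_[p]) - (p : ℤ_[p]) ^ E)) + C ((p : ℂ) ^ E) * X (Sum.inl i)) := by
      show map j (rename (vx ζ I) (Φ (Sum.inl i)) - xs I E a i) = _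
      rw [map_sub, map_rename, xs, map_add, map_mul, map_C, map_C, map_X, map_pow j, map_natCast]
    rw [e, map_sub, map_add, wc_rename, wc_zero_mul, wc_zero_C, wc_zero_C, wc_zero_X, if_pos hw,
      map_sub, pderiv_ren _ (vx_inl i), map_add, pderiv_C, pderiv_C_mul, pderiv_X_self]
    simp
  rw [fc_eq (μ := 0) (fun _ _ => Nat.zero_le _), h1]
  intro h0
  rw [h0, map_zero] at h1
  exact hp (C_eq_zero.1 (neg_eq_zero.1 h1.symm))

end ExtAux

open ExtAux in
theorem extend : ExtStmt := by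
  intro ζ I _ _ _ _ p _ j f a Φ h u η hD E a'
  have hp : (p : ℂ) ^ E ≠ 0 :=
    pow_ne_zero _ (by exact_mod_cast (Fact.out : p.Prime).ne_zero)
  refine ⟨?_, fun o ho => pderiv_eqs E a' Φ h η vx_none o ho (fun i _ => by simp), ?_, ?_⟩
  · have h1 : pderiv (Sum.inr none) (∏ i : ζ, ∏ c ∈ (range p).erase 1,
        (X (Sum.inl i) - C (c : ℤ_[p]) : MvPolynomial (ζ ⊕ Option (ζ ⊕ I)) ℤ_[p])) = 0 := by
      have hm : ∀ q q' : MvPolynomial (ζ ⊕ Option (ζ ⊕ I)) ℤ_[p], pderiv (Sum.inr none) q = 0 →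
          pderiv (Sum.inr none) q' = 0 → pderiv (Sum.inr none) (q * q') = 0 := by
        intro q q' h1 h2
        rw [Derivation.leibniz, h1, h2]
        simp
      refine prod_induction _ (fun q => pderiv (Sum.inr none) q = 0) hm (by simp) (fun i _ => ?_)
      refine prod_induction _ (fun q => pderiv (Sum.inr none) q = 0) hm (by simp) (fun c _ => ?_)
      show pderiv _ (_ - _) = 0
      rw [map_sub, pderiv_C, pderiv_X_of_ne (by simp), sub_zero]
    rw [et, Derivation.leibniz, h1, pderiv_ren _ vx_none]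
    simp
  · rintro (_ | _ | i | s) h0
    · exact hD.ne none (rename_injective _ vx_inj (h0.trans (map_zero _).symm))
    · have h1 : (1 - X (Sum.inr none) * et η : MvPolynomial (ζ ⊕ Option (ζ ⊕ I)) ℤ_[p]) = 0 := h0
      have := congrArg constantCoeff h1
      simp at this
    · have h1 := face j E a' Φ h η i 0 rfl
      rw [h0, map_zero, fc_zero, map_zero] at h1
      exact hp (C_eq_zero.1 (neg_eq_zero.1 h1.symm))
    · have h1 : rename (vx ζ I) (Φ (Sum.inr s)) - 0 = 0 := h0
      rw [sub_zero] at h1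
      exact hD.ne (some s) (rename_injective _ vx_inj (h1.trans (map_zero _).symm))
  · intro w x hx hη y hy0 hy
    rw [et, map_mul, map_rename, map_mul, eval_rename, mul_ne_zero_iff] at hη
    obtain ⟨hη, hU⟩ := hη
    have hw : ∀ i, w (Sum.inl i) = 0 := by
      intro i
      by_contra hw
      refine hU ?_
      simp only [map_prod]
      refine prod_eq_zero (mem_univ i) (prod_eq_zero (i := 0) ?_ ?_)
      · exact mem_erase.2 ⟨by simp, mem_range.2 (Fact.out : p.Prime).pos⟩
      · simp [cut, hw]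
    by_contra hc
    push Not at hc
    have y1 : y (some none) = 0 := by
      by_contra h1
      exact (hy _ h1).1 rfl
    have y2 : ∀ i, y (some (some (Sum.inl i))) = 0 := by
      intro i
      have h1 := hc (Sum.inl i)
      rw [sum_eq_single (some (some (Sum.inl i))), face j E a' Φ h η i w (hw i)] at h1
      · simpa [(Fact.out : p.Prime).ne_zero] using h1
      · intro o _ ho
        by_cases h2 : o = some none
        · rw [h2, y1, zero_mul]
        · rw [pderiv_fc, map_zero, mul_zero]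
          rw [pderiv_map, pderiv_eqs E a' Φ h η (vx_inl i) o h2 (fun i' h3 h4 => ho ?_), map_zero]
          rw [h3, Sum.inl_injective h4]
      · simp
    have e0 : map j (eqs E a' Φ h η none) = rename (vx ζ I) (map j (sy h Φ none)) :=
      map_rename _ _ _
    have e1 : ∀ s, map j (eqs E a' Φ h η (some (some (Sum.inr s)))) =
        rename (vx ζ I) (map j (sy h Φ (some s))) := by
      intro s
      show map j (rename (vx ζ I) (Φ (Sum.inr s)) - 0) = _
      rw [sub_zero]
      exact map_rename _ _ _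
    obtain ⟨t, ht⟩ := hD.nd (w ∘ vx ζ I) (x ∘ vx ζ I) (fun _ => hx _) hη
      (fun o => o.elim (y none) (fun s => y (some (some (Sum.inr s))))) (fun h0 => hy0 (by
        funext o
        rcases o with _ | _ | i | s
        exacts [congrFun h0 none, y1, y2 i, congrFun h0 (some s)])) (by
        rintro (_ | s) h1
        · have h2 := (hy _ h1).2
          simp only [e0, fc_rename vx_inj, eval_rename] at h2
          exact ⟨trivial, h2⟩
        · have h2 := (hy _ h1).2
          simp only [e1, fc_rename vx_inj, eval_rename] at h2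
          exact ⟨trivial, h2⟩)
    refine ht ?_
    have h1 := hc (vx ζ I t)
    simp only [Fintype.sum_option, Fintype.sum_sum_type, y1, y2, zero_mul, sum_const_zero,
      zero_add, e0, e1, fc_rename vx_inj, pderiv_rename vx_inj, eval_rename] at h1
    simpa only [Fintype.sum_option, Option.elim] using h1

end Pool.Agent.MP_5d9b3c_ag.H48L
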