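import Pool.Agent.MP_5d9b3c_ag.H48L.Spec2

/-!
A generic translation preserves nondegeneracy.
-/

namespace Pool.Agent.MP_5d9b3c_ag.H48L

open Finset MvPolynomial Pool.Agent.MP_5d9b3c_ag.H22 Pool.Agent.MP_5d9b3c_ag.H48N

namespace GenAux

variable {ζ : Type}

/-- `B` is the part of weight `n` of `A`, and `A` has no terms of lower weight. -/
def Low (w : ζ → ℕ) (n : ℕ) (A B : MvPolynomial ζ ℂ) : Prop :=
  (∀ α ∈ A.support, n ≤ Finsupp.weight w α) ∧ wc w n A = B

variable {w : ζ → ℕ} {n n' : ℕ} {A B A' B' : MvPolynomial ζ ℂ}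

lemma Low.mul (h : Low w n A B) (h' : Low w n' A' B') : Low w (n + n') (A * A') (B * B') := by
  classical
  obtain ⟨h0, rfl⟩ := h
  obtain ⟨h0', rfl⟩ := h'
  refine ⟨fun α hα => ?_, ?_⟩
  · obtain ⟨β, hβ, γ, hγ, rfl⟩ := mem_add.1 (support_mul A A' hα)
    rw [map_add]
    exact add_le_add (h0 β hβ) (h0' γ hγ)
  ext α
  rw [coeff_wc, coeff_mul, coeff_mul]
  simp only [coeff_wc]
  split_ifs with h
  · refine sum_congr rfl (fun x hx => ?_)
    have h1 := congrArg (Finsupp.weight w) (mem_antidiagonal.1 hx)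
    rw [map_add, h] at h1
    by_cases h2 : x.1 ∈ A.support
    · by_cases h3 : x.2 ∈ A'.support
      · have := h0 _ h2
        have := h0' _ h3
        rw [if_pos (by omega), if_pos (by omega)]
      · simp [notMem_support_iff.1 h3]
    · simp [notMem_support_iff.1 h2]
  · refine (sum_eq_zero (fun x hx => ?_)).symm
    have h1 := congrArg (Finsupp.weight w) (mem_antidiagonal.1 hx)
    rw [map_add] at h1
    split_ifs with h2 h3
    · omega
    all_goals simp

lemma low_C (a : ℂ) : Low w 0 (C a) (C a) := ⟨fun _ _ => Nat.zero_le _, wc_zero_C a⟩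

lemma Low.pow (h : Low w n A B) (k : ℕ) : Low w (n * k) (A ^ k) (B ^ k) := by
  induction k with
  | zero => simpa using low_C (w := w) 1
  | succ k ih => simpa only [pow_succ, Nat.mul_succ] using ih.mul h

lemma Low.prod {α : Type} (s : Finset α) {m : α → ℕ} {F G : α → MvPolynomial ζ ℂ}
    (h : ∀ a, Low w (m a) (F a) (G a)) :
    Low w (∑ a ∈ s, m a) (∏ a ∈ s, F a) (∏ a ∈ s, G a) := by
  classical
  induction s using Finset.induction_on with
  | empty => simpa using low_C (w := w) 1
  | insert a s ha ih => simpa only [sum_insert ha, prod_insert ha] using (h a).mul ih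

open Classical in
/-- the weight on the coordinates where the centre vanishes -/
noncomputable def w0 (c : ζ → ℂ) (w : ζ → ℕ) : ζ → ℕ := fun i => if c i = 0 then w i else 0

open Classical in
/-- the substitution on face polynomials -/
noncomputable def sgm (c : ζ → ℂ) (r : ℂ) (w : ζ → ℕ) :
    MvPolynomial ζ ℂ →ₐ[ℂ] MvPolynomial ζ ℂ :=
  aeval fun i => if c i ≠ 0 ∧ w i ≠ 0 then C (c i) else C (c i) + C r * X i

variable {c : ζ → ℂ} {r : ℂ}

lemma low_X (i : ζ) : Low w (w0 c w i) (aff c r (X i)) (sgm c r w (X i)) := by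
  rw [aff, sgm, aeval_X, aeval_X, w0]
  by_cases h : c i = 0
  · have e : (C (c i) + C r * X i : MvPolynomial ζ ℂ) = monomial (Finsupp.single i 1) r := by
      rw [h, C_0, zero_add, C_mul_X_eq_monomial]
    rw [if_pos h, if_neg (fun h' => h'.1 h), e]
    refine ⟨fun α hα => ?_, ?_⟩
    · classical
      rw [mem_singleton.1 (support_monomial_subset hα), Finsupp.weight_single]
      simp
    · rw [wc_monomial, if_pos (by simp [Finsupp.weight_single])]
  · rw [if_neg h]
    refine ⟨fun _ _ => Nat.zero_le _, ?_⟩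
    rw [map_add, wc_zero_mul, wc_zero_C, wc_zero_C, wc_zero_X]
    by_cases h' : w i = 0 <;> simp [h, h']

variable [Fintype ζ]

lemma low_monomial (α : ζ →₀ ℕ) (a : ℂ) :
    Low w (Finsupp.weight (w0 c w) α) (aff c r (monomial α a)) (sgm c r w (monomial α a)) := by
  have h := (low_C a).mul (Low.prod univ fun i => (low_X (w := w) (c := c) (r := r) i).pow (α i))
  rw [weight_eq, monomial_eq, Finsupp.prod_fintype _ _ (by simp)]
  simpa only [zero_add, map_mul, map_prod, map_pow, algHom_C, algebraMap_eq] using h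

lemma low_aff {q : MvPolynomial ζ ℂ} {μ : ℕ}
    (h : ∀ α ∈ q.support, μ ≤ Finsupp.weight (w0 c w) α) :
    Low w μ (aff c r q) (sgm c r w (wc (w0 c w) μ q)) := by
  classical
  rw [q.as_sum]
  simp only [map_sum]
  refine ⟨fun β hβ => ?_, ?_⟩
  · obtain ⟨α, hα, h1⟩ := mem_biUnion.1 (support_sum hβ)
    exact (h α hα).trans ((low_monomial α _).1 β h1)
  · rw [map_sum]
    refine sum_congr rfl fun α hα => ?_
    rw [wc_monomial]
    split_ifs with h1
    · rw [← h1]
      exact (low_monomial α _).2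
    · rw [map_zero]
      ext β
      rw [coeff_wc, coeff_zero]
      split_ifs with h2
      · by_contra h3
        have h4 := (low_monomial (w := w) (c := c) (r := r) α _).1 β (mem_support_iff.2 h3)
        have h5 := h α hα
        omega
      · rfl

omit [Fintype ζ] in
lemma pderiv_sg {t : ζ} (ht : ¬ (c t ≠ 0 ∧ w t ≠ 0)) (P : MvPolynomial ζ ℂ) :
    pderiv t (sgm c r w P) = C r * sgm c r w (pderiv t P) := by
  classical
  induction P using MvPolynomial.induction_on with
  | C a => simp [sgm]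
  | add p q hp hq => simp only [map_add, hp, hq, mul_add]
  | mul_X p i hp =>
    have e : pderiv t (sgm c r w (X i)) = C r * sgm c r w (pderiv t (X i)) := by
      by_cases h : i = t
      · subst h
        rw [sgm, aeval_X, if_neg ht]
        simp
      · rw [sgm, aeval_X, pderiv_X_of_ne h]
        split_ifs <;> simp [pderiv_X_of_ne h]
    simp only [map_mul, Derivation.leibniz, smul_eq_mul, map_add, hp, e]
    ring

omit [Fintype ζ] in
lemma eval_sg (x : ζ → ℂ) (P : MvPolynomial ζ ℂ) :
    eval x (sgm c r w P) = eval (fun i => eval x (sgm c r w (X i))) P := by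
  induction P using MvPolynomial.induction_on with
  | C a => simp [sgm]
  | add p q hp hq => simp only [map_add, hp, hq]
  | mul_X p i hp => simp only [map_mul, hp, eval_X]

variable {K : Subfield ℂ}

lemma der_eval (D : Derivation K ℂ ℂ) (x : ζ → ℂ) {P : MvPolynomial ζ ℂ}
    (h : ∀ α, coeff α P ∈ K) : D (eval x P) = ∑ s, eval x (pderiv s P) * D (x s) := by
  obtain ⟨Q, rfl⟩ : P ∈ Set.range (MvPolynomial.map (algebraMap K ℂ)) :=
    mem_range_map_iff_coeffs_subset.2 fun a ha => by
      obtain ⟨α, -, rfl⟩ := mem_coeffs_iff.1 ha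
      exact ⟨⟨_, h α⟩, rfl⟩
  clear h
  change _ = pd x (fun s => D (x s)) _
  induction Q using MvPolynomial.induction_on with
  | C a => rw [map_C, eval_C, pd_C, D.map_algebraMap]
  | add p q hp hq => rw [map_add, map_add, map_add, pd_add, hp, hq]
  | mul_X p i hp =>
    rw [map_mul, map_X, pd_mul, pd_X, map_mul, D.leibniz, hp, smul_eq_mul, smul_eq_mul, eval_X]

lemma eq_zero [DecidableEq ζ]
    (hD : ∀ i, c i ≠ 0 → ∃ D : Derivation K ℂ ℂ, ∀ i', D (c i') = if i' = i then 1 else 0)
    (n : ℕ) : ∀ P : MvPolynomial ζ ℂ, (∀ α ∈ P.support, α.degree < n) → (∀ α, coeff α P ∈ K) →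
    (∀ z : ζ → ℕ, eval (fun i => if c i = 0 then (z i : ℂ) else c i) P = 0) → P = 0 := by
  induction n with
  | zero =>
    intro P h _ _
    exact support_eq_empty.1 (eq_empty_of_forall_notMem fun α hα => Nat.not_lt_zero _ (h α hα))
  | succ n ih =>
    intro P h1 h2 h3
    have h4 : ∀ i, c i ≠ 0 → pderiv i P = 0 := by
      intro i hi
      obtain ⟨D, hD⟩ := hD i hi
      refine ih _ (fun α hα => ?_) (fun α => ?_) (fun z => ?_)
      · rw [mem_support_iff, coeff_pderiv] at hα
        have := h1 _ (mem_support_iff.2 (left_ne_zero_of_mul hα))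
        rw [map_add, Finsupp.degree_single] at this
        omega
      · rw [coeff_pderiv]
        exact mul_mem (h2 _) (add_mem (natCast_mem K _) (one_mem K))
      · have h5 := der_eval D (fun i => if c i = 0 then (z i : ℂ) else c i) h2
        rw [h3 z, map_zero, sum_eq_single i] at h5
        · simpa [hi, hD] using h5.symm
        · intro s _ hs
          by_cases h6 : c s = 0 <;> simp [h6, hD, hs]
        · simp
    refine funext_set (fun _ => Set.range (Nat.cast : ℕ → ℂ))
      (fun _ => Set.infinite_range_of_injective Nat.cast_injective) fun x hx => ?_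
    choose z hz using fun i => hx i (Set.mem_univ i)
    rw [map_zero, ← h3 z]
    refine eval₂Hom_congr' rfl (fun i hi _ => ?_) rfl
    by_cases h5 : c i = 0
    · rw [if_pos h5, hz]
    · obtain ⟨β, hβ, h6⟩ := (mem_vars_iff_mem_support i).1 hi
      have h7 := congrArg (coeff (β - Finsupp.single i 1)) (h4 i h5)
      rw [coeff_pderiv, coeff_zero, tsub_add_cancel_of_le
        (Finsupp.single_le_iff.2 (Nat.pos_of_ne_zero (Finsupp.mem_support_iff.1 h6)))] at h7
      exact absurd h7 (mul_ne_zero (mem_support_iff.1 hβ) (Nat.cast_add_one_ne_zero _))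

lemma fc_aff [DecidableEq ζ] (hr : r ≠ 0)
    (hD : ∀ i, c i ≠ 0 → ∃ D : Derivation K ℂ ℂ, ∀ i', D (c i') = if i' = i then 1 else 0)
    {q : MvPolynomial ζ ℂ} (hq : q ≠ 0) (h : ∀ α, coeff α q ∈ K) :
    fc w (aff c r q) = sgm c r w (fc (w0 c w) q) := by
  obtain ⟨μ, h1, ⟨β, h2, h3⟩, h4⟩ := exists_fc (w0 c w) hq
  obtain ⟨h5, h6⟩ := low_aff (r := r) h1
  rw [h4, ← h6]
  refine fc_eq h5 fun h7 => ?_
  rw [h6] at h7
  have h8 := eq_zero hD ((wc (w0 c w) μ q).totalDegree + 1) (wc (w0 c w) μ q)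
    (fun α hα => Nat.lt_succ_of_le (le_totalDegree hα)) (fun α => by
      rw [coeff_wc]
      split_ifs
      exacts [h α, zero_mem K]) fun z => by
    have h9 := eval_sg (c := c) (r := r) (w := w)
      (fun i => if c i = 0 then r⁻¹ * (z i : ℂ) else 0) (wc (w0 c w) μ q)
    rw [h7, map_zero] at h9
    refine Eq.trans (congrArg (fun v => eval v (wc (w0 c w) μ q)) (funext fun i => ?_)) h9.symm
    rw [sgm, aeval_X]
    by_cases a1 : c i = 0
    · simp [a1, hr]
    · by_cases a2 : w i = 0 <;> simp [a1, a2]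
  have h9 := congrArg (coeff β) h8
  rw [coeff_wc, if_pos h3] at h9
  exact mem_support_iff.1 h2 h9

end GenAux

open GenAux in
theorem generic : GenStmt := by
  intro ζ I _ _ _ K e η c r hr hK hD hL w x hx hc hη y hy h0
  have e1 : ∀ i, c i ≠ 0 → eval x (sgm c r w (X i)) = c i + r * cut w x i := fun i hi => by
    rw [sgm, aeval_X, cut]
    by_cases a : w i = 0 <;> simp [hi, a]
  have e2 : ∀ i, c i = 0 → eval x (sgm c r w (X i)) = r * x i := fun i hi => by
    rw [sgm, aeval_X]
    simp [hi]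
  set xt : ζ → ℂ := fun i => eval x (sgm c r w (X i)) with hxt
  have hN := hL (w0 c w) xt (fun i => by
    by_cases a : c i = 0
    · exact (e2 i a).trans_ne (mul_ne_zero hr (hx i))
    · exact (e1 i a).trans_ne (hc i a)) (by
    convert hη using 3
    funext i
    by_cases a : c i = 0
    · by_cases b : w i = 0 <;> simp [cut, w0, a, b, hxt, e2 i a]
    · rw [← e1 i a]
      simp [cut, w0, a, hxt])
  have hf : ∀ o, fc w (aff c r (e o)) = sgm c r w (fc (w0 c w) (e o)) := fun o =>
    fc_aff hr hD (hN.ne o) (hK o)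
  simp only [hf] at h0 ⊢
  obtain ⟨t, ht⟩ := hN y hy fun o ho => ⟨trivial, by rw [← eval_sg]; exact (h0 o ho).2⟩
  by_contra hcon
  push Not at hcon
  have h1 : ∀ s, ¬ (c s ≠ 0 ∧ w s ≠ 0) →
      ∑ o, y o * eval xt (pderiv s (fc (w0 c w) (e o))) = 0 := fun s hs => by
    have h2 := hcon s
    simp only [pderiv_sg hs, map_mul, eval_C, eval_sg x (pderiv _ _), mul_left_comm _ r,
      ← mul_sum] at h2
    exact (mul_eq_zero.1 h2).resolve_left hr
  by_cases h2 : c t ≠ 0 ∧ w t ≠ 0
  swap
  · exact ht (h1 t h2)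
  obtain ⟨D, hD'⟩ := hD t h2.1
  have h3 : ∑ o, y o * ∑ s, eval xt (pderiv s (fc (w0 c w) (e o))) * D (xt s) = 0 := by
    refine sum_eq_zero fun o _ => ?_
    by_cases a : y o = 0
    · rw [a, zero_mul]
    · rw [← der_eval D xt (fun α => by
        rw [coeff_fc]
        split_ifs
        exacts [hK o α, zero_mem K]), ← eval_sg, (h0 o a).2, map_zero, mul_zero]
  have h4 : ∀ s, c s ≠ 0 ∧ w s ≠ 0 → xt s = c s := fun s hs => by
    rw [hxt]
    simp [e1 s hs.1, cut, hs.2]
  simp only [mul_sum, ← mul_assoc] at h3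
  rw [sum_comm, sum_eq_single t] at h3
  · rw [← sum_mul, h4 t h2, hD', if_pos rfl, mul_one] at h3
    exact ht h3
  · intro s _ hs
    rw [← sum_mul]
    by_cases a : c s ≠ 0 ∧ w s ≠ 0
    · rw [h4 s a, hD', if_neg hs, mul_zero]
    · rw [h1 s a, zero_mul]
  · simp

end Pool.Agent.MP_5d9b3c_ag.H48L
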