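import Pool.Agent.MP_5d9b3c_ag.H48L.Basic
import Pool.Agent.MP_5d9b3c_ag.H48F.Final

/-!
The global theorem for coefficients in `ℤ_[p]`.
-/

namespace Pool.Agent.MP_5d9b3c_ag.H48L

open Finset MvPolynomial Pool.Agent.MP_5d9b3c_ag.H22 Pool.Agent.MP_5d9b3c_ag.H48N
  Pool.Agent.MP_5d9b3c_ag.H10N

namespace GlobPAux

lemma phaseM {κ ι : Type} [Fintype κ] [DecidableEq κ] [Fintype ι] [DecidableEq ι] {p : ℕ}
    [hp : Fact p.Prime] {A : κ → ι → ℕ} {c : κ → ℤ} {M : ℕ}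
    (hM : ∀ (L : ι → ℕ) (μ : ℕ) (k : κ → ℕ), (∀ j, ∑ i, L i * A j i = μ + k j) →
      (∃ j, k j = 0) → ∀ x : ι → ℤ, (∀ i, ¬ (p : ℤ) ∣ x i) →
      ∃ i, ¬ (p : ℤ) ^ M ∣ ∑ j, A j i * ((p : ℤ) ^ k j * mon A c j x))
    (θ : ℤ) (L : ι → ℕ) (j0 : κ) (hj0 : ((2 * M + 2 : ℕ) : ℤ) < θ - ∑ i, (L i : ℤ) * A j0 i) :
    EE p A c (fun _ => chi p) univ univ (fun j => θ - ∑ i, (L i : ℤ) * A j i) = 0 := by
  obtain ⟨j1, _, hj1⟩ := exists_min_image univ (fun j => ∑ i, L i * A j i) ⟨j0, mem_univ _⟩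
  obtain ⟨μ, hμ⟩ : ∃ μ, μ = ∑ i, L i * A j1 i := ⟨_, rfl⟩
  obtain ⟨k, hk⟩ : ∃ k : κ → ℕ, ∀ j, ∑ i, L i * A j i = μ + k j :=
    ⟨fun j => ∑ i, L i * A j i - μ, fun j => by
      have := hj1 j (mem_univ _)
      simp only
      omega⟩
  have hk' : ∀ j, θ - ∑ i, (L i : ℤ) * A j i = θ - μ - k j := fun j => by
    have : ∑ i, (L i : ℤ) * A j i = μ + k j := by exact_mod_cast hk j
    rw [this]
    ring
  obtain ⟨t, ht⟩ : ∃ t : ℕ, θ - μ = t := ⟨(θ - μ).toNat, by have := hk' j0; omega⟩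
  obtain ⟨s, hs1, hs2, hs3⟩ : ∃ s : ℕ, t ≤ 2 * s ∧ M + s ≤ t ∧ 1 ≤ s :=
    ⟨(t + 1) / 2, by omega, by have := hk' j0; omega, by have := hk' j0; omega⟩
  have hpr := Nat.prime_iff_prime_int.1 hp.out
  have hu : ∀ w : ℕ, ¬ (p : ℤ) ∣ 1 + (p : ℤ) ^ s * w := by
    intro w h
    have h1 : (p : ℤ) ∣ (p : ℤ) ^ s * w := (dvd_pow_self _ (by omega)).mul_right _
    exact hpr.not_dvd_one ((dvd_add_left h1).1 h)
  have hint : ∀ x, integrand p A c (fun _ => chi p) univ univ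
      (fun j => θ - ∑ i, (L i : ℤ) * A j i) x =
      ind p univ x * chi p t (∑ j, (p : ℤ) ^ k j * mon A c j x) := fun x => by
    simp only [integrand, chi_sum, ker_chi.shift_pow, hk', ht]
  refine mean_eq_zero_of_sum' (isPer_integrand (fun _ => ker_chi) _ _ _)
    (Fintype.piFinset (fun _ : ι => range (p ^ t)))
    ⟨0, by simpa using fun _ => pow_pos hp.out.pos _⟩
    (fun w i => 1 + (p : ℤ) ^ s * w i) (fun w _ i => hu _) (fun x => ?_)
  simp only [hint, ind_scale _ (fun i => hu _)]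
  rw [← mul_sum]
  by_cases hx : ∀ i, ¬ (p : ℤ) ∣ x i
  · obtain ⟨i, hi⟩ := hM L μ k hk ⟨j1, by have := hk j1; omega⟩ x hx
    obtain ⟨g, hg⟩ : ∃ g : ι → ℤ, ∀ i, g i = ∑ j, A j i * ((p : ℤ) ^ k j * mon A c j x) :=
      ⟨_, fun _ => rfl⟩
    have e1 : ∀ w : ι → ℕ,
        chi p t (∑ j, (p : ℤ) ^ k j * mon A c j (fun i => (1 + (p : ℤ) ^ s * w i) * x i)) =
        chi p t (∑ j, (p : ℤ) ^ k j * mon A c j x) * ∏ i, chi p t (w i * ((p : ℤ) ^ s * g i)) := by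
      intro w
      rw [← chi_sum, ← chi_add]
      refine chi_congr (k := 2 * s) (by exact_mod_cast hs1) ?_
      choose r hr using fun j => prod_one_add_modEq univ ((p : ℤ) ^ s) (fun i => (w i : ℤ)) (A j)
      refine (Int.modEq_iff_dvd.2 ⟨-∑ j, r j * ((p : ℤ) ^ k j * mon A c j x), ?_⟩)
      simp only [mon_scale, hr, hg, mul_sum, mul_neg]
      rw [sum_comm, ← sum_add_distrib, ← sum_sub_distrib, ← sum_neg_distrib]
      refine sum_congr rfl (fun j _ => ?_)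
      rw [sum_congr rfl (g := fun i => (p : ℤ) ^ s * (w i * A j i) * ((p : ℤ) ^ k j * mon A c j x))
        (fun i _ => by ring), ← sum_mul]
      push_cast
      ring
    have hD : Ker p (DD p) := ⟨DD_p_mul, fun _ _ _ _ hz h => DD_congr hz h,
      fun z a => (norm_DD z a).trans (by norm_num)⟩
    simp only [e1]
    rw [← mul_sum, ← prod_univ_sum (fun _ => range (p ^ t))
      (fun i (w : ℕ) => chi p t (w * ((p : ℤ) ^ s * g i))), prod_eq_zero (mem_univ i), mul_zero,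
      mul_zero]
    rw [geom le_rfl, hD.shift_pow, DD, if_neg, mul_zero]
    exact fun h => hi (hg i ▸ (pow_dvd_pow _ (by omega)).trans h)
  · rw [ind_univ_eq_zero hx, zero_mul]

variable {ι κ : Type} [Fintype ι] [LinearOrder ι] [Fintype κ] [DecidableEq κ] {p : ℕ}
  [hp : Fact p.Prime] {a : κ → ι →₀ ℕ}

omit [DecidableEq κ] in
lemma EB_congr {c c' : κ → ℤ} {M : ℕ} (h : ∀ b, (p : ℤ) ^ M ∣ c' b - c b) (B : Finset ι)
    {z : Lat κ} (hz : ∀ b, z b ≤ M) : EB p a c B z = EB p a c' B z := by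
  unfold EB EE
  congr 1
  funext x
  unfold integrand
  congr 1
  refine prod_congr rfl (fun b _ => chi_congr (hz b) ?_)
  refine Int.ModEq.mul_right _ (Int.modEq_iff_dvd.2 ?_)
  exact_mod_cast h b

omit [DecidableEq κ] in
lemma EB_ray (c : κ → ℤ) {n : ℕ} (hn : 1 ≤ n) : EB p a c univ (zz a n 0) =
    dif p (den p ι (fun _ x => aeval x (∑ j, monomial (a j) (c j) : MvPolynomial ι ℤ) = 0)) n := by
  have e1 : (univ \ (univ : Finset ι).map Function.Embedding.some : Finset (Option ι)) =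
      insert none ∅ := by
    ext o
    cases o <;> simp
  have e2 : zz a n 0 = n • z0 κ := by
    ext j
    simp [zz, z0]
  have e3 : n • z0 κ - yv (Aof a) none = (n - 1) • z0 κ := by
    ext j
    simp [z0, yv, Aof, Nat.cast_sub hn]
  rw [dif, if_pos hn, EB, e1, ← EE_rec (fun _ => ker_chi) _ (notMem_empty _), act_uu, e2, e3,
    EE_ray, EE_ray, mean_DD, mean_DD]
  rfl

omit [Fintype ι] [LinearOrder ι] [DecidableEq κ] in
lemma ev_appr {c : κ → ℤ_[p]} {c' : κ → ℤ} {k : ℕ}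
    (h : ∀ b, (p : ℤ_[p]) ^ k ∣ (c' b : ℤ_[p]) - c b) (x : ι → ZMod (p ^ k)) :
    aeval x (∑ j, monomial (a j) (c' j) : MvPolynomial ι ℤ) =
      ev k x (∑ j, monomial (a j) (c j)) := by
  rw [← evh_map, ev_eq, map_sum, map_sum, map_sum]
  refine sum_congr rfl (fun b _ => ?_)
  have h1 := toZModPow_eq_zero.2 (h b)
  rw [map_sub, sub_eq_zero] at h1
  rw [map_monomial, evh, eval₂Hom_monomial, eval₂Hom_monomial, ← h1]
  rfl

lemma phaseP (hA : UnifAStmt) {j : ℤ_[p] →+* ℂ} (hj : Function.Injective j) {c : κ → ℤ_[p]}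
    (ha : Function.Injective a) (hc : ∀ b, j (c b) ≠ 0)
    (H1 : ∀ w : ι → ℕ, Nond (fac (fun i => w i) (∑ b, monomial (a b) (j (c b))))) :
    ∃ M : ℕ, ∀ c' : κ → ℤ, (∀ b, (p : ℤ_[p]) ^ M ∣ (c' b : ℤ_[p]) - c b) →
      ∀ θ L b, (M : ℤ) < zz a θ L b → EB p a c' ∅ (zz a θ L) = 0 := by
  have hcast : ∀ (w : Option ι → ℕ) b, ((∑ i, w i * Aof a b i : ℕ) : ℤ) =
      w none + wgt (fun i => w (some i)) (a b) := fun w b => by
    rw [← sum_Aof (fun i => w i)]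
    push_cast
    rfl
  have hnd : ∀ w J, J.Nonempty → IsFace (Aof a) w J → ND (Aof a) (fun b => j (c b)) J := by
    rintro w J hJ ⟨N, h1, h2⟩
    have := H1 (fun i => w (some i))
    rw [fac_poly ha hc _ (J' := J) (N := N - w none) (fun b _ => by
      have := hcast w b
      have := h1 b
      omega) (fun b => by
      have := hcast w b
      rw [h2]
      simp only [mem_univ, true_and]
      omega) hJ] at this
    exact this.nd
  obtain ⟨M, hM⟩ := hA (Option ι) κ p j hj (Aof a) c hnd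
  refine ⟨2 * M + 2, fun c' hc' θ L b hb => ?_⟩
  have e : ∀ b, ∑ o, (((fun o : Option ι => o.elim 0 L) o : ℕ) : ℤ) * Aof a b o =
      ∑ i, (L i : ℤ) * a b i := fun b => by
    simp [Fintype.sum_option, Aof]
  have h1 := phaseM (hM c' (fun b => (pow_dvd_pow _ (by omega)).trans (hc' b))) θ
    (fun o => o.elim 0 L) b (by rw [e]; exact hb)
  simp only [e] at h1
  rw [EB, map_empty, sdiff_empty]
  exact h1

lemma colP (hB : UnifBStmt) {j : ℤ_[p] →+* ℂ} (hj : Function.Injective j) (a : κ → ι →₀ ℕ)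
    (c : κ → ℤ_[p]) :
    ∃ M : ℕ, ∀ c' : κ → ℤ, (∀ b, (p : ℤ_[p]) ^ M ∣ (c' b : ℤ_[p]) - c b) →
      ∀ (T : Finset κ) (F B : Finset ι), TND a (fun b => j (c b)) T F → B ⊆ F → Lin a T B →
      ¬ Solv a (fun b => j (c b)) T B → ∀ (θ : ℕ) (L : ι → ℕ), (∀ b ∉ T, zz a θ L b ≤ 0) →
      (∀ i ∈ B, ∃ b ∈ T, a b i ≠ 0 ∧ (M : ℤ) ≤ zz a θ L b) → EB p a c' B (zz a θ L) = 0 := by
  have hex : ∀ t : Finset κ × Finset ι × Finset ι, ∃ M : ℕ,
      TND a (fun b => j (c b)) t.1 t.2.1 → t.2.2 ⊆ t.2.1 → Lin a t.1 t.2.2 → Occ a t.1 t.2.2 →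
      ¬ Solv a (fun b => j (c b)) t.1 t.2.2 →
      ∀ c' : κ → ℤ, (∀ b, (p : ℤ_[p]) ^ M ∣ (c' b : ℤ_[p]) - c b) → ∀ (L m : ι → ℕ) (k : κ → ℕ),
      (∀ i ∈ t.2.2, ∀ b ∈ t.1, a b i ≠ 0 → ∑ i', L i' * a b i' = m i + k b) →
      (∀ i ∈ t.2.2, ∃ b ∈ t.1, a b i ≠ 0 ∧ k b = 0) → ∀ x : ι → ℤ, (∀ i, ¬ (p : ℤ) ∣ x i) →
      ∃ i ∈ t.2.2, ¬ (p : ℤ) ^ M ∣
        ∑ b ∈ t.1, a b i * ((p : ℤ) ^ k b * (c' b * ∏ i', x i' ^ a b i')) := by
    rintro ⟨T, F, B⟩
    by_cases hh : TND a (fun b => j (c b)) T F ∧ B ⊆ F ∧ Lin a T B ∧ Occ a T B ∧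
        ¬ Solv a (fun b => j (c b)) T B
    · obtain ⟨M, hM⟩ := hB ι κ p j hj a c T F B hh.1 hh.2.1 hh.2.2.1 hh.2.2.2.1 hh.2.2.2.2
      exact ⟨M, fun _ _ _ _ _ => hM⟩
    · exact ⟨0, fun h1 h2 h3 h4 h5 => absurd ⟨h1, h2, h3, h4, h5⟩ hh⟩
  choose M hM using hex
  refine ⟨∑ t, M t, fun c' hc' T F B h1 h2 h3 h4 θ L h5 h6 => ?_⟩
  have hle : M (T, F, B) ≤ ∑ t, M t :=
    single_le_sum (f := M) (fun _ _ => Nat.zero_le _) (mem_univ _)
  have hocc : Occ a T B := fun i hi => by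
    obtain ⟨b, hb, h0, _⟩ := h6 i hi
    exact ⟨b, hb, h0⟩
  refine ColAux.core h3 (hM (T, F, B) h1 h2 h3 hocc h4 c'
    (fun b => (pow_dvd_pow _ hle).trans (hc' b))) θ L h5 (fun i hi => ?_)
  obtain ⟨b, hb, h0, h7⟩ := h6 i hi
  exact ⟨b, hb, h0, le_trans (by exact_mod_cast hle) h7⟩

end GlobPAux

open GridAux in
theorem grid3 : GridStmt3 := by
  classical
  intro ι κ _ _ _ _ p _ a c cc l hN hM hM' hB
  obtain ⟨M1, hM1⟩ := hM
  obtain ⟨ν, ρ, V, σ, hs⟩ := sel2 stab clos lift ι κ a cc l hN hB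
  obtain ⟨M2, hM2⟩ := hM'
  have hν := hs.nupos
  obtain ⟨C, hC1, hC⟩ : ∃ C : ℚ, 1 ≤ C ∧ ∀ j, ∑ i, (a j i : ℚ) ≤ C := by
    have h0 : ∀ j, (0 : ℚ) ≤ ∑ i, (a j i : ℚ) := fun j => sum_nonneg (fun _ _ => Nat.cast_nonneg _)
    refine ⟨1 + ∑ j, ∑ i, (a j i : ℚ), le_add_of_nonneg_right (sum_nonneg (fun j _ => h0 j)),
      fun j => ?_⟩
    have := single_le_sum (f := fun j => ∑ i, (a j i : ℚ)) (fun j _ => h0 j) (mem_univ j)
    linarith
  obtain ⟨r, hr, hr1⟩ : ∃ r : ℚ, 0 < r ∧ 3 * C * C * r = ν :=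
    ⟨ν / (3 * C * C), by positivity, by field_simp⟩
  have hCr : 0 < C * r := by positivity
  have hCr1 : C * r ≤ C * C * r := by nlinarith
  obtain ⟨h, hh, hU⟩ := cols ι κ a cc l ν ρ V σ hs r hr
  obtain ⟨J, hJ⟩ : ∃ J : ℕ, l < J * h := by
    have h0 : (0 : ℝ) < h := by exact_mod_cast hh
    obtain ⟨J, hJ⟩ := exists_nat_gt (l / h)
    exact ⟨J, (div_lt_iff₀ h0).1 hJ⟩
  obtain ⟨o, ho, hg⟩ := geo gen ι κ a l h J hh
  obtain ⟨U, hU⟩ := hU o J ho hJ
  obtain ⟨N, hN1⟩ := exists_nat_gt ((M1 + M2 + 2 : ℚ) / (C * r))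
  rw [div_lt_iff₀ hCr] at hN1
  set g : (ι → Fin (J + 2)) → ℕ → ℂ := fun idx θ => ∑' L : ι → ℕ, if InCell h o idx θ L then
      ((p : ℂ)⁻¹) ^ (∑ k, L k) * EB p a c ∅ (zz a θ L) else 0 with hgdef
  have key : Good p l (fun θ => ∑ idx : ι → Fin (J + 2),
      (1 - ∑ B : Finset ι, if idx ∈ U B then (1 : ℂ) else 0) * g idx θ) := by
    refine Good.sum _ (fun idx _ => ?_)
    by_cases h1 : ∃ x, InP a l x ∧ InBox h o idx x
    · obtain ⟨B, h2, h3⟩ := hU.uniq idx h1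
      rw [sum_eq_single B (fun B' _ hne => if_neg (fun h4 => hne (h3 B' h4)))
        (fun h => absurd (mem_univ _) h), if_pos h2]
      simpa using Good.zero
    · exact (box rat ι κ p a c l h o J M1 hM1 hg idx h1).const_mul _
  refine key.eventually (N + 1) (fun θ hθ => ?_)
  obtain ⟨h1, h2⟩ := sumRow ι κ p a c θ
  have h3 : EB p a c univ (zz a θ 0) = ∑ idx, g idx θ := by
    have h4 := hasSum_cells hh o J θ h1.summable Set.univ
    have h5 : {L | ∃ idx ∈ (Set.univ : Set (ι → Fin (J + 2))), InCell h o idx θ L} =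
        Set.univ := by
      ext L
      simpa using exists_cell h o J θ L
    rw [h5, Set.indicator_univ] at h4
    rw [h1.unique h4]
    simp [hgdef]
  have h4 : ∀ B, ∑ idx, (if idx ∈ U B then g idx θ else 0) = 0 := by
    intro B
    refine (hasSum_cells hh o J θ h1.summable (U B)).unique (h2 B _ ?_ ?_)
    · rintro L L' hL ⟨idx, h5, h6⟩
      obtain ⟨idx', h7⟩ := exists_cell h o J θ L'
      exact ⟨idx', hU.inv B idx idx' (fun k hk => cell_eq hh h6 h7 (hL k hk)) h5, h7⟩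
    · rintro L ⟨idx, h5, h6⟩
      obtain ⟨x, hx, hBx, hl, hv, hw⟩ := hU.wit B idx h5
      have hθ0 : (0 : ℚ) < θ := by exact_mod_cast (by omega : 0 < θ)
      have hθ1 : (N : ℚ) ≤ θ := by exact_mod_cast (by omega : N ≤ θ)
      obtain ⟨L0, h7, h8, h9⟩ := column hs hC hr.le (ρ' := 2 * (C * r)) (by positivity)
        (by nlinarith) (by nlinarith) hx hBx hl θ L (fun k hk => by
          have h10 := hw _ (inBox_of_cell (by omega) h6) k hk
          have h11 : (L k : ℚ) - x k * θ = ((L k : ℚ) / θ - x k) * θ := by field_simp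
          rw [h11, abs_mul, abs_of_pos hθ0]
          exact mul_le_mul_of_nonneg_right h10 hθ0.le)
      have h10 : ∀ z : ℤ, θ * (2 * (C * r) - C * r) - 1 ≤ (z : ℚ) → (M1 : ℤ) + M2 < z := by
        intro z hz
        have h11 : (N : ℚ) * (C * r) ≤ θ * (C * r) := mul_le_mul_of_nonneg_right hθ1 hCr.le
        have h12 : (((M1 : ℤ) + M2 : ℤ) : ℚ) < z := by
          push_cast
          nlinarith
        exact_mod_cast h12
      refine ⟨L0, h7, hM2 _ (Fw (σ x)) B (hN _ (hs.inP x hx).1) hBx hl hv θ L0 h8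
        (fun i hi => ?_), fun L' hL' hne => ?_⟩
      · obtain ⟨j, hj, h0, h11⟩ := h9 i hi
        have := h10 _ (h11 L0 h7 le_rfl)
        exact ⟨j, hj, h0, by omega⟩
      · obtain ⟨i, hi⟩ := not_forall.1 hne
        have hiB : i ∈ B := by
          by_contra h11
          exact hi (by rw [h7 i h11, hL' i h11])
        obtain ⟨j, _, _, h11⟩ := h9 i hiB
        have := h10 _ (h11 L' hL' (not_le.1 hi).le)
        exact hM1 θ L' j (by omega)
  rw [h3]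
  simp only [sub_mul, one_mul, sum_sub_distrib, sum_mul, ite_mul, zero_mul]
  rw [sum_comm, sum_eq_zero (fun B _ => h4 B), sub_zero]

namespace GlobPAux

variable {ι κ : Type} [Fintype ι] [LinearOrder ι] [Fintype κ] [DecidableEq κ] {p : ℕ}
  [hp : Fact p.Prime] {a : κ → ι →₀ ℕ}

lemma main (hA : UnifAStmt) (hB : UnifBStmt) {j : ℤ_[p] →+* ℂ} (hj : Function.Injective j)
    {c : κ → ℤ_[p]} (ha : Function.Injective a) (hc : ∀ b, j (c b) ≠ 0)
    (H1 : ∀ w : ι → ℕ, Nond (fac (fun i => w i) (∑ b, monomial (a b) (j (c b)))))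
    {β : Polynomial ℂ} {l : ℝ} (hbe : H48N.BEq a (fun b => j (c b)) ((Polynomial.X + 1) * β))
    (hl : β.eval (-(l : ℂ)) ≠ 0) :
    Good p l (dif p (den p ι (fun k x => ev k x (∑ b, monomial (a b) (c b)) = 0))) := by
  have hndp := PsideAux.ndq ha hc H1
  obtain ⟨M1, hM1⟩ := phaseP hA hj ha hc H1
  obtain ⟨M2, hM2⟩ := colP hB hj a c
  choose ap hap using fun (k : ℕ) (b : κ) => exists_appr (c b) k
  have hap' : ∀ {k k' : ℕ}, k' ≤ k → ∀ b, (p : ℤ_[p]) ^ k' ∣ (ap k b : ℤ_[p]) - c b :=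
    fun h b => (pow_dvd_pow _ h).trans (hap _ b)
  have hgood := grid3 ι κ p a (ap (M1 + M2)) (fun b => j (c b)) l hndp
    ⟨M1, hM1 _ (hap' (by omega))⟩ ⟨M2, hM2 _ (hap' (by omega))⟩ (fun w hw => by
      obtain ⟨τ, μ, hcert⟩ := cert lp ι κ a _ _ hw.occ
      exact free lift (hall lift) ι κ a _ _ _ τ μ (hndp w hw.1) hw.occ hcert
        (H48F.dside_all2 ι κ a _ β l hndp hbe hl w hw τ μ hcert))
  refine hgood.eventually 1 (fun n hn => ?_)
  have h1 : ∀ L, EB p a (ap (M1 + M2)) ∅ (zz a n L) = EB p a (ap (n + M1)) ∅ (zz a n L) := by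
    intro L
    by_cases h : ∃ b, (M1 : ℤ) < zz a n L b
    · obtain ⟨b, hb⟩ := h
      rw [hM1 _ (hap' (by omega)) n L b hb, hM1 _ (hap' (by omega)) n L b hb]
    · push Not at h
      refine EB_congr (fun b => ?_) _ h
      rw [← PadicInt.pow_p_dvd_int_iff]
      have := dvd_sub (hap' (k := n + M1) (k' := M1) (by omega) b)
        (hap' (k := M1 + M2) (k' := M1) (by omega) b)
      rw [sub_sub_sub_cancel_right] at this
      exact_mod_cast this
  have h2 := (sumRow ι κ p a (ap (M1 + M2)) n).1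
  simp only [h1] at h2
  rw [h2.unique (sumRow ι κ p a (ap (n + M1)) n).1, EB_ray _ hn]
  simp only [dif, den, ev_appr (hap' (k := n + M1) (k' := n) (by omega)),
    ev_appr (hap' (k := n + M1) (k' := n - 1) (by omega))]

end GlobPAux

theorem globP (hA : UnifAStmt) (hB : UnifBStmt) : GlobPStmt := by
  classical
  intro τ _ p _ j hj F β l H1 hb hl
  let _ : LinearOrder τ := LinearOrder.lift' (Fintype.equivFin τ) (Fintype.equivFin τ).injective
  have e : F = ∑ b : F.support, monomial b.1 (coeff b.1 F) := by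
    conv_lhs => rw [F.as_sum]
    exact (sum_coe_sort F.support (fun b => monomial b (coeff b F))).symm
  have e' : map j F = ∑ b : F.support, monomial b.1 (j (coeff b.1 F)) := by
    conv_lhs => rw [e, map_sum]
    simp only [map_monomial]
  have h := GlobPAux.main (a := fun b : F.support => b.1) (c := fun b => coeff b.1 F) hA hB hj
    Subtype.val_injective (fun b => (map_ne_zero_iff j hj).2 (mem_support_iff.1 b.2))
    (fun w => by rw [← e']; exact H1 w) (β := β) (l := l) (by unfold H48N.BEq; rw [← e']; exact hb) hl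
  rwa [← e] at h

end Pool.Agent.MP_5d9b3c_ag.H48L
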