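import Pool.Agent.MP_5d9b3c_ag.H48L.Basic

/-!
Charts with an arbitrary centre, and stabilisation: definitions and statements.
-/

namespace Pool.Agent.MP_5d9b3c_ag.H48L

open Finset MvPolynomial Pool.Agent.MP_5d9b3c_ag.H22 Pool.Agent.MP_5d9b3c_ag.H48N

section Defs

variable {ζ I : Type}

/-- The substitution `X ↦ c + r X`. -/
noncomputable def aff {R : Type} [CommRing R] (c : ζ → R) (r : R) :
    MvPolynomial ζ R →ₐ[R] MvPolynomial ζ R := aeval (fun i => C (c i) + C r * X i)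

/-- The polynomial `f(x) + ∑ μ_j y_j`, with further free variables. -/
noncomputable def stab (ρ κ : Type) [Fintype ρ] (f : MvPolynomial ζ ℤ) :
    MvPolynomial (ζ ⊕ ρ ⊕ ρ ⊕ κ) ℤ :=
  rename Sum.inl f + ∑ j : ρ, X (Sum.inr (Sum.inl j)) * X (Sum.inr (Sum.inr (Sum.inl j)))

/-- A chart with centre `c`, without the nondegeneracy condition. -/
structure Pre [Fintype ζ] [DecidableEq ζ] [Fintype I] [DecidableEq I] {p : ℕ} [Fact p.Prime]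
    (f : MvPolynomial ζ ℤ) (a : ζ → ℤ_[p]) (c : ζ ⊕ I → ℚ_[p])
    (Φ : ζ ⊕ I → MvPolynomial (ζ ⊕ I) ℚ_[p]) (h u : MvPolynomial (ζ ⊕ I) ℚ_[p]) : Prop where
  c0 : ∀ i, eval c (Φ (Sum.inl i)) = a i
  c1 : ∀ s, eval c (Φ (Sum.inr s)) = 0
  det : (Matrix.of (fun s t => eval c (pderiv t (Φ s)))).det ≠ 0
  u0 : eval c u ≠ 0
  mem : h - u * aeval (fun i => Φ (Sum.inl i)) f ∈ Ideal.span (Set.range (fun s => Φ (Sum.inr s)))

/-- Nondegeneracy at the point `c`. -/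
def NDAt [Fintype ζ] [Fintype I] (c : ζ → ℂ) (e : I → MvPolynomial ζ ℂ) : Prop :=
  ∀ (w : ζ → ℕ) (x : ζ → ℂ), (∀ i, 0 < w i ↔ c i = 0) → (∀ i, x i ≠ 0) →
    (∀ i, c i ≠ 0 → x i = c i) → NRel Set.univ w x e

/-- An integral chart, without the nondegeneracy condition. -/
structure IData0 [Fintype ζ] [DecidableEq ζ] [Fintype I] [DecidableEq I] {p : ℕ} [Fact p.Prime]
    (j : ℤ_[p] →+* ℂ) (f : MvPolynomial ζ ℤ) (a : ζ → ℤ_[p])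
    (Φ : ζ ⊕ I → MvPolynomial (ζ ⊕ I) ℤ_[p]) (h u η : MvPolynomial (ζ ⊕ I) ℤ_[p]) : Prop where
  lin : ∃ (M : Matrix (ζ ⊕ I) (ζ ⊕ I) ℤ_[p]) (q : ζ ⊕ I → MvPolynomial (ζ ⊕ I) ℤ_[p]),
    M.det ≠ 0 ∧ ∀ s, Φ s = C (Sum.elim a 0 s) + ∑ t, C (M s t) * (X t + C (p : ℤ_[p]) * q t)
  mem : h - u * aeval (fun i => Φ (Sum.inl i)) f ∈ Ideal.span (Set.range (fun s => Φ (Sum.inr s)))
  u1 : ∃ q, u = 1 + C (p : ℤ_[p]) * q
  e1 : ∃ q, η = 1 + C (p : ℤ_[p]) * q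
  et : ∀ z : ζ ⊕ I → ℂ, eval z (map j η) ≠ 0 →
    eval z (map j u) ≠ 0 ∧ JInj (fun s => map j (Φ s)) z

end Defs

/-- Nondegeneracy at a point spreads to a Zariski neighbourhood. -/
def Loc2Stmt : Prop :=
  ∀ (ζ I K : Type) [Fintype ζ] [Fintype I] [Field K] (j : K →+* ℂ) (c : ζ → K)
    (e : I → MvPolynomial ζ K), NDAt (fun i => j (c i)) (fun o => map j (e o)) →
    ∃ η : MvPolynomial ζ K, eval c η ≠ 0 ∧ LocND Set.univ (fun o => map j (e o)) (map j η)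

/-- Integral charts centred at all points close to the centre. -/
def NormXStmt : Prop :=
  ∀ (ζ I : Type) [Fintype ζ] [DecidableEq ζ] [Fintype I] [DecidableEq I] (p : ℕ) [Fact p.Prime]
    (j : ℚ_[p] →+* ℂ) (f : MvPolynomial ζ ℤ) (a : ζ → ℤ_[p]) (c : ζ ⊕ I → ℚ_[p])
    (Φ : ζ ⊕ I → MvPolynomial (ζ ⊕ I) ℚ_[p]) (h u η : MvPolynomial (ζ ⊕ I) ℚ_[p]),
    Pre f a c Φ h u → eval c η ≠ 0 → ∃ e : ℕ, ∀ γ : ζ ⊕ I → ℤ_[p],
    ∃ (Φ' : ζ ⊕ I → MvPolynomial (ζ ⊕ I) ℤ_[p]) (h' u' η' : MvPolynomial (ζ ⊕ I) ℤ_[p])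
      (κ : Option I → ℚ_[p]), IData0 (j.comp PadicInt.Coe.ringHom) f a Φ' h' u' η' ∧
      (∀ o, κ o ≠ 0 ∧ map PadicInt.Coe.ringHom (sy h' Φ' o) =
        C (κ o) * aff (fun i => c i + (p : ℚ_[p]) ^ (e + 1) * γ i) ((p : ℚ_[p]) ^ e) (sy h Φ o)) ∧
      ∀ z : ζ ⊕ I → ℂ, eval z (map (j.comp PadicInt.Coe.ringHom) η') ≠ 0 →
        eval (fun i => j (c i + (p : ℚ_[p]) ^ (e + 1) * γ i) + (p : ℂ) ^ e * z i) (map j η) ≠ 0

/-- A generic translation preserves nondegeneracy. -/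
def GenStmt : Prop :=
  ∀ (ζ I : Type) [Fintype ζ] [DecidableEq ζ] [Fintype I] (K : Subfield ℂ)
    (e : I → MvPolynomial ζ ℂ) (η : MvPolynomial ζ ℂ) (c : ζ → ℂ) (r : ℂ), r ≠ 0 →
    (∀ o α, coeff α (e o) ∈ K) →
    (∀ i, c i ≠ 0 → ∃ D : Derivation K ℂ ℂ, ∀ i', D (c i') = if i' = i then 1 else 0) →
    LocND Set.univ e η → ∀ (w : ζ → ℕ) (x : ζ → ℂ), (∀ i, x i ≠ 0) →
    (∀ i, c i ≠ 0 → c i + r * cut w x i ≠ 0) → eval (fun i => c i + r * cut w x i) η ≠ 0 →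
    NRel Set.univ w x (fun o => aff c r (e o))

/-- The functional equation of the stabilisation. -/
def StabBStmt : Prop :=
  ∀ (ζ ρ κ : Type) [Fintype ζ] [Fintype ρ] [Fintype κ] (f : MvPolynomial ζ ℤ) (b : Polynomial ℂ)
    (l : ℝ), IsB (map (Int.castRingHom ℂ) f) b → b.eval (-(l : ℂ)) ≠ 0 →
    l + (Fintype.card ρ : ℕ) ≠ 1 →
    ∃ b' : Polynomial ℂ, IsB (map (Int.castRingHom ℂ) (stab ρ κ f)) b' ∧
      b'.eval (-((l + (Fintype.card ρ : ℕ) : ℝ) : ℂ)) ≠ 0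

/-- The series of the stabilisation. -/
def StabPStmt : Prop :=
  ∀ (ζ ρ κ : Type) [Fintype ζ] [Fintype ρ] [Fintype κ] (p : ℕ) [Fact p.Prime]
    (f : MvPolynomial ζ ℤ) (l : ℝ) (a : ζ → ℤ_[p]), 0 < l → l ≠ 1 →
    BG p (stab ρ κ f) (l + (Fintype.card ρ : ℕ)) (Sum.elim a 0) → BG p f l a

end Pool.Agent.MP_5d9b3c_ag.H48L
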