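import Pool.Agent.MP_5d9b3c_ag.H48L.Loc
import Pool.Agent.MP_5d9b3c_ag.H48L.Spec2

/-!
Nondegeneracy at a point spreads to a Zariski neighbourhood.
-/

namespace Pool.Agent.MP_5d9b3c_ag.H48L

open Finset MvPolynomial Pool.Agent.MP_5d9b3c_ag.H22 Pool.Agent.MP_5d9b3c_ag.H48N

namespace Loc2Aux

open LocAux hiding HN hn stepA core field

variable {K : Type} [Field K] [Algebra K ℂ]

section Abstract

variable {σ κ ρ : Type} [Fintype σ] (c : σ → K) (W : σ → Bool) (A : κ → σ → ℕ) (ℓ : ρ → κ → K)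
  (T : Finset κ)

/-- No relation on the faces through the centre. -/
def HN : Prop :=
  ∀ (n0 : ℤ) (n : σ → ℤ), (∀ s, W s → c s = 0 → 0 < n s) → (∀ s, W s → c s ≠ 0 → n s = 0) →
    (∀ b ∈ T, 0 ≤ n0 + ∑ s, n s * A b s) →
    (T.filter (fun b => n0 + ∑ s, n s * A b s = 0)).Nonempty → ∀ u : σ → ℂ, (∀ s, u s ≠ 0) →
    (∀ s, W s → c s ≠ 0 → u s = algebraMap K ℂ (c s)) →
    ¬ Rel A ℓ (T.filter (fun b => n0 + ∑ s, n s * A b s = 0)) u

variable [LinearOrder σ] [Fintype κ] [DecidableEq κ] {c W A ℓ T}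

/-- There is no complex point on the toric variety. -/
lemma core (hN : HN c W A ℓ T) (y : κ ⊕ σ → ℂ)
    (hb : ∀ k k' : κ ⊕ σ → ℕ, ∑ j ∈ T1 W T, k j • B1 A j = ∑ j ∈ T1 W T, k' j • B1 A j →
      ∏ j ∈ T1 W T, y j ^ k j = ∏ j ∈ T1 W T, y j ^ k' j)
    (hF : ∀ r, ∑ b ∈ T, ℓ r b • y (Sum.inl b) = 0) {v : κ} (hv : v ∈ T)
    (h0 : y (Sum.inl v) ≠ 0)
    (h1 : ∀ s, W s → y (Sum.inr s) = algebraMap K ℂ (c s)) : False := by
  classical
  obtain ⟨n, h2, h3⟩ := NullAux.face (B1 A) (T1 W T) y hb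
  have h4 : ∀ j ∈ T1 W T, n ⬝ᵥ Bq (B1 A) j = 0 ↔ y j ≠ 0 := fun j hj => by
    simpa [hj] using Finset.ext_iff.1 h3 j
  obtain ⟨N, hN0, m, hm⟩ := clear_den n
  have hN1 : (0 : ℚ) < N := by exact_mod_cast hN0
  have h5 : ∀ b, ((m none + ∑ s, m (some s) * A b s : ℤ) : ℚ) =
      N * n ⬝ᵥ Bq (B1 A) (Sum.inl b) := fun b => by
    simp [dotProduct, Bq, B1, hm, mul_add, mul_sum, mul_assoc]
  have h6 : T.filter (fun b => m none + ∑ s, m (some s) * A b s = 0) =
      T.filter (fun b => y (Sum.inl b) ≠ 0) := filter_congr (fun b hb => by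
    rw [← h4 _ (inl_T1.2 hb), ← Int.cast_eq_zero (α := ℚ), h5, mul_eq_zero,
      or_iff_right hN1.ne'])
  obtain ⟨x, x0, hx⟩ := NullAux.extend ((T1 W T).filter (fun j => y j ≠ 0)) (B1 A) y
    (fun j hj => (mem_filter.1 hj).2) (fun k k' e => by
      have := hb (fun j => if y j ≠ 0 then k j else 0) (fun j => if y j ≠ 0 then k' j else 0) (by
        simp only [ite_smul, zero_smul]
        rw [← sum_filter, ← sum_filter]
        exact e)
      simp only [pow_ite, pow_zero] at this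
      rwa [← prod_filter, ← prod_filter] at this)
  have e : ∀ s, n ⬝ᵥ Bq (B1 A) (Sum.inr s) = n (some s) := fun s => by
    simp [dotProduct, Bq, B1, Pi.single_apply]
  have y0 : ∀ s, W s → c s ≠ 0 → y (Sum.inr s) ≠ 0 := fun s hs hc => by
    rw [h1 s hs]
    exact (map_ne_zero _).2 hc
  refine hN (m none) (fun s => m (some s)) (fun s hs hc => ?_) (fun s hs hc => ?_) (fun b hb => ?_)
    (h6 ▸ ⟨v, mem_filter.2 ⟨hv, h0⟩⟩) (fun s => x (some s)) (fun s => x0 _) (fun s hs hc => ?_)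
    (fun r => ?_)
  · have hs' : Sum.inr s ∈ T1 W T := inr_T1.2 hs
    have h7 := lt_of_le_of_ne (h2 _ hs') (fun h => (h4 _ hs').1 h.symm (by
      rw [h1 s hs, hc, map_zero]))
    rw [e] at h7
    rw [← Int.cast_pos (R := ℚ), hm]
    exact mul_pos hN1 h7
  · rw [← Int.cast_eq_zero (α := ℚ), hm, ← e, (h4 _ (inr_T1.2 hs)).2 (y0 s hs hc), mul_zero]
  · rw [← Int.cast_nonneg_iff (R := ℚ), h5]
    exact mul_nonneg hN1.le (h2 _ (inl_T1.2 hb))
  · rw [← h1 s hs, ← hx _ (mem_filter.2 ⟨inr_T1.2 hs, y0 s hs hc⟩),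
      prod_eq_single (some s) (fun o' _ h => by simp [B1, h]) (by simp)]
    simp [B1]
  · refine (mul_eq_zero.1 ?_).resolve_left (x0 none)
    rw [h6, mul_sum]
    refine (sum_congr rfl (fun b hb => ?_)).trans ((sum_filter_of_ne
      (fun j _ hj => right_ne_zero_of_smul hj)).trans (hF r))
    rw [← hx _ (mem_filter.2 ⟨inl_T1.2 (mem_filter.1 hb).1, (mem_filter.1 hb).2⟩),
      mul_smul_comm]
    simp [B1]

/-- There is no point over a field where the marked coordinates can tend to the centre. -/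
lemma field (hN : HN c W A ℓ T) (hT : T.Nonempty) {L : Type} [Field L] [Algebra K L] (x : σ → L)
    (hx : ∀ s, x s ≠ 0) (hr : Rel A ℓ T x)
    (hη : ∀ η : MvPolynomial σ K, eval c η ≠ 0 → aeval (ct W x) η ≠ 0) : False := by
  classical
  let φ : MvPolynomial σ K →+* L := (aeval (ct W x)).toRingHom
  obtain ⟨V, hV, hI⟩ := Ideal.image_subset_nonunits_valuationSubring
    ((RingHom.ker (eval c)).map φ.rangeRestrict) (fun h => by
      obtain ⟨η, h1, h2⟩ := (Ideal.mem_map_iff_of_surjective _ φ.rangeRestrict_surjective).1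
        ((Ideal.eq_top_iff_one _).1 h)
      refine hη (1 - η) (by rw [map_sub, RingHom.mem_ker.1 h1]; simp) ?_
      rw [map_sub, map_one, sub_eq_zero]
      exact (congrArg Subtype.val h2).symm)
  have hC : ∀ r, algebraMap K L r ∈ V := fun r => hV ⟨C r, by simp [φ]⟩
  have hs : ∀ s, W s → V.valuation (x s - algebraMap K L (c s)) < 1 := fun s h => by
    have : V.valuation (aeval (ct W x) (X s - C (c s) : MvPolynomial σ K)) < 1 :=
      hI ⟨_, Ideal.mem_map_of_mem _ (RingHom.mem_ker.2 (by simp)), rfl⟩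
    simpa [ct, h] using this
  obtain ⟨z, hz⟩ : ∃ z : κ → L, ∀ b, z b = ∏ s, x s ^ A b s := ⟨_, fun _ => rfl⟩
  have z0 : ∀ b, z b ≠ 0 := fun b => by
    rw [hz]
    exact prod_ne_zero_iff.2 (fun o _ => pow_ne_zero _ (hx o))
  obtain ⟨v, hv, hm⟩ := exists_max_image T (fun b => V.valuation (z b)) hT
  have h4 : 0 < V.valuation (z v) := (Valuation.pos_iff _).2 (z0 v)
  obtain ⟨w, w0, w1, w2⟩ : ∃ w : κ ⊕ σ → L, (∀ j ∉ T1 W T, w j = 0) ∧
      (∀ b ∈ T, w (Sum.inl b) = z b / z v) ∧ ∀ s, W s → w (Sum.inr s) = x s :=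
    ⟨fun j => if j ∈ T1 W T then Sum.elim (fun b => z b / z v) x j else 0,
      fun j hj => if_neg hj, fun b hb => if_pos (inl_T1.2 hb),
      fun s h => if_pos (inr_T1.2 h)⟩
  obtain ⟨y, y1, y2⟩ := point V hC w (fun j => by
    by_cases hj : j ∈ T1 W T
    · rcases j with b | s
      · rw [w1 b (inl_T1.1 hj), ← V.valuation_le_one_iff, map_div₀, div_le_one₀ h4]
        exact hm b (inl_T1.1 hj)
      · have h := inr_T1.1 hj
        rw [w2 s h, ← sub_add_cancel (x s) (algebraMap K L (c s))]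
        exact add_mem ((V.valuation_le_one_iff _).1 (hs s h).le) (hC _)
    · rw [w0 j hj]
      exact zero_mem _) (X (Sum.inl v)) (by rw [aeval_X, w1 v hv, div_self (z0 v), map_one])
  have hw : ∀ k : κ ⊕ σ → ℕ, ∏ j ∈ T1 W T, w j ^ k j =
      ∏ o : Option σ, o.elim (z v)⁻¹ x ^ (∑ j ∈ T1 W T, k j • B1 A j) o := by
    intro k
    rw [H48R.AlgAux.mon_sum (fun o => by
      cases o
      exacts [inv_ne_zero (z0 v), hx _])]
    refine prod_congr rfl (fun j hj => ?_)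
    congr 1
    rcases j with b | s
    · rw [w1 b (inl_T1.1 hj), hz b]
      simp [B1, div_eq_inv_mul]
    · rw [w2 s (inr_T1.1 hj),
        prod_eq_single (some s) (fun o' _ h => by simp [B1, h]) (by simp)]
      simp [B1]
  refine core hN y (fun k k' e => ?_) (fun r => ?_) hv (by simpa using y1) (fun s h => ?_)
  · have := y2 (∏ j ∈ T1 W T, X j ^ k j - ∏ j ∈ T1 W T, X j ^ k' j) (by
      simp only [map_sub, map_prod, map_pow, aeval_X]
      rw [hw, hw, e, sub_self, map_zero]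
      exact zero_lt_one)
    simpa only [map_sub, map_prod, map_pow, aeval_X, sub_eq_zero] using this
  · have := y2 (∑ b ∈ T, ℓ r b • X (Sum.inl b)) (by
      simp only [map_sum, map_smul, aeval_X]
      rw [sum_congr rfl (fun b hb => by rw [w1 b hb, ← smul_div_assoc, hz b]), ← sum_div, hr r,
        zero_div, map_zero]
      exact zero_lt_one)
    simpa only [map_sum, map_smul, aeval_X] using this
  · have := y2 (X (Sum.inr s) - C (c s)) (by
      rw [map_sub, aeval_X, aeval_C, w2 s h]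
      exact hs s h)
    rwa [map_sub, aeval_X, aeval_C, sub_eq_zero] at this

/-- The closure of the projection of the solutions misses the centre. -/
lemma stepA (hN : HN c W A ℓ T) (hT : T.Nonempty) : ∃ η : MvPolynomial σ K, eval c η ≠ 0 ∧
    ∀ u : σ → ℂ, (∀ s, u s ≠ 0) → Rel A ℓ T u → aeval (ct W u) η = 0 := by
  by_contra h
  push Not at h
  let M : Submonoid (MvPolynomial σ K) :=
    { carrier := {p | ∃ (η : MvPolynomial σ K) (k : ℕ), eval c η ≠ 0 ∧
        p = aeval (ct W X) η * (∏ s, X s) ^ k}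
      one_mem' := ⟨1, 0, by simp, by simp⟩
      mul_mem' := by
        rintro _ _ ⟨η, k, h1, rfl⟩ ⟨η', k', h2, rfl⟩
        exact ⟨η * η', k + k', by rw [map_mul]; exact mul_ne_zero h1 h2,
          by rw [map_mul]; ring⟩ }
  obtain ⟨q, hq, h1, h2⟩ := (vanishingIdeal K {u : σ → ℂ | (∀ s, u s ≠ 0) ∧ Rel A ℓ T u}
    ).exists_le_prime_disjoint M (Set.disjoint_left.2 (by
      rintro _ h1 ⟨η, k, h2, rfl⟩
      obtain ⟨u, h3, h4, h5⟩ := h η h2
      have h6 := h1 u ⟨h3, h4⟩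
      simp only [map_mul, map_pow, map_prod, map_ct, aeval_X] at h6
      exact mul_ne_zero h5 (pow_ne_zero _ (prod_ne_zero_iff.2 (fun s _ => h3 s))) h6))
  let π : MvPolynomial σ K →ₐ[K] FractionRing (MvPolynomial σ K ⧸ q) :=
    (IsScalarTower.toAlgHom K _ _).comp (Ideal.Quotient.mkₐ K q)
  have hπ : ∀ p, π p = 0 ↔ p ∈ q := fun p =>
    (map_eq_zero_iff _ (IsFractionRing.injective (MvPolynomial σ K ⧸ q) _)).trans
      Ideal.Quotient.eq_zero_iff_mem
  refine field hN hT (fun s => π (X s)) (fun s h3 => ?_) (fun r => ?_) (fun η h3 h4 => ?_)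
  · exact Set.disjoint_left.1 h2 (q.mem_of_dvd (dvd_prod_of_mem X (mem_univ s)) ((hπ _).1 h3))
      ⟨1, 1, by simp, by simp⟩
  · have := (hπ (∑ b ∈ T, ℓ r b • ∏ s, X s ^ A b s)).2 (h1 (fun u hu => by simpa using hu.2 r))
    simpa using this
  · rw [← map_ct] at h4
    exact Set.disjoint_left.1 h2 ((hπ _).1 h4) ⟨η, 0, h3, by simp⟩

end Abstract

section Sys

variable {ζ I : Type} [Fintype ζ] [Fintype I] [DecidableEq I] (e : I → MvPolynomial ζ K)

/-- The subfaces are faces through the centre. -/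
lemma hn {c : ζ → K}
    (H : NDAt (fun i => algebraMap K ℂ (c i)) (fun o => map (algebraMap K ℂ) (e o))) (w : ζ → ℕ)
    (hw : ∀ i, c i ≠ 0 → w i = 0) (S : Finset I) :
    HN (Sum.elim c 0) (Sum.elim (fun i => decide (w i = 0)) (fun _ => false)) (ex e) (lf e)
      ((Mw e w).filter (fun b => b.1 ∈ S)) := by
  classical
  intro n0 n h1 h1' h2 h3 u hu hu' hr
  set T' := ((Mw e w).filter (fun b => b.1 ∈ S)).filter
    (fun b => n0 + ∑ s, n s * ex e b s = 0) with hT'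
  obtain ⟨f, hf⟩ : ∃ f : (ζ →₀ ℕ) → ℤ, ∀ α, f α = ∑ i, n (Sum.inl i) * α i := ⟨_, fun _ => rfl⟩
  obtain ⟨N0, hN⟩ := Finite.exists_le (Sum.elim (fun i => -n (Sum.inl i))
    (fun q : Tm e × Tm e => f q.1.2.1 - f q.2.2.1))
  obtain ⟨N, N0', N1, N2⟩ : ∃ N : ℤ, 0 < N ∧ (∀ i, -n (Sum.inl i) < N) ∧
      ∀ b b' : Tm e, f b.2.1 - f b'.2.1 < N :=
    ⟨|N0| + 1, by positivity, fun i => ((hN (Sum.inl i)).trans (le_abs_self _)).trans_lt
      (lt_add_one _), fun b b' => ((hN (Sum.inr (b, b'))).trans (le_abs_self _)).trans_lt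
      (lt_add_one _)⟩
  have h4 : ∀ i, c i = 0 → 0 < N * w i + n (Sum.inl i) := fun i hc => by
    by_cases h : w i = 0
    · simpa [h] using h1 (Sum.inl i) (by simp [h]) hc
    · have := N1 i
      have : N * 1 ≤ N * w i := mul_le_mul_of_nonneg_left (by omega) N0'.le
      omega
  have h4' : ∀ i, c i ≠ 0 → N * w i + n (Sum.inl i) = 0 := fun i hc => by
    simp [hw i hc, h1' (Sum.inl i) (by simp [hw i hc]) hc]
  obtain ⟨w', hw'⟩ : ∃ w' : ζ → ℕ, ∀ i, (w' i : ℤ) = N * w i + n (Sum.inl i) :=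
    ⟨fun i => (N * w i + n (Sum.inl i)).toNat, fun i => Int.toNat_of_nonneg (by
      by_cases hc : c i = 0
      exacts [(h4 i hc).le, (h4' i hc).ge])⟩
  have h5 : ∀ α, ((Finsupp.weight w' α : ℕ) : ℤ) = N * (Finsupp.weight w α : ℕ) + f α := fun α => by
    simp only [weight_eq, hf, Nat.cast_sum, Nat.cast_mul, hw', mul_sum, ← sum_add_distrib]
    exact sum_congr rfl fun i _ => by ring
  have lex : ∀ b b' : Tm e, Finsupp.weight w' b.2.1 ≤ Finsupp.weight w' b'.2.1 ↔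
      Finsupp.weight w b.2.1 < Finsupp.weight w b'.2.1 ∨
        (Finsupp.weight w b.2.1 = Finsupp.weight w b'.2.1 ∧ f b.2.1 ≤ f b'.2.1) := fun b b' => by
    rw [← Nat.cast_le (α := ℤ), h5, h5]
    have a1 := N2 b b'
    have a2 := N2 b' b
    rcases lt_trichotomy (Finsupp.weight w b.2.1) (Finsupp.weight w b'.2.1) with h | h | h
    · have := mul_le_mul_of_nonneg_left (show ((Finsupp.weight w b.2.1 : ℕ) : ℤ) + 1 ≤
        (Finsupp.weight w b'.2.1 : ℕ) by omega) N0'.le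
      rw [mul_add] at this
      exact iff_of_true (by omega) (Or.inl h)
    · simp [h]
    · have := mul_le_mul_of_nonneg_left (show ((Finsupp.weight w b'.2.1 : ℕ) : ℤ) + 1 ≤
        (Finsupp.weight w b.2.1 : ℕ) by omega) N0'.le
      rw [mul_add] at this
      exact iff_of_false (by omega) (by omega)
  have mT : ∀ b, b ∈ T' ↔ (∀ α ∈ (e b.1).support, Finsupp.weight w b.2.1 ≤ Finsupp.weight w α) ∧
      b.1 ∈ S ∧ n0 + (f b.2.1 + n (Sum.inr b.1)) = 0 := fun b => by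
    simp only [hT', mem_filter, Mw, mem_univ, true_and, sum_ex, hf, and_assoc]
  have pT : ∀ b : Tm e, (∀ α ∈ (e b.1).support, Finsupp.weight w b.2.1 ≤ Finsupp.weight w α) →
      b.1 ∈ S → 0 ≤ n0 + (f b.2.1 + n (Sum.inr b.1)) := fun b a1 a2 => by
    rw [hf, ← sum_ex]
    exact h2 b (mem_filter.2 ⟨mem_filter.2 ⟨mem_univ _, a1⟩, a2⟩)
  have sub : T' ⊆ Mw e w' := fun b hb => mem_filter.2 ⟨mem_univ _, fun α hα => by
    obtain ⟨a1, a2, a3⟩ := (mT b).1 hb
    refine (lex b ⟨b.1, α, hα⟩).2 ((a1 α hα).lt_or_eq.imp_right fun h => ⟨h, ?_⟩)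
    have : 0 ≤ n0 + (f α + n (Sum.inr b.1)) := pT ⟨b.1, α, hα⟩ (fun β hβ => h ▸ a1 β hβ) a2
    change f b.2.1 ≤ f α
    omega⟩
  have back : ∀ b ∈ Mw e w', (∃ b0 ∈ T', b0.1 = b.1) → b ∈ T' := by
    rintro ⟨o, α⟩ hb ⟨⟨o', β⟩, hb0, rfl⟩
    obtain ⟨a1, a2, a3⟩ := (mT _).1 hb0
    have a4 := (lex ⟨_, α⟩ ⟨_, β⟩).1 ((mem_filter.1 hb).2 β.1 β.2)
    have a5 := a1 α.1 α.2
    dsimp only at a1 a2 a3 a4 a5
    have a6 : ∀ γ ∈ (e o').support, Finsupp.weight w α.1 ≤ Finsupp.weight w γ :=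
      fun γ hγ => le_trans (by omega) (a1 γ hγ)
    have a7 : 0 ≤ n0 + (f α.1 + n (Sum.inr o')) := pT ⟨_, α⟩ a6 a2
    exact (mT _).2 ⟨a6, a2, by dsimp only; omega⟩
  obtain ⟨y, y1, y0⟩ : ∃ y : I → ℂ, (∀ b ∈ T', y b.1 = u (Sum.inr b.1)) ∧
      ∀ o, (¬ ∃ b0 ∈ T', b0.1 = o) → y o = 0 :=
    ⟨fun o => if ∃ b0 ∈ T', b0.1 = o then u (Sum.inr o) else 0, fun b hb => if_pos ⟨b, hb, rfl⟩,
      fun o h => if_neg h⟩
  obtain ⟨c1, c2⟩ := (rel_iff e w' (fun i => hu (Sum.inl i)) y).1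
    ((rel_drop e (u := Sum.elim (fun i => u (Sum.inl i)) y) (u' := u) (fun _ => rfl) sub
      (fun b hb => (y1 b hb).symm) (fun b hb hb' => y0 _ fun h => hb' (back b hb h))).1 hr)
  obtain ⟨b, hb⟩ := h3
  obtain ⟨t, ht⟩ := H w' (fun i => u (Sum.inl i)) (fun i => by
      have := hw' i
      by_cases hc : c i = 0
      · exact iff_of_true (by have := h4 i hc; omega) (by simp [hc])
      · exact iff_of_false (by have := h4' i hc; omega) (by simpa using hc)) (fun i => hu _)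
    (fun i hc => by
      have hc' : c i ≠ 0 := by simpa using hc
      exact hu' (Sum.inl i) (by simp [hw i hc']) hc') y
    (fun h => hu _ ((y1 b hb).symm.trans (congrFun h _)))
    (fun o ho => ⟨trivial, (mul_eq_zero.1 (c1 o)).resolve_left ho⟩)
  exact ht (c2 t)

end Sys

end Loc2Aux

open Loc2Aux in
open LocAux hiding HN hn stepA core field in
theorem loc2 : Loc2Stmt := by
  intro ζ I K _ _ _ j c e H
  classical
  let := j.toAlgebra
  let : LinearOrder (ζ ⊕ I) :=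
    LinearOrder.lift' (Fintype.equivFin _) (Fintype.equivFin _).injective
  have key : ∀ d : (ζ ⊕ I → Bool) × Finset (Tm e), ∃ η : MvPolynomial (ζ ⊕ I) K,
      eval (Sum.elim c 0) η ≠ 0 ∧ (HN (Sum.elim c 0) d.1 (ex e) (lf e) d.2 → d.2.Nonempty →
        ∀ u : ζ ⊕ I → ℂ, (∀ s, u s ≠ 0) → Rel (ex e) (lf e) d.2 u →
        aeval (ct d.1 u) η = 0) := fun d => by
    by_cases h : HN (Sum.elim c 0) d.1 (ex e) (lf e) d.2 ∧ d.2.Nonempty
    · obtain ⟨η, h1, h2⟩ := stepA h.1 h.2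
      exact ⟨η, h1, fun _ _ => h2⟩
    · exact ⟨1, by simp, fun h1 h2 => absurd ⟨h1, h2⟩ h⟩
  choose η h1 h2 using key
  refine ⟨(∏ i with c i ≠ 0, X i) * ∏ d, aeval (Sum.elim X 0) (η d), ?_,
    fun w x hx h3 y hy h4 => ?_⟩
  · rw [map_mul, map_prod, map_prod]
    refine mul_ne_zero (prod_ne_zero_iff.2 fun i hi => by simpa using hi)
      (prod_ne_zero_iff.2 fun d _ h => h1 d ?_)
    rw [← h, ← coe_aeval_eq_eval, ← coe_aeval_eq_eval]
    refine Eq.trans ?_ (comp_aeval_apply _ (aeval c) (η d)).symm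
    change aeval _ _ = _
    congr 2
    funext s
    cases s <;> simp
  rw [map_mul, map_mul] at h3
  have hw : ∀ i, c i ≠ 0 → w i = 0 := fun i hi => by
    by_contra h
    refine left_ne_zero_of_mul h3 ?_
    rw [map_prod, map_prod]
    exact prod_eq_zero (mem_filter.2 ⟨mem_univ i, hi⟩) (by simp [cut, h])
  by_contra h5
  push Not at h5
  obtain ⟨S, hS⟩ : ∃ S : Finset I, ∀ o, o ∈ S ↔ y o ≠ 0 :=
    ⟨univ.filter (fun o => y o ≠ 0), by simp⟩
  obtain ⟨y', y1⟩ : ∃ y' : I → ℂ, ∀ o, y' o = if y o = 0 then 1 else y o := ⟨_, fun _ => rfl⟩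
  have h6 := h2 (Sum.elim (fun i => decide (w i = 0)) (fun _ => false),
    (Mw e w).filter (fun b => b.1 ∈ S)) (hn e H w hw S) (by
    obtain ⟨o, ho⟩ := Function.ne_iff.1 hy
    have h7 : e o ≠ 0 := fun h => (H (fun i => if c i = 0 then 1 else 0)
      (fun i => if c i = 0 then 1 else j (c i)) (fun i => by by_cases hc : c i = 0 <;> simp [hc])
      (fun i => by by_cases hc : c i = 0 <;> simp [hc])
      (fun i hc => if_neg (by simpa using hc))).ne o (by simp [h])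
    obtain ⟨α, a1, a2⟩ := exists_min_image _ (Finsupp.weight w) (support_nonempty.2 h7)
    exact ⟨⟨o, α, a1⟩, mem_filter.2 ⟨mem_filter.2 ⟨mem_univ _, a2⟩, (hS o).2 ho⟩⟩)
    (Sum.elim x y') (fun s => by
      rcases s with i | o
      · exact hx i
      · rw [Sum.elim_inr, y1]
        split_ifs with h
        exacts [one_ne_zero, h])
    ((rel_drop e (u := Sum.elim x y) (u' := Sum.elim x y') (fun _ => rfl)
      (filter_subset (fun b => b.1 ∈ S) _)
      (fun b hb => (y1 _).trans (if_neg ((hS _).1 (mem_filter.1 hb).2))) (fun b hb hb' => by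
        by_contra h
        exact hb' (mem_filter.2 ⟨hb, (hS _).2 h⟩))).2
      ((rel_iff e w hx y).2 ⟨fun o => by
        by_cases h : y o = 0
        · rw [h, zero_mul]
        · exact mul_eq_zero_of_right _ (h4 o h).2, h5⟩))
  refine right_ne_zero_of_mul h3 ?_
  rw [eval_map]
  change aeval (cut w x) _ = 0
  rw [map_prod]
  refine prod_eq_zero (mem_univ (Sum.elim (fun i => decide (w i = 0)) (fun _ => false),
    (Mw e w).filter (fun b => b.1 ∈ S))) (Eq.trans ?_ h6)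
  rw [comp_aeval_apply]
  congr 2
  funext s
  cases s <;> simp [ct, cut]

end Pool.Agent.MP_5d9b3c_ag.H48L
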