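import Pool.Agent.MP_5d9b3c_ag.H48L.Basic

/-!
A generic modification of a locally nondegenerate system is nondegenerate everywhere.
-/

namespace Pool.Agent.MP_5d9b3c_ag.H48L

open Finset MvPolynomial Pool.Agent.MP_5d9b3c_ag.H22 Pool.Agent.MP_5d9b3c_ag.H48N

namespace ModAux

variable {ζ I : Type} [Fintype ζ] {K : Subfield ℂ} {D : Derivation K ℂ ℂ} {x : ζ → ℂ}
  {q q' : MvPolynomial ζ ℂ}

/-- The part of the derivative of a value that comes from the coefficients. -/
noncomputable def dc (D : Derivation K ℂ ℂ) (x : ζ → ℂ) : MvPolynomial ζ ℂ →+ ℂ :=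
  AddMonoidHom.mk' (fun q => D (eval x q) - pd x (fun t => D (x t)) q) (fun q q' => by
    rw [map_add, map_add, pd_add]
    ring)

lemma dc_apply : dc D x q = D (eval x q) - pd x (fun t => D (x t)) q := rfl

lemma dc_mul : dc D x (q * q') = eval x q * dc D x q' + eval x q' * dc D x q := by
  rw [dc_apply, dc_apply, dc_apply, map_mul, Derivation.leibniz, pd_mul, smul_eq_mul, smul_eq_mul]
  ring

lemma dc_C (r : ℂ) : dc D x (C r) = D r := by rw [dc_apply, eval_C, pd_C, sub_zero]

lemma dc_X (i : ζ) : dc D x (X i) = 0 := by rw [dc_apply, eval_X, pd_X, sub_self]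

lemma dc_mono (a : ζ →₀ ℕ) : dc D x (monomial a 1) = 0 := by
  have h1 : dc D x 1 = 0 := by rw [← C_1, dc_C, Derivation.map_one_eq_zero]
  induction a using Finsupp.induction_linear with
  | zero => exact h1
  | add a b ha hb => rw [← mul_one (1 : ℂ), ← monomial_mul, dc_mul, ha, hb, mul_zero, mul_zero,
      add_zero]
  | single i n =>
    rw [← X_pow_eq_monomial]
    induction n with
    | zero => rwa [pow_zero]
    | succ n ih => rw [pow_succ, dc_mul, ih, dc_X, mul_zero, mul_zero, add_zero]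

lemma dc_eq : dc D x q = ∑ a ∈ q.support, eval x (monomial a 1) * D (coeff a q) := by
  conv_lhs => rw [q.as_sum]
  rw [map_sum]
  refine sum_congr rfl (fun a _ => ?_)
  rw [← mul_one (coeff a q), ← C_mul_monomial, dc_mul, dc_mono, dc_C, mul_zero, zero_add, mul_one]

lemma dc_zero (h : ∀ a, D (coeff a q) = 0) : dc D x q = 0 := by
  rw [dc_eq]
  exact sum_eq_zero (fun a _ => by rw [h, mul_zero])

lemma dc_one {a0 : ζ →₀ ℕ} (h0 : D (coeff a0 q) = 1) (h : ∀ a, a ≠ a0 → D (coeff a q) = 0) :
    dc D x q = eval x (monomial a0 1) := by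
  rw [dc_eq, sum_eq_single a0 (fun a _ ha => by rw [h a ha, mul_zero]) (fun h1 => ?_), h0, mul_one]
  rw [notMem_support_iff.1 h1, map_zero, mul_zero]

omit [Fintype ζ] in
lemma pderiv_sub {V : ζ} (h : pderiv V q = 0) (hs : q'.support ⊆ q.support) :
    pderiv V q' = 0 := by
  ext a
  have h1 := congrArg (coeff a) h
  rw [coeff_pderiv, coeff_zero, mul_eq_zero] at h1 ⊢
  refine h1.imp_left (fun h2 => ?_)
  by_contra h3
  exact mem_support_iff.1 (hs (mem_support_iff.2 h3)) h2

omit [Fintype ζ] in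
lemma expo_zero {V : ζ} (h : pderiv V q = 0) {a : ζ →₀ ℕ} (ha : a ∈ q.support) :
    V ∉ a.support := by
  intro h0
  have h1 := congrArg (coeff (a - Finsupp.single V 1)) h
  rw [coeff_pderiv, coeff_zero, mul_eq_zero, tsub_add_cancel_of_le
    (Finsupp.single_le_iff.2 (Nat.pos_of_ne_zero (Finsupp.mem_support_iff.1 h0)))] at h1
  exact h1.elim (mem_support_iff.1 ha) (Nat.cast_add_one_ne_zero _)

variable [Fintype I] [DecidableEq I]

theorem main (K : Subfield ℂ) (E L : I → MvPolynomial ζ ℂ) (H : MvPolynomial ζ ℂ) (V : ζ) (o' : I)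
    (hE : E o' = 1 - X V * H) (hH : pderiv V H = 0) (hV : ∀ o, o ≠ o' → pderiv V (E o) = 0)
    (hne : ∀ o, E o ≠ 0) (hnd : LocND {o | o ≠ o'} E H) (hK : ∀ o a, coeff a (E o) ∈ K)
    (hL : L o' = 0) (hs : ∀ o, (L o).support ⊆ (E o).support)
    (hD : ∀ o, o ≠ o' → ∀ a ∈ (E o).support, ∃ D : Derivation K ℂ ℂ, D (coeff a (L o)) = 1 ∧
      ∀ o1 a1, (o1, a1) ≠ (o, a) → D (coeff a1 (L o1)) = 0)
    (w : ζ → ℕ) (x : ζ → ℂ) (hx : ∀ i, x i ≠ 0) :
    NRel Set.univ w x (fun o => E o + L o * E o') := by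
  classical
  choose μ h1 h2 h3 using fun o => exists_fc w (hne o)
  have hDK : ∀ (D : Derivation K ℂ ℂ) o a, D (coeff a (E o)) = 0 :=
    fun D o a => D.map_algebraMap ⟨_, hK o a⟩
  obtain ⟨g, hg⟩ : ∃ g, g = wc w 0 (E o') := ⟨_, rfl⟩
  have e0 : fc w (E o') = g := by
    rw [hg]
    refine fc_eq (fun _ _ => Nat.zero_le _) (ne_zero_iff.2 ⟨0, ?_⟩)
    rw [coeff_wc, if_pos (map_zero _), hE]
    simp [coeff_X_mul']
  have e1 : ∀ o, fc w (E o + L o * E o') = fc w (E o) + wc w (μ o) (L o) * g := by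
    intro o
    by_cases ho : o = o'
    · rw [ho, hL, zero_mul, add_zero, map_zero, zero_mul, add_zero]
    have h4 : ∀ a ∈ (L o).support, μ o ≤ Finsupp.weight w a := fun a ha => h1 o a (hs o ha)
    rw [h3, hg, ← wc_mul h4, ← map_add]
    refine fc_eq (fun a ha => (mem_union.1 (support_add ha)).elim (h1 o a) (le_mul h4 a)) ?_
    obtain ⟨a, ha, h5⟩ := h2 o
    obtain ⟨D, h6, _⟩ := hD o ho a ha
    refine ne_zero_iff.2 ⟨a, fun h7 => ?_⟩
    rw [coeff_wc, if_pos h5, hE, mul_sub, mul_one, mul_left_comm, coeff_add, coeff_sub,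
      coeff_X_mul', if_neg (expo_zero (hV o ho) ha), sub_zero] at h7
    have h8 := congrArg D h7
    rw [map_add, hDK, h6, map_zero, zero_add] at h8
    exact one_ne_zero h8
  intro y hy h4
  simp only [e1] at h4 ⊢
  by_contra hcon
  have h5 : ∀ t, ∑ o, y o * eval x (pderiv t (fc w (E o) + wc w (μ o) (L o) * g)) = 0 :=
    fun t => not_not.1 (fun h => hcon ⟨t, h⟩)
  by_cases h6 : eval x g = 0
  · have e2 : g = 1 - (if w V = 0 then X V else 0) * wc w 0 H := by
      rw [hg, hE, map_sub, wc_zero_one, wc_zero_mul, wc_zero_X]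
    have h7 : w V = 0 := by
      by_contra h7
      simp [e2, h7] at h6
    rw [if_pos h7] at e2
    have h8 : eval x (wc w 0 H) ≠ 0 := fun h8 => by simp [e2, h8] at h6
    have h9 : ∀ t, ∑ o, Function.update y o' 0 o * eval x (pderiv t (fc w (E o))) +
        (y o' + ∑ o, y o * eval x (wc w (μ o) (L o))) * eval x (pderiv t g) = 0 := by
      intro t
      have e3 : ∑ o, Function.update y o' 0 o * eval x (pderiv t (fc w (E o))) +
          y o' * eval x (pderiv t g) = ∑ o, y o * eval x (pderiv t (fc w (E o))) := by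
        rw [← add_sum_erase _ _ (mem_univ o'), ← add_sum_erase _ _ (mem_univ o'),
          Function.update_self, zero_mul, zero_add, add_comm, e0]
        exact congrArg _ (sum_congr rfl (fun o ho => by
          rw [Function.update_of_ne (ne_of_mem_erase ho)]))
      refine Eq.trans ?_ (h5 t)
      rw [add_mul, sum_mul, ← add_assoc, e3, ← sum_add_distrib]
      refine sum_congr rfl (fun o _ => ?_)
      simp only [map_add, Derivation.leibniz, smul_eq_mul, map_mul, h6]
      ring
    have h10 : y o' + ∑ o, y o * eval x (wc w (μ o) (L o)) = 0 := by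
      have h11 := h9 V
      rw [sum_eq_zero, zero_add, mul_eq_zero] at h11
      · refine h11.resolve_right (fun h12 => h8 ?_)
        simpa [e2, pderiv_wc hH] using h12
      · intro o _
        by_cases ho : o = o'
        · rw [ho, Function.update_self, zero_mul]
        · rw [pderiv_fc (hV o ho), map_zero, mul_zero]
    obtain ⟨t, ht⟩ := hnd w x hx (by rwa [eval_cut]) (Function.update y o' 0) (fun h11 => hy (by
      have h12 : ∀ o, o ≠ o' → y o = 0 := fun o ho => by
        rw [← Function.update_of_ne ho 0 y, h11, Pi.zero_apply]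
      rw [sum_eq_single o' (fun o _ ho => by rw [h12 o ho, zero_mul]) (by simp), hL] at h10
      funext o
      by_cases ho : o = o'
      · simpa [ho] using h10
      · exact h12 o ho)) (fun o ho => by
      have h11 : o ≠ o' := by
        rintro rfl
        exact ho (Function.update_self ..)
      rw [Function.update_of_ne h11] at ho
      refine ⟨h11, ?_⟩
      simpa [h6] using (h4 o ho).2)
    have h11 := h9 t
    rw [h10, zero_mul, add_zero] at h11
    exact ht h11
  · obtain ⟨o0, h7⟩ := Function.ne_iff.1 hy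
    have h8 : o0 ≠ o' := by
      rintro rfl
      have h8 := (h4 _ h7).2
      rw [hL, map_zero, zero_mul, add_zero, e0] at h8
      exact h6 h8
    obtain ⟨a, ha, h9⟩ := h2 o0
    obtain ⟨D, h10, h11⟩ := hD o0 h8 a ha
    have h12 : ∀ o n, dc D x (wc w n (E o)) = 0 := fun o n => dc_zero (fun a1 => by
      rw [coeff_wc]
      split_ifs
      exacts [hDK D o a1, map_zero D])
    have h13 : ∀ o, dc D x (fc w (E o) + wc w (μ o) (L o) * g) =
        eval x g * dc D x (wc w (μ o) (L o)) := fun o => by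
      rw [map_add, h3, h12, dc_mul, hg, h12, mul_zero, zero_add, zero_add]
    have h14 : ∑ o, y o * dc D x (fc w (E o) + wc w (μ o) (L o) * g) = 0 := by
      simp only [dc_apply, mul_sub, sum_sub_distrib, pd, mul_sum, ← mul_assoc]
      rw [sum_comm, sum_eq_zero, sum_eq_zero, sub_zero]
      · intro t _
        rw [← sum_mul, h5, zero_mul]
      · intro o _
        by_cases ho : y o = 0
        · rw [ho, zero_mul]
        · rw [(h4 o ho).2, map_zero, mul_zero]
    have h15 : ∀ o a1, (o, a1) ≠ (o0, a) → D (coeff a1 (wc w (μ o) (L o))) = 0 := by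
      intro o a1 h
      rw [coeff_wc]
      split_ifs
      exacts [h11 o a1 h, map_zero D]
    rw [sum_eq_single o0 (fun o _ ho => by
      rw [h13, dc_zero (fun a1 => h15 o a1 (fun h => ho (congrArg Prod.fst h))), mul_zero,
        mul_zero]) (by simp), h13, dc_one (a0 := a) (by rw [coeff_wc, if_pos h9, h10])
      (fun a1 h => h15 o0 a1 (fun h' => h (congrArg Prod.snd h'))), eval_monomial, one_mul] at h14
    exact mul_ne_zero h7 (mul_ne_zero h6
      (prod_ne_zero_iff.2 (fun i _ => pow_ne_zero _ (hx i)))) h14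

end ModAux

theorem modify (h : TransStmt) : ModStmt := by
  intro ζ I _ _ p _ j hj e η V o' h1 h2 h3 h4 h5
  classical
  obtain ⟨S, hS⟩ : ∃ S : Finset (I × (ζ →₀ ℕ)), ∀ o, ∀ a ∈ (e o).support, (o, a) ∈ S :=
    ⟨univ ×ˢ univ.biUnion (fun o => (e o).support), fun o a ha =>
      mem_product.2 ⟨mem_univ _, mem_biUnion.2 ⟨o, mem_univ _, ha⟩⟩⟩
  obtain ⟨K, γ, h6, h7⟩ := h S S p j hj (fun k => j (coeff k.1.2 (e k.1.1)))
  obtain ⟨lam, h8⟩ : ∃ lam : I → MvPolynomial ζ ℤ_[p], ∀ o a, coeff a (lam o) =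
      if h : o ≠ o' ∧ a ∈ (e o).support then γ ⟨(o, a), hS o a h.2⟩ else 0 := by
    refine ⟨fun o => ∑ a ∈ (e o).support, monomial a
      (if h : o ≠ o' ∧ a ∈ (e o).support then γ ⟨(o, a), hS o a h.2⟩ else 0), fun o a => ?_⟩
    simp only [coeff_sum, coeff_monomial, sum_ite_eq']
    by_cases ha : a ∈ (e o).support
    · rw [if_pos ha]
    · rw [if_neg ha, dif_neg (fun h => ha h.2)]
  have h9 : lam o' = 0 := by
    ext a
    rw [h8, dif_neg (fun h => h.1 rfl), coeff_zero]
  refine ⟨lam, h9, fun w x hx => ?_⟩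
  simp only [md, map_add, map_mul]
  refine ModAux.main K (fun o => map j (e o)) (fun o => map j (lam o)) (map j η) V o'
    (by simp [h1]) (by rw [pderiv_map, h2, map_zero])
    (fun o ho => by rw [pderiv_map, h3 o ho, map_zero])
    (fun o ho => h4 o (map_injective j hj (by rw [map_zero]; exact ho))) h5 (fun o a => ?_)
    (by rw [h9, map_zero]) (fun o a ha => ?_) (fun o ho a ha => ?_) w x hx
  · rw [coeff_map]
    by_cases ha : a ∈ (e o).support
    · exact h6 ⟨(o, a), hS o a ha⟩
    · rw [notMem_support_iff.1 ha, map_zero]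
      exact K.zero_mem
  · rw [support_map_of_injective _ hj] at ha ⊢
    by_contra h10
    exact mem_support_iff.1 ha (by rw [h8, dif_neg (fun h => h10 h.2)])
  · rw [support_map_of_injective _ hj] at ha
    obtain ⟨D, hD⟩ := h7 ⟨(o, a), hS o a ha⟩
    refine ⟨D, ?_, fun o1 a1 h10 => ?_⟩
    · rw [coeff_map, h8, dif_pos ⟨ho, ha⟩, hD, if_pos rfl]
    · rw [coeff_map, h8]
      split_ifs with h11
      · rw [hD, if_neg (fun h12 => h10 (congrArg Subtype.val h12))]
      · rw [map_zero, map_zero]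

end Pool.Agent.MP_5d9b3c_ag.H48L
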