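import Pool.Agent.MP_5d9b3c_ag.H48L.Basic
import Pool.Agent.MP_5d9b3c_ag.H10.Count

/-!
Smooth points and compactness.
-/

namespace Pool.Agent.MP_5d9b3c_ag.H48L

open Finset MvPolynomial Pool.Agent.MP_5d9b3c_ag.H22 Pool.Agent.MP_5d9b3c_ag.H48N

namespace SmoothAux

variable {ζ : Type}

lemma dvd_aeval {R : Type} [CommRing R] {r : R} {x y : ζ → R} (h : ∀ i, r ∣ x i - y i)
    (g : MvPolynomial ζ ℤ) : r ∣ aeval x g - aeval y g := by
  induction g using MvPolynomial.induction_on with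
  | C c => simp
  | add p q hp hq =>
    rw [map_add, map_add, add_sub_add_comm]
    exact dvd_add hp hq
  | mul_X p i hp =>
    have : aeval x (p * X i) - aeval y (p * X i) =
        (aeval x p - aeval y p) * x i + aeval y p * (x i - y i) := by
      simp only [map_mul, aeval_X]
      ring
    rw [this]
    exact dvd_add (hp.mul_right _) ((h i).mul_left _)

lemma map_aeval' {R S : Type} [CommRing R] [CommRing S] (φ : R →+* S) (x : ζ → R)
    (g : MvPolynomial ζ ℤ) : φ (aeval x g) = aeval (fun i => φ (x i)) g :=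
  MvPolynomial.comp_aeval_apply x φ.toIntAlgHom g

lemma cast_aeval {R : Type} [CommRing R] (a : ζ → ℤ) (g : MvPolynomial ζ ℤ) :
    ((aeval a g : ℤ) : R) = aeval (fun i => (a i : R)) g :=
  map_aeval' (Int.castRingHom R) a g

lemma taylor [DecidableEq ζ] {R : Type} [CommRing R] (x : ζ → R) (i : ζ) (h : R) (hh : h * h = 0)
    (g : MvPolynomial ζ ℤ) :
    aeval (x + Pi.single i h) g = aeval x g + h * aeval x (pderiv i g) := by
  induction g using MvPolynomial.induction_on with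
  | C c => simp
  | add p q hp hq =>
    simp only [map_add, hp, hq]
    ring
  | mul_X p j hp =>
    rw [map_mul, hp, Derivation.leibniz, pderiv_X]
    by_cases hj : j = i
    · subst hj
      simp only [aeval_X, Pi.add_apply, Pi.single_eq_same, smul_eq_mul, map_add, map_mul, map_one]
      linear_combination aeval x (pderiv j p) * hh
    · simp only [aeval_X, Pi.add_apply, Pi.single_eq_of_ne hj, Pi.single_eq_of_ne (Ne.symm hj),
        smul_eq_mul, map_add, map_mul, map_zero]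
      ring

/-- Reduction. -/
def rd (p : ℕ) {E k : ℕ} (h : E ≤ k) : ZMod (p ^ k) →+* ZMod (p ^ E) :=
  ZMod.castHom (pow_dvd_pow p h) _

lemma pow_self (p k : ℕ) : (p : ZMod (p ^ k)) ^ k = 0 := by
  rw [← Nat.cast_pow, ZMod.natCast_self]

lemma ball_iff {p E k : ℕ} (h : E ≤ k) (x : ZMod (p ^ k)) (a : ℤ) :
    (∃ y, x = (a : ZMod (p ^ k)) + (p : ZMod (p ^ k)) ^ E * y) ↔ rd p h x = a := by
  constructor
  · rintro ⟨y, rfl⟩
    rw [map_add, map_mul, map_pow, map_natCast, pow_self, zero_mul, add_zero, map_intCast]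
  · intro hx
    obtain ⟨m, rfl⟩ := ZMod.intCast_surjective x
    rw [map_intCast, ZMod.intCast_eq_intCast_iff_dvd_sub] at hx
    obtain ⟨y, hy⟩ := dvd_sub_comm.1 hx
    refine ⟨y, ?_⟩
    have : m = a + (p ^ E : ℕ) * y := by linarith
    rw [this]
    push_cast
    rfl

lemma pk_mul {p : ℕ} (hp : 0 < p) (k : ℕ) (m : ℤ) :
    (p : ZMod (p ^ (k + 1))) ^ k * m = 0 ↔ (p : ℤ) ∣ m := by
  have e : (p : ZMod (p ^ (k + 1))) ^ k * m = ((p ^ k * m : ℤ) : ZMod (p ^ (k + 1))) := by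
    push_cast
    rfl
  rw [e, ZMod.intCast_zmod_eq_zero_iff_dvd]
  push_cast
  rw [pow_succ]
  exact mul_dvd_mul_iff_left (by positivity)

variable {p : ℕ} [Fact p.Prime]

lemma exists_val {a : ζ → ℤ_[p]} {g : MvPolynomial ζ ℤ} (h : aeval a g ≠ 0) :
    ∃ d : ℕ, ∀ a' : ζ → ℤ, (∀ i, (p : ℤ_[p]) ^ (d + 1) ∣ (a' i : ℤ_[p]) - a i) →
      ∃ c : ℤ, ¬ (p : ℤ) ∣ c ∧ aeval a' g = (p : ℤ) ^ d * c := by
  obtain ⟨d, u, hu, e⟩ := WfDvdMonoid.max_power_factor h (PadicInt.irreducible_p (p := p))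
  refine ⟨d, fun a' ha => ?_⟩
  have h1 := dvd_aeval ha g
  rw [← cast_aeval, e] at h1
  have h2 : (p : ℤ_[p]) ^ d ∣ ((aeval a' g : ℤ) : ℤ_[p]) := by
    have := dvd_add ((pow_dvd_pow _ d.le_succ).trans h1) (dvd_mul_right ((p : ℤ_[p]) ^ d) u)
    rwa [sub_add_cancel] at this
  obtain ⟨c, hc⟩ := (PadicInt.pow_p_dvd_int_iff _ _).1 h2
  refine ⟨c, fun ⟨c', hc'⟩ => hu ?_, by exact_mod_cast hc⟩
  rw [hc, hc'] at h1
  push_cast at h1
  rw [← mul_sub, pow_succ,
    mul_dvd_mul_iff_left (pow_ne_zero _ (PadicInt.irreducible_p (p := p)).ne_zero)] at h1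
  have := dvd_sub (dvd_mul_right (p : ℤ_[p]) c') h1
  rwa [sub_sub_cancel] at this

omit [Fact p.Prime] in
lemma near {E E' k : ℕ} (h : E' ≤ E) {a : ζ → ℤ} {x : ζ → ZMod (p ^ k)}
    (hx : ∀ i, ∃ y, x i = (a i : ZMod (p ^ k)) + (p : ZMod (p ^ k)) ^ E * y)
    (g : MvPolynomial ζ ℤ) :
    ∃ z, aeval x g = ((aeval a g : ℤ) : ZMod (p ^ k)) + (p : ZMod (p ^ k)) ^ E' * z := by
  obtain ⟨z, hz⟩ := dvd_aeval (r := (p : ZMod (p ^ k)) ^ E') (x := x)
    (y := fun i => (a i : ZMod (p ^ k))) (fun i => by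
      obtain ⟨y, hy⟩ := hx i
      rw [hy, add_sub_cancel_left]
      exact (pow_dvd_pow _ h).mul_right _) g
  exact ⟨z, by rw [cast_aeval, ← hz, add_sub_cancel]⟩

lemma step [Fintype ζ] {f : MvPolynomial ζ ℤ} {i : ζ} {d E n : ℕ} (hE : d + 1 ≤ E) {a : ζ → ℤ}
    {c : ℤ} (hc : ¬ (p : ℤ) ∣ c) (e : aeval a (pderiv i f) = (p : ℤ) ^ d * c)
    (hn : E ≤ n) :
    Nat.card {x // InB p E a f (n + d + 1) x} * p =
      p ^ Fintype.card ζ * Nat.card {x // InB p E a f (n + d) x} := by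
  classical
  have hp : p.Prime := Fact.out
  set P := (p : ZMod (p ^ (n + d + 1))) with hP
  have h0 : P ^ (n + d) * P = 0 := by rw [← pow_succ]; exact pow_self _ _
  have key : ∀ x : ζ → ZMod (p ^ (n + d + 1)), (∀ j, ∃ y, x j = a j + P ^ E * y) → ∀ t : ℤ,
      (∀ j, ∃ y, (x + Pi.single i (t * P ^ n) : ζ → _) j = a j + P ^ E * y) ∧
      aeval (x + Pi.single i (t * P ^ n)) f = aeval x f + P ^ (n + d) * (t * c : ℤ) := by
    intro x hx t
    obtain ⟨m, rfl⟩ := Nat.exists_eq_add_of_le hn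
    obtain ⟨m', rfl⟩ := Nat.exists_eq_add_of_le hE
    refine ⟨fun j => ?_, ?_⟩
    · obtain ⟨y, hy⟩ := hx j
      by_cases hj : j = i
      · subst hj
        exact ⟨y + t * P ^ m, by rw [Pi.add_apply, Pi.single_eq_same, hy]; ring⟩
      · exact ⟨y, by rw [Pi.add_apply, Pi.single_eq_of_ne hj, hy, add_zero]⟩
    · obtain ⟨z, hz⟩ := near (Nat.le_add_right (d + 1) m') hx (pderiv i f)
      rw [taylor x i _ (by linear_combination (t : ZMod _) ^ 2 * P ^ (m' + m) * h0), hz, e]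
      push_cast
      linear_combination t * z * h0
  have hA : ∀ x : ζ → ZMod (p ^ (n + d + 1)),
      InB p E a f (n + d) (H10.redv ζ p (n + d) x) ↔
        (∀ j, ∃ y, x j = a j + P ^ E * y) ∧ ∃ w, aeval x f = P ^ (n + d) * w := by
    intro x
    have hE1 : E ≤ n + d := by omega
    refine and_congr (forall_congr' (fun j => ?_)) ?_
    · rw [ball_iff hE1, ball_iff (hE1.trans (n + d).le_succ),
        RingHom.ext_zmod (rd p (hE1.trans (n + d).le_succ))
          ((rd p hE1).comp (H10.red p (n + d)))]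
      rfl
    · have := ball_iff (n + d).le_succ (aeval x f) 0
      simp only [Int.cast_zero, zero_add] at this
      rw [this, map_aeval']
      rfl
  rw [← H10.card_ker_redv ζ hp.pos (n + d),
    ← H10.card_pre _ _ (fun h _ => H10.redv_surj ζ p (n + d) h)]
  have e0 : Nat.card {x // InB p E a f (n + d + 1) x} * p =
      Nat.card ({x // InB p E a f (n + d + 1) x} × ZMod p) := by
    rw [Nat.card_prod, Nat.card_zmod]
  rw [e0]
  refine Nat.card_eq_of_bijective (fun z => ⟨z.1.1 + Pi.single i ((z.2.val : ℤ) * P ^ n),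
    (hA _).2 ⟨(key _ z.1.2.1 _).1, _, by rw [(key _ z.1.2.1 _).2, z.1.2.2, zero_add]⟩⟩) ⟨?_, ?_⟩
  · rintro ⟨⟨x, hx, fx⟩, t⟩ ⟨⟨x', hx', fx'⟩, t'⟩ h
    have h1 : x + Pi.single i ((t.val : ℤ) * P ^ n) = x' + Pi.single i ((t'.val : ℤ) * P ^ n) :=
      congrArg Subtype.val h
    have h2 := (key x hx t.val).2
    rw [h1, (key x' hx' t'.val).2, fx, fx'] at h2
    have h3 : (p : ℤ) ∣ ((t'.val : ℤ) - t.val) * c := by
      rw [← pk_mul hp.pos (n + d)]
      push_cast at h2 ⊢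
      linear_combination h2
    have h4 : t = t' := by
      have := ((Nat.prime_iff_prime_int.1 hp).dvd_or_dvd h3).resolve_right hc
      rw [← ZMod.intCast_eq_intCast_iff_dvd_sub] at this
      simpa using this
    subst h4
    rw [add_left_inj] at h1
    subst h1
    rfl
  · rintro ⟨x, hx⟩
    obtain ⟨h1, w, h2⟩ := (hA x).1 hx
    obtain ⟨w, rfl⟩ := ZMod.intCast_surjective w
    have hc0 : (c : ZMod p) ≠ 0 := by rwa [Ne, ZMod.intCast_zmod_eq_zero_iff_dvd]
    set t : ZMod p := (w : ZMod p) / c with ht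
    have h3 : (p : ℤ) ∣ w + (-(t.val : ℤ)) * c := by
      rw [← ZMod.intCast_zmod_eq_zero_iff_dvd]
      push_cast
      rw [ZMod.natCast_zmod_val, ht]
      field_simp
      ring
    rw [← pk_mul hp.pos (n + d)] at h3
    refine ⟨(⟨x + Pi.single i ((-(t.val : ℤ) : ℤ) * P ^ n), (key x h1 _).1, ?_⟩, t),
      Subtype.ext ?_⟩
    · rw [(key x h1 _).2, h2]
      push_cast at h3 ⊢
      linear_combination h3
    · dsimp only
      rw [add_assoc x, ← Pi.single_add]
      simp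

end SmoothAux

open SmoothAux

theorem smooth : SmoothStmt := by
  intro ζ _ p _ f l a hl h
  have hp : p.Prime := Fact.out
  rcases h with h | ⟨i, h⟩
  · obtain ⟨d, hd⟩ := exists_val h
    refine ⟨d + 1, fun E hE a' ha => Good.of_finite (d + 1) (fun k hk => ?_)⟩
    obtain ⟨c, hc, e⟩ := hd a' ha
    have : IsEmpty {x // InB p E a' f k x} := ⟨fun ⟨x, h1, h2⟩ => hc (by
      obtain ⟨z, hz⟩ := near hE h1 f
      have h3 := (ball_iff hk 0 (aeval a' f)).1 ⟨z, by rw [← hz, h2]⟩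
      rw [map_zero, e] at h3
      rw [← pk_mul hp.pos d, h3]
      push_cast
      rfl)⟩
    simp [den]
  · obtain ⟨d, hd⟩ := exists_val h
    refine ⟨d + 1, fun E hE a' ha => ?_⟩
    obtain ⟨c, hc, e⟩ := hd a' ha
    have hp0 : (p : ℂ) ≠ 0 := by exact_mod_cast hp.ne_zero
    refine Good.of_shift (p : ℂ)⁻¹ 1 (fun T hT h1 => hl ?_)
      (Good.of_finite (E + d + 1) (fun k hk => ?_))
    · rw [pow_one, inv_mul_eq_one₀ hp0] at h1
      rw [← h1, Complex.norm_natCast] at hT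
      have h2 : (1 : ℝ) < p := by exact_mod_cast hp.one_lt
      have h3 : (p : ℝ) ^ l = (p : ℝ) ^ (1 : ℝ) := by rw [Real.rpow_one, ← hT]
      exact le_antisymm ((Real.rpow_le_rpow_left_iff h2).1 h3.le)
        ((Real.rpow_le_rpow_left_iff h2).1 h3.ge)
    · obtain ⟨n, rfl⟩ : ∃ n, k = n + d + 1 := ⟨k - d - 1, by omega⟩
      have h1 := congrArg (Nat.cast : ℕ → ℂ) (step hE hc e (by omega : E ≤ n))
      push_cast at h1
      rw [if_pos (by omega), Nat.add_sub_cancel, den, den, eq_div_of_mul_eq hp0 h1, pow_succ]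
      field_simp
      ring

theorem compact : CompStmt := by
  intro ζ _ p _ f l h
  classical
  have hp : p.Prime := Fact.out
  choose E0 hE0 using h
  obtain ⟨t, -, ht⟩ := isCompact_univ.elim_nhds_subcover
    (fun a : ζ → ℤ_[p] => {x | ∀ i, (p : ℤ_[p]) ^ E0 a ∣ x i - a i}) (fun a _ => by
      have h0 : (0 : ℝ) < (p : ℝ) ^ (-(E0 a : ℤ)) := zpow_pos (by exact_mod_cast hp.pos) _
      refine Filter.mem_of_superset (Metric.closedBall_mem_nhds a h0) (fun x hx i => ?_)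
      rw [← Ideal.mem_span_singleton, ← PadicInt.norm_le_pow_iff_mem_span_pow, ← dist_eq_norm]
      exact (dist_le_pi_dist x a i).trans hx)
  set E := t.sup E0 with hE
  have : NeZero (p ^ E) := ⟨pow_ne_zero _ hp.ne_zero⟩
  refine (Good.sum (univ : Finset (ζ → ZMod (p ^ E)))
    (f := fun α => den p ζ (InB p E (fun i => ((α i).val : ℤ)) f)) (fun α _ => ?_)).eventually E
    (fun k hk => ?_)
  · obtain ⟨a, ha, h1⟩ := Set.mem_iUnion₂.1 (ht (Set.mem_univ
      (fun i => (((α i).val : ℤ) : ℤ_[p]))))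
    exact hE0 a E (le_sup ha) _ h1
  · have : NeZero (p ^ k) := ⟨pow_ne_zero _ hp.ne_zero⟩
    simp only [den]
    rw [← sum_mul, ← Nat.cast_sum]
    congr 2
    simp only [Nat.card_eq_fintype_card, Fintype.card_subtype]
    rw [card_eq_sum_card_fiberwise (f := fun x i => rd p hk (x i)) (t := univ) (by simp)]
    refine sum_congr rfl (fun α _ => congrArg card ?_)
    ext x
    simp only [mem_filter, mem_univ, true_and, InB, ball_iff hk, funext_iff]
    simp only [Int.cast_natCast, ZMod.natCast_zmod_val]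
    exact and_comm

end Pool.Agent.MP_5d9b3c_ag.H48L
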