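import Pool.Agent.MP_5d9b3c_ag.H48L.Spec2
import Pool.Agent.MP_5d9b3c_ag.H69.DA
import Pool.Agent.MP_5d9b3c_ag.H69.DB
import Pool.Agent.MP_5d9b3c_ag.H69.DC
import Pool.Agent.MP_5d9b3c_ag.H69.MA
import Pool.Agent.MP_5d9b3c_ag.H69.MB
import Pool.Agent.MP_5d9b3c_ag.H69.Hyp

/-!
Stabilisation: the functional equation and the series.
-/

namespace Pool.Agent.MP_5d9b3c_ag.H48L

open Finset MvPolynomial Pool.Agent.MP_5d9b3c_ag.H69

namespace Stab

open DB in
lemma model0 {K : Type} [Field K] (ι ρ κ : Type) [Fintype ρ] (f : MvPolynomial ι K)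
    (b : Polynomial K) (hb : LB Set.univ f 1 b) :
    LB Set.univ (rename Sum.inl f + ∑ j : ρ, X (iμ j) * X (iy j) : MvPolynomial (Idx ι ρ κ) K) 1
      (sh b (Fintype.card ρ : K)) := by
  classical
  set u : MvPolynomial (Idx ι ρ κ) K := ∑ j : ρ, X (iμ j) * X (iy j) with hu
  obtain ⟨k, hk⟩ := pb K _ (MvPolynomial (Idx ι ρ κ) K) (rename Sum.inl) Set.univ
    {V | V u = 0} 1 1 (fun D _ =>
      ⟨mkDerivation K (Sum.elim (fun i => rename Sum.inl (D (X i))) fun _ => 0),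
        by simp [hu, map_sum, Derivation.leibniz, mkDerivation_X],
        ext_der _ _ _ _ fun i => by simp [mkDerivation_X]⟩) f 1 b hb
  simp only [one_mul, one_pow, map_one] at hk
  have hA : ∀ j : ρ, pderiv (iμ j) u = X (iy j) := fun j => by
    simp [hu, map_sum, Derivation.leibniz, pderiv_X, Pi.single_apply]
  have hB : ∀ j : ρ, pderiv (iy j) u = X (iμ j) := fun j => by
    simp [hu, map_sum, Derivation.leibniz, pderiv_X, Pi.single_apply]
  have := hypD K _ ρ {V | V u = 0} (rename Sum.inl f) u 1 1 (Fintype.card ρ : K)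
    (mkDerivation K (Sum.elim (fun _ => 0) (Sum.elim (fun j => X (iμ j)) fun _ => 0)))
    (fun j => pderiv (iμ j)) (fun j => pderiv (iy j)) (fun V hV => hV)
    (by simp [hu, map_sum, Derivation.leibniz, mkDerivation_X, mul_comm])
    (kill _ (fun i => by simp [mkDerivation_X]) f) (fun j => pd_inr _ f) (fun j => pd_inr _ f)
    (by simp [hB, Nat.cast_smul_eq_nsmul])
    (by simp only [hA, hB, one_mul]; exact sum_congr rfl fun j _ => mul_comm _ _) b hk
  rw [one_mul] at this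
  exact this

variable {p : ℕ} [hp : Fact p.Prime]

lemma lc_of_level {ι : Type} [Fintype ι] {Θ : (ι → ℤ_[p]) → ℂ} {k : ℕ} (h : ∀ z z' : ι → ℤ_[p],
    (∀ i, PadicInt.toZModPow k (z i) = PadicInt.toZModPow k (z' i)) → Θ z = Θ z') :
    IsLocallyConstant Θ := by
  rw [IsLocallyConstant.iff_eventually_eq]
  intro z
  have h0 : (0 : ℝ) < (p : ℝ) ^ (-(k : ℤ)) := zpow_pos (by exact_mod_cast hp.out.pos) _
  filter_upwards [Metric.closedBall_mem_nhds z h0] with y hy
  exact h _ _ ((norm_le_iff k _ _).1 (mem_closedBall_iff_norm.1 hy))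

/-- The density of the zeros in a ball as a mean value. -/
lemma bridge {ζ : Type} [Fintype ζ] (F : MvPolynomial ζ ℤ) (a : ζ → ℤ) {E k : ℕ} (hk : E ≤ k) :
    den p ζ (InB p E a F) k = (((p : ℂ) ^ Fintype.card ζ)⁻¹) ^ E * MP p (fun z : ζ → ℤ_[p] =>
      ind p k (aeval (fun i => (a i : ℚ_[p]) + (p : ℚ_[p]) ^ E * (z i : ℚ_[p])) F)) := by
  classical
  obtain ⟨Θ, hΘ⟩ : ∃ Θ : (ζ → ℤ_[p]) → ℂ, ∀ z, Θ z =
      if InB p E a F k (fun i => PadicInt.toZModPow k (z i)) then 1 else 0 := ⟨_, fun _ => rfl⟩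
  have h1 : ∀ z z' : ζ → ℤ_[p],
      (∀ i, PadicInt.toZModPow k (z i) = PadicInt.toZModPow k (z' i)) → Θ z = Θ z' :=
    fun z z' hz => by simp only [hΘ, hz]
  have h2 : den p ζ (InB p E a F) k = MP p Θ := by
    rw [MP_eq h1, den, mul_comm]
    simp only [hΘ, toZModPow_lft, sum_boole, Nat.card_eq_fintype_card, Fintype.card_subtype]
  have h3 : IsLocallyConstant (fun z : ζ → ℤ_[p] => Θ (z + fun i => (a i : ℤ_[p]))) :=
    (lc_of_level h1).comp_continuous (by fun_prop)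
  have h4 := (mB mA).lattice ζ 1 ((p : ℤ_[p]) ^ E • 1) E _ h3 (one_mul _)
  simp only [Matrix.one_mulVec] at h4
  rw [h2, ← MBAux.trans mA (lc_of_level h1) (fun i => (a i : ℤ_[p])), h4, sum_eq_single 0]
  · congr 2
    ext w
    have e : ∀ i, (lft p (0 : ζ → ZMod (p ^ E)) + (p : ℤ_[p]) ^ E • w + fun i => (a i : ℤ_[p])) i =
        (a i : ℤ_[p]) + (p : ℤ_[p]) ^ E * w i := fun i => by simp [lft, add_comm]
    have e2 := MAx.map_aeval (PadicInt.Coe.ringHom (p := p))
      (fun i => (a i : ℤ_[p]) + (p : ℤ_[p]) ^ E * w i) F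
    simp only [map_add, map_mul, map_pow, map_intCast, map_natCast] at e2
    rw [hΘ, ind]
    simp only [e]
    refine if_congr ?_ rfl rfl
    rw [InB, ← MAx.map_aeval, ← MAx.norm_le]
    refine (and_iff_right fun i => ⟨PadicInt.toZModPow k (w i), by simp⟩).trans ?_
    exact Iff.of_eq (congrArg (fun t => ‖t‖ ≤ (p : ℝ) ^ (-(k : ℤ))) e2)
  · intro β _ hβ
    refine Eq.trans ?_ (MP_const (p := p) (ι := ζ) 0)
    congr 1
    ext w
    rw [hΘ, if_neg]
    rintro ⟨h5, -⟩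
    refine hβ (funext fun i => ?_)
    obtain ⟨y, hy⟩ := h5 i
    have h6 := congrArg (ZMod.castHom (pow_dvd_pow p hk) (ZMod (p ^ E))) hy
    have h7 : (p : ZMod (p ^ E)) ^ E = 0 := by rw [← Nat.cast_pow, ZMod.natCast_self]
    rw [← RingHom.comp_apply, PadicInt.zmod_cast_comp_toZModPow _ _ hk, map_add, map_mul,
      map_pow, map_natCast, map_intCast, h7] at h6
    simpa [toZModPow_lft, h7] using h6
  · simp

end Stab

theorem stabB : StabBStmt := by
  intro ζ ρ κ _ _ _ f b l hb hl hl1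
  refine ⟨sh b (Fintype.card ρ : ℂ), ?_, ?_⟩
  · have := DC.isB_of_lb (Stab.model0 ζ ρ κ _ b (DC.lb_of_isB hb))
    simp only [stab, map_add, map_sum, map_mul, map_X, map_rename]
    exact this
  · have h1 : -(Fintype.card ρ : ℂ) + -(l : ℂ) + 1 ≠ 0 := by
      intro h
      apply hl1
      have : ((l + (Fintype.card ρ : ℕ) : ℝ) : ℂ) = (1 : ℝ) := by
        push_cast
        linear_combination -h
      exact_mod_cast this
    simpa [sh, Polynomial.eval_comp, h1] using hl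

theorem stabP : StabPStmt := by
  intro ζ ρ κ _ _ _ p hp f l a hl0 hl1 ⟨E0, h⟩
  refine ⟨E0, fun E hE a' ha' => ?_⟩
  have h0 : ((((p : ℂ) ^ Fintype.card (ζ ⊕ ρ ⊕ ρ ⊕ κ))⁻¹) ^ E) ≠ 0 := by
    have : (p : ℂ) ≠ 0 := by exact_mod_cast hp.out.ne_zero
    positivity
  have h1 := (h E hE (Sum.elim a' 0) (by rintro (i | i); exacts [ha' i, by simp])).const_mul
    ((((p : ℂ) ^ Fintype.card (ζ ⊕ ρ ⊕ ρ ⊕ κ))⁻¹) ^ E)⁻¹
  have hc : Continuous (fun z : ζ → ℤ_[p] =>
      aeval (fun i => (a' i : ℚ_[p]) + (p : ℚ_[p]) ^ E * (z i : ℚ_[p])) f) := by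
    simp only [aeval_eq_eval₂Hom, coe_eval₂Hom, ← eval_map]
    have : ∀ i, Continuous (fun z : ζ → ℤ_[p] => (z i : ℚ_[p])) :=
      fun i => continuous_subtype_val.comp (continuous_apply i)
    exact (MvPolynomial.continuous_eval _).comp (continuous_pi fun i => continuous_const.add
      (continuous_const.mul (this i)))
  have h2 := hypS mA (mB mA) ζ ρ κ l _ (2 * E) hc hl0 hl1 (h1.eventually E fun k hk => by
    rw [Stab.bridge _ _ hk, inv_mul_cancel_left₀ h0]
    congr 1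
    ext z
    congr 1
    simp only [stab, map_add, map_sum, map_mul, aeval_X, aeval_rename, mul_sum, Sum.elim_inr,
      Pi.zero_apply, Int.cast_zero, zero_add]
    congr 1
    exact sum_congr rfl fun j _ => by ring)
  exact (h2.const_mul _).eventually E fun k hk => Stab.bridge _ _ hk

end Pool.Agent.MP_5d9b3c_ag.H48L
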