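import Pool.Agent.MP_5d9b3c_ag.H48L.Basic

/-!
Adding hyperbolic planes shifts the polynomial of the functional equation.
-/

namespace Pool.Agent.MP_5d9b3c_ag.H48L

open Finset MvPolynomial Pool.Agent.MP_5d9b3c_ag.H22 Pool.Agent.MP_5d9b3c_ag.H48N

namespace TSAux

variable {ζ τ ρ : Type}

lemma pderiv_off (ι : ζ → τ) {j : τ} (hj : ∀ i, ι i ≠ j) (h : MvPolynomial ζ ℂ) :
    pderiv j (rename ι h) = 0 := by
  induction h using MvPolynomial.induction_on with
  | C r => simp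
  | add p q hp hq => rw [map_add, map_add, hp, hq, add_zero]
  | mul_X p i hp =>
    rw [map_mul, rename_X, Derivation.leibniz, hp, pderiv_X_of_ne (hj i), smul_zero, smul_zero,
      add_zero]

/-- Operators extend to more variables. -/
lemma lift {ι : ζ → τ} (hι : Function.Injective ι) {P : Module.End ℂ (MvPolynomial ζ ℂ)}
    (hP : P ∈ WW ζ) : ∃ P' ∈ WW τ, ∀ r, (∀ i, pderiv (ι i) r = 0) → ∀ h,
      P' (r * rename ι h) = r * rename ι (P h) := by
  induction hP using Algebra.adjoin_induction with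
  | mem x hx =>
    rcases hx with ⟨i, rfl⟩ | ⟨i, rfl⟩
    · exact ⟨_, mul_mem_WW (X (ι i)), fun r _ h => by simp [mul_left_comm]⟩
    · exact ⟨_, pderiv_mem_WW (ι i), fun r hr h => by simp [hr, pderiv_rename hι]⟩
  | algebraMap c =>
    exact ⟨_, (WW τ).algebraMap_mem c, fun r _ h => by simp [Module.algebraMap_end_apply]⟩
  | add x y _ _ hx hy =>
    obtain ⟨x', hx1, hx2⟩ := hx
    obtain ⟨y', hy1, hy2⟩ := hy
    exact ⟨x' + y', add_mem hx1 hy1, fun r hr h => by simp [hx2 r hr, hy2 r hr, mul_add]⟩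
  | mul x y _ _ hx hy =>
    obtain ⟨x', hx1, hx2⟩ := hx
    obtain ⟨y', hy1, hy2⟩ := hy
    exact ⟨x' * y', mul_mem hx1 hy1, fun r hr h => by simp [hx2 r hr, hy2 r hr]⟩

/-- The difference quotient of a polynomial, as a family of operators. -/
lemma quot {θ : Module.End ℂ (MvPolynomial τ ℂ)} (hθ : θ ∈ WW τ) (a b : Polynomial ℂ) :
    ∃ c, PW c ∧ ∀ (m : ℕ) (z : ℂ) v, θ v = z • v →
      (a.eval (m : ℂ) - z) • c m v = (b.eval (a.eval (m : ℂ)) - b.eval z) • v := by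
  induction b using Polynomial.induction_on with
  | C r => exact ⟨_, PW.const (zero_mem _), fun m z v _ => by simp⟩
  | add p q hp hq =>
    obtain ⟨c, h1, h2⟩ := hp
    obtain ⟨c', h3, h4⟩ := hq
    refine ⟨_, h1.add h3, fun m z v hv => ?_⟩
    rw [LinearMap.add_apply, smul_add, h2 m z v hv, h4 m z v hv, ← add_smul, Polynomial.eval_add,
      Polynomial.eval_add]
    congr 1
    ring
  | monomial n r hp =>
    obtain ⟨c, h1, h2⟩ := hp
    refine ⟨_, ((PW.const (one_mem _)).poly ((Polynomial.C r * Polynomial.X ^ n).comp a)).add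
      (h1.mul (PW.const hθ)), fun m z v hv => ?_⟩
    rw [LinearMap.add_apply, Module.End.mul_apply, hv, map_smul, smul_add, smul_comm _ z,
      h2 m z v hv, LinearMap.smul_apply, Module.End.one_apply, smul_smul, smul_smul, ← add_smul]
    congr 1
    simp only [Polynomial.eval_comp, Polynomial.eval_mul, Polynomial.eval_C, Polynomial.eval_pow,
      Polynomial.eval_X]
    ring

lemma euler (j : τ) (i : ℕ) {r : MvPolynomial τ ℂ} (hr : pderiv j r = 0) :
    X j * pderiv j (X j ^ i * r) = (i : ℂ) • (X j ^ i * r) := by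
  rw [Derivation.leibniz, hr, smul_zero, zero_add, Derivation.leibniz_pow, pderiv_X_self,
    Nat.cast_smul_eq_nsmul]
  cases i with
  | zero => simp
  | succ i =>
    simp only [Nat.add_sub_cancel, smul_eq_mul, nsmul_eq_mul]
    ring

lemma pow_eig {M : Type} [AddCommGroup M] [Module ℂ M] {θ : Module.End ℂ M} {z : ℂ} {v : M}
    (h : θ v = z • v) (t : ℕ) : (θ ^ t) v = z ^ t • v := by
  induction t with
  | zero => simp
  | succ t ih => rw [pow_succ', Module.End.mul_apply, ih, map_smul, h, smul_smul, pow_succ]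

variable [Fintype ρ]

/-- The quadratic form. -/
noncomputable def QQ (ζ ρ : Type) [Fintype ρ] : MvPolynomial ((ζ ⊕ ρ) ⊕ Option ρ) ℂ :=
  ∑ s, X (Sum.inr (some s)) * X (Sum.inl (Sum.inr s))

lemma QQ_x (i : ζ) : pderiv (Sum.inl (Sum.inl i)) (QQ ζ ρ) = 0 := by
  simp [QQ, pderiv_X_of_ne]

lemma QQ_0 : pderiv (Sum.inr none) (QQ ζ ρ) = 0 := by
  simp [QQ, pderiv_X_of_ne]

lemma QQ_y (s : ρ) : pderiv (Sum.inr (some s)) (QQ ζ ρ) = X (Sum.inl (Sum.inr s)) := by
  classical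
  simp [QQ, pderiv_X, Pi.single_apply]

lemma QQ_u (s : ρ) : pderiv (Sum.inl (Sum.inr s)) (QQ ζ ρ) = X (Sum.inr (some s)) := by
  classical
  simp [QQ, pderiv_X, Pi.single_apply]

end TSAux

open TSAux in
theorem ts : TSStmt := by
  intro ζ ρ _ _ f b ⟨d, P, hP, hb⟩
  have hι : Function.Injective fun i : ζ => (Sum.inl (Sum.inl i) : (ζ ⊕ ρ) ⊕ Option ρ) :=
    Sum.inl_injective.comp Sum.inl_injective
  choose P' hP' hl using fun t => lift hι (hP t)
  obtain ⟨ι, hι'⟩ : ∃ ι : MvPolynomial ζ ℂ →ₐ[ℂ] MvPolynomial ((ζ ⊕ ρ) ⊕ Option ρ) ℂ,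
    ι = rename fun i => Sum.inl (Sum.inl i) := ⟨_, rfl⟩
  have o1 : ∀ o h, pderiv (Sum.inr o) (ι h) = 0 := fun o h => hι' ▸ pderiv_off _ (by simp) h
  have o2 : ∀ s h, pderiv (Sum.inl (Sum.inr s)) (ι h) = 0 := fun s h =>
    hι' ▸ pderiv_off _ (by simp) h
  obtain ⟨G, hG⟩ : ∃ G, G = X (Sum.inr none) * ι f + QQ ζ ρ := ⟨_, rfl⟩
  have e : cay (fun o : Option ρ => o.elim (rename Sum.inl f) (fun s => X (Sum.inr s)) :
      Option ρ → MvPolynomial (ζ ⊕ ρ) ℂ) = G := by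
    simp [cay, Fintype.sum_option, hG, hι', QQ, rename_rename, Function.comp_def]
  rw [← hι'] at hl
  rw [e, isB_iff]
  obtain ⟨θ, hθ, hθ'⟩ : ∃ θ ∈ WW ((ζ ⊕ ρ) ⊕ Option ρ), ∀ v,
      θ v = X (Sum.inr none) * pderiv (Sum.inr none) v :=
    ⟨_, mul_mem (mul_mem_WW _) (pderiv_mem_WW _), fun _ => rfl⟩
  obtain ⟨c, hc, hc'⟩ := quot hθ (Polynomial.X + Polynomial.C (Fintype.card ρ : ℂ)) b
  have hv : ∀ (i k : ℕ) h, θ (X (Sum.inr none) ^ i * QQ ζ ρ ^ k * ι h) =
      (i : ℂ) • (X (Sum.inr none) ^ i * QQ ζ ρ ^ k * ι h) := fun i k h => by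
    rw [hθ', mul_assoc]
    exact euler _ i (by simp [o1, QQ_0])
  have g0 : pderiv (Sum.inr none) G = ι f := by simp [hG, o1, QQ_0]
  have g1 : ∀ s, pderiv (Sum.inr (some s)) G = X (Sum.inl (Sum.inr s)) := fun s => by
    simp [hG, o1, QQ_y, pderiv_X_of_ne]
  have g2 : ∀ s, pderiv (Sum.inl (Sum.inr s)) G = X (Sum.inr (some s)) := fun s => by
    simp [hG, o2, QQ_u, pderiv_X_of_ne]
  refine ⟨_, (PW.const (mul_mem (sum_mem fun t (_ : t ∈ range d) =>
    mul_mem (pow_mem hθ t) (hP' t)) (pderiv_mem_WW (Sum.inr none)))).add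
    (hc.mul (PW.const (sum_mem fun s (_ : s ∈ (univ : Finset ρ)) =>
      mul_mem (pderiv_mem_WW (Sum.inl (Sum.inr s))) (pderiv_mem_WW (Sum.inr (some s)))))),
    fun m => ?_⟩
  obtain ⟨x, hx⟩ : ∃ x, x = (Polynomial.X + Polynomial.C (Fintype.card ρ : ℂ)).eval (m : ℂ) :=
    ⟨_, rfl⟩
  have k1 : ∑ s, pderiv (Sum.inl (Sum.inr s)) (pderiv (Sum.inr (some s)) (G ^ (m + 1))) =
      (m + 1) • (x • G ^ m - θ (G ^ m)) := by
    have a1 : m • (G ^ (m - 1) * QQ ζ ρ) = (m : ℂ) • G ^ m - θ (G ^ m) := by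
      rw [hθ', Derivation.leibniz_pow, g0, Nat.cast_smul_eq_nsmul,
        show QQ ζ ρ = G - X (Sum.inr none) * ι f by rw [hG]; ring]
      cases m with
      | zero => simp
      | succ m =>
        simp only [Nat.add_sub_cancel, smul_eq_mul, nsmul_eq_mul]
        ring
    have a2 : ∀ s, pderiv (Sum.inl (Sum.inr s)) (pderiv (Sum.inr (some s)) (G ^ (m + 1))) =
        (m + 1) • (G ^ m + m • (G ^ (m - 1) *
          (X (Sum.inr (some s)) * X (Sum.inl (Sum.inr s))))) := fun s => by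
      rw [Derivation.leibniz_pow, g1, map_nsmul, smul_eq_mul, Derivation.leibniz, Nat.add_sub_cancel,
        Derivation.leibniz_pow, g2, pderiv_X_self]
      simp only [smul_eq_mul, nsmul_eq_mul]
      ring
    simp only [a2]
    rw [← smul_sum, sum_add_distrib, ← smul_sum, ← mul_sum, ← QQ, a1, sum_const, card_univ, hx,
      Polynomial.eval_add, Polynomial.eval_X, Polynomial.eval_C, add_smul (m : ℂ),
      Nat.cast_smul_eq_nsmul ℂ (Fintype.card ρ)]
    congr 1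
    abel
  have k2 : ∀ i k : ℕ, (∑ t ∈ range d, θ ^ t * P' t) (ι f * (X (Sum.inr none) ^ i * QQ ζ ρ ^ k *
      ι (f ^ i))) + c m (x • (X (Sum.inr none) ^ i * QQ ζ ρ ^ k * ι (f ^ i)) -
        θ (X (Sum.inr none) ^ i * QQ ζ ρ ^ k * ι (f ^ i))) =
      b.eval x • (X (Sum.inr none) ^ i * QQ ζ ρ ^ k * ι (f ^ i)) := fun i k => by
    rw [hv, ← sub_smul, map_smul, hx, hc' m i _ (hv i k _), mul_left_comm, ← map_mul, ← pow_succ',
      LinearMap.sum_apply]
    have a1 : ∀ t, (θ ^ t * P' t) (X (Sum.inr none) ^ i * QQ ζ ρ ^ k * ι (f ^ (i + 1))) =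
        X (Sum.inr none) ^ i * QQ ζ ρ ^ k * ι ((i : ℂ) ^ t • P t (f ^ (i + 1))) := fun t => by
      rw [Module.End.mul_apply, hl t _ (fun j => by simp [QQ_x, pderiv_X_of_ne]),
        pow_eig (hv i k _), map_smul, mul_smul_comm]
    simp only [a1]
    rw [← mul_sum, ← map_sum, hb, map_smul, mul_smul_comm, ← add_smul, add_sub_cancel]
  have k3 : (∑ t ∈ range d, θ ^ t * P' t) (ι f * G ^ m) + c m (x • G ^ m - θ (G ^ m)) =
      b.eval x • G ^ m := by
    have a1 : G ^ m = ∑ i ∈ range (m + 1), m.choose i •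
        (X (Sum.inr none) ^ i * QQ ζ ρ ^ (m - i) * ι (f ^ i)) := by
      rw [hG, add_pow]
      exact sum_congr rfl fun i _ => by
        rw [map_pow, nsmul_eq_mul]
        ring
    rw [a1, mul_sum, map_sum, map_sum, smul_sum, ← sum_sub_distrib, map_sum, ← sum_add_distrib,
      smul_sum]
    refine sum_congr rfl fun i _ => ?_
    rw [mul_smul_comm, map_nsmul, map_nsmul, smul_comm x, ← smul_sub, map_nsmul, ← smul_add, k2,
      smul_comm]
  simp only [LinearMap.add_apply, Module.End.mul_apply, LinearMap.sum_apply (univ : Finset ρ),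
    Derivation.coeFn_coe]
  rw [k1, Derivation.leibniz_pow, g0, Nat.add_sub_cancel, smul_eq_mul, mul_comm, map_nsmul,
    map_nsmul, ← smul_add, k3, Polynomial.eval_mul, Polynomial.eval_comp, ← hx, mul_smul,
    ← Nat.cast_smul_eq_nsmul ℂ]
  simp

end Pool.Agent.MP_5d9b3c_ag.H48L
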