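import Pool.Agent.MP_5d9b3c_ag.H48L.Basic
import Pool.Agent.MP_5d9b3c_ag.H48N.Uns

/-!
Uniform estimates for all integer approximations of the coefficients.
-/

namespace Pool.Agent.MP_5d9b3c_ag.H48L

open Finset Pool.Agent.MP_5d9b3c_ag.H22 Pool.Agent.MP_5d9b3c_ag.H48N

lemma null_padic {ι κ : Type} [Fintype ι] {p : ℕ} [hp : Fact p.Prime] (φ : ℤ_[p] →+* ℂ)
    (hφ : Function.Injective φ) {A : κ → ι → ℕ} {w : ι → κ → ℤ_[p]} {J : Finset κ}
    (h : ∀ x : ι → ℂ, (∀ i, x i ≠ 0) → ∃ i, ∑ j ∈ J, φ (w i j) * ∏ i', x i' ^ A j i' ≠ 0) :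
    ∃ N : ℕ, ∀ x : ι → ℤ, (∀ i, ¬ (p : ℤ) ∣ x i) →
      ¬ ∀ i, (p : ℤ_[p]) ^ N ∣ ∑ j ∈ J, w i j * ∏ i', (x i' : ℤ_[p]) ^ A j i' := by
  by_contra hne
  push Not at hne
  choose x h1 h2 using hne
  obtain ⟨y, -, ψ, hψ, hy⟩ := isCompact_univ.tendsto_subseq
    (x := fun n i => (x n i : ℤ_[p])) (fun _ => Set.mem_univ _)
  have hp1 : (1 : ℝ) < p := by exact_mod_cast hp.out.one_lt
  obtain ⟨i, hi⟩ := h (fun i => φ (y i)) (fun i => by
    rw [map_ne_zero_iff φ hφ, ← norm_ne_zero_iff]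
    have h3 := (tendsto_pi_nhds.1 hy i).norm
    have h4 : (fun n => ‖((fun n i => (x n i : ℤ_[p])) ∘ ψ) n i‖) = fun _ => 1 := funext fun n =>
      le_antisymm (PadicInt.norm_le_one _)
        (not_lt.1 (fun h5 => h1 _ _ ((PadicInt.norm_int_lt_one_iff_dvd _).1 h5)))
    rw [h4] at h3
    rw [tendsto_nhds_unique h3 tendsto_const_nhds]
    exact one_ne_zero)
  have hc : Continuous (fun z : ι → ℤ_[p] => ∑ j ∈ J, w i j * ∏ i', z i' ^ A j i') := by fun_prop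
  have h3 := ((hc.tendsto y).comp hy).norm
  have h4 : Filter.Tendsto (fun n : ℕ => ((p : ℝ)⁻¹) ^ n) Filter.atTop (nhds 0) :=
    tendsto_pow_atTop_nhds_zero_of_lt_one (by positivity) (inv_lt_one_of_one_lt₀ hp1)
  have h5 := le_of_tendsto_of_tendsto' h3 h4 (fun n => by
    have := (PadicInt.norm_le_pow_iff_mem_span_pow _ n).2
      (Ideal.mem_span_singleton.2 ((pow_dvd_pow _ (hψ.id_le n)).trans (h2 (ψ n) i)))
    simpa using this)
  refine hi ?_
  have h6 := congrArg φ (norm_le_zero_iff.1 h5)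
  simpa using h6

theorem unifA' : UnifAStmt := by
  intro ι κ _ _ p hp φ hφ A c hnd
  classical
  by_contra hne
  push Not at hne
  choose c' hc' L μ k h1 h2 x h3 h4 using hne
  obtain ⟨S, n0, hS⟩ := seq_alt (fun n => Sum.elim (L n) (k n))
  obtain ⟨J, hJ⟩ : ∃ J : Finset κ, ∀ j, j ∈ J ↔ Sum.inr j ∈ S :=
    ⟨univ.filter (fun j => Sum.inr j ∈ S), by simp⟩
  obtain ⟨n1, _, h5, h6⟩ := hS (∑ a, Sum.elim (L n0) (k n0) a)
  have h7 : ∀ a ∉ S, Sum.elim (L n0) (k n0) a < Sum.elim (L n1) (k n1) a := fun a ha =>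
    lt_of_le_of_lt (single_le_sum (f := Sum.elim (L n0) (k n0)) (fun _ _ => Nat.zero_le _)
      (mem_univ a)) (h6 a ha)
  have h8 : ∀ i, L n0 i ≤ L n1 i := fun i => by
    by_cases h : Sum.inl i ∈ S
    · exact (h5 _ h).ge
    · exact (h7 _ h).le
  have h9 : ∀ j, ∑ i, (L n1 i - L n0 i) * A j i + (μ n0 + k n0 j) = μ n1 + k n1 j := fun j => by
    rw [← h1, ← h1, ← sum_add_distrib]
    exact sum_congr rfl (fun i _ => by rw [← add_mul, Nat.sub_add_cancel (h8 i)])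
  have h10 : ∀ j, (j ∈ J → k n1 j = k n0 j) ∧ (j ∉ J → k n0 j < k n1 j) := fun j =>
    ⟨fun h => h5 _ ((hJ j).1 h), fun h => h7 (Sum.inr j) (fun h' => h ((hJ j).2 h'))⟩
  obtain ⟨j1, hj1⟩ := h2 n1
  have hj1' : j1 ∈ J := by
    by_contra h
    have := (h10 j1).2 h
    omega
  have h11 : ∀ j, μ n1 - μ n0 ≤ ∑ i, (L n1 i - L n0 i) * A j i ∧
      (j ∈ J ↔ ∑ i, (L n1 i - L n0 i) * A j i = μ n1 - μ n0) := fun j => by
    have := h9 j
    have := h9 j1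
    have := (h10 j1).1 hj1'
    by_cases h : j ∈ J
    · have := (h10 j).1 h
      exact ⟨by omega, fun _ => by omega, fun _ => h⟩
    · have := (h10 j).2 h
      exact ⟨by omega, fun h' => absurd h' h, fun _ => by omega⟩
  have hface := hnd (fun i => L n1 i - L n0 i) J ⟨j1, hj1'⟩
    ⟨μ n1 - μ n0, fun j => (h11 j).1, fun j => (h11 j).2⟩
  obtain ⟨N, hN⟩ := null_padic φ hφ (A := A) (J := J)
    (w := fun i j => A j i * ((p : ℤ_[p]) ^ k n0 j * c j)) (fun y hy => by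
    obtain ⟨i, hi⟩ := hface (fun i => (p : ℂ) ^ L n0 i * y i)
      (fun i => mul_ne_zero (pow_ne_zero _ p_ne_zero) (hy i))
    refine ⟨i, fun h => hi ?_⟩
    rw [← mul_zero ((p : ℂ) ^ μ n0), ← h, mul_sum]
    refine sum_congr rfl (fun j _ => ?_)
    simp only [mul_pow, prod_mul_distrib, ← pow_mul, prod_pow_eq_pow_sum, h1, pow_add, map_mul,
      map_pow, map_natCast]
    ring)
  obtain ⟨n, h11, h12, h13⟩ := hS N
  refine hN (x n) (h3 n) (fun i => ?_)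
  have h15 := (pow_dvd_pow _ h11).trans (h4 n i)
  rw [← sum_add_sum_compl J] at h15
  have h16 : (p : ℤ) ^ N ∣ ∑ j ∈ Jᶜ, A j i * ((p : ℤ) ^ k n j * mon A (c' n) j (x n)) :=
    dvd_sum (fun j hj => ((pow_dvd_pow _ (h13 (Sum.inr j) (fun h =>
      mem_compl.1 hj ((hJ j).2 h))).le).mul_right _).mul_left _)
  have h17 := map_dvd (Int.castRingHom ℤ_[p]) ((dvd_add_left h16).1 h15)
  have h18 : (p : ℤ_[p]) ^ N ∣ ∑ j ∈ J, ((c' n j : ℤ_[p]) - c j) *
      (A j i * (p : ℤ_[p]) ^ k n0 j * ∏ i', (x n i' : ℤ_[p]) ^ A j i') :=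
    dvd_sum (fun j _ => ((pow_dvd_pow _ h11).trans (hc' n j)).mul_right _)
  simp only [map_pow, map_natCast, map_sum] at h17
  convert dvd_sub h17 h18 using 1
  rw [← sum_sub_distrib]
  refine sum_congr rfl (fun j hj => ?_)
  have : k n j = k n0 j := h12 _ ((hJ j).1 hj)
  simp only [mon, this, eq_intCast]
  push_cast
  ring

open UnsAux in
theorem unifB' (h : LiftStmt) : UnifBStmt := by
  intro ι κ _ _ _ _ p hp φ hφ a c T F B hnd hBF hl _ hs
  by_contra hne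
  push Not at hne
  choose c' hc' L m k h1 h2 x h3 h4 using hne
  obtain ⟨S, n0, hS⟩ := seq_alt (fun n => Sum.elim (L n) (k n))
  obtain ⟨n1, _, h5, h6⟩ := hS (∑ a, Sum.elim (L n0) (k n0) a)
  have h7 : ∀ a ∉ S, Sum.elim (L n0) (k n0) a < Sum.elim (L n1) (k n1) a := fun a ha =>
    lt_of_le_of_lt (single_le_sum (f := Sum.elim (L n0) (k n0)) (fun _ _ => Nat.zero_le _)
      (mem_univ a)) (h6 a ha)
  have h8 : ∀ i, L n0 i ≤ L n1 i := fun i => by
    by_cases h : Sum.inl i ∈ S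
    · exact (h5 _ h).ge
    · exact (h7 _ h).le
  have h10 : ∀ j, (Sum.inr j ∈ S → k n1 j = k n0 j) ∧ (Sum.inr j ∉ S → k n0 j < k n1 j) :=
    fun j => ⟨h5 _, h7 (Sum.inr j)⟩
  obtain ⟨E, hE⟩ : ∃ E : ℕ → ι → ℤ, ∀ n i,
    E n i = (L n i : ℤ) - if i ∈ B then (m n i : ℤ) else 0 := ⟨_, fun _ _ => rfl⟩
  have hE' : ∀ n, ∀ i ∈ B, ∀ j ∈ T, a j i ≠ 0 → ∑ i', E n i' * a j i' = k n j :=
    fun n i hi j hj h0 => by
      simp only [hE]
      exact expo hl hi hj h0 (h1 n i hi j hj h0)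
  obtain ⟨d, hd⟩ : ∃ d : ι → ℚ, ∀ i, d i = ((E n1 i - E n0 i : ℤ) : ℚ) := ⟨_, fun _ => rfl⟩
  have hd' : ∀ i ∈ B, ∀ j ∈ T, a j i ≠ 0 → d ⬝ᵥ Aq a j = (k n1 j : ℚ) - k n0 j :=
    fun i hi j hj h0 => by
      have e : ∑ i', (E n1 i' - E n0 i') * a j i' = (k n1 j : ℤ) - k n0 j := by
        simp only [sub_mul, sum_sub_distrib, hE' _ i hi j hj h0]
      simp only [dotProduct, hd, Aq]
      exact_mod_cast e
  have hz : ∀ i ∈ B, ∀ j ∈ T, a j i ≠ 0 → (d ⬝ᵥ Aq a j = 0 ↔ Sum.inr j ∈ S) :=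
    fun i hi j hj h0 => by
      rw [hd' i hi j hj h0, sub_eq_zero, Nat.cast_inj]
      exact ⟨fun e => by_contra fun h' => ((h10 j).2 h').ne' e, (h10 j).1⟩
  have hface : ¬ Solv a (fun b => φ (c b)) (T.filter (fun j => d ⬝ᵥ Aq a j = 0)) B :=
    fun h' => hs (h ι κ a _ T F B hnd hBF hl d (fun i hi => by
      rw [hd, hE, hE, if_neg (fun h => hi (hBF h)), if_neg (fun h => hi (hBF h))]
      have := h8 i
      exact_mod_cast (by omega : (0 : ℤ) ≤ (L n1 i : ℤ) - 0 - (L n0 i - 0))) (fun j hj => by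
      obtain ⟨hj, i, hi, h0⟩ := mem_MA.1 hj
      rw [hd' i hi j hj h0, sub_nonneg, Nat.cast_le]
      by_cases h' : Sum.inr j ∈ S
      · exact ((h10 j).1 h').ge
      · exact ((h10 j).2 h').le) (fun i hi => by
      obtain ⟨j, hj, h0, e⟩ := h2 n1 i hi
      refine ⟨j, mem_filter.2 ⟨hj, (hz i hi j hj h0).2 ?_⟩, h0⟩
      by_contra h'
      have := (h10 j).2 h'
      omega) h')
  obtain ⟨N, hN⟩ := null_padic φ hφ (A := fun j i => a j i)
    (w := fun i j => if i ∈ B then a j i * ((p : ℤ_[p]) ^ k n0 j * c j) else 0)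
    (J := T.filter (fun j => Sum.inr j ∈ S)) (fun y hy => by
      by_contra hc
      push Not at hc
      refine hface ⟨fun i => (p : ℂ) ^ E n0 i * y i,
        fun i => mul_ne_zero (zpow_ne_zero _ p_ne_zero) (hy i), fun i hi => ?_⟩
      rw [← hc i, sum_filter, sum_filter]
      refine sum_congr rfl (fun j hj => ?_)
      by_cases h0 : a j i = 0
      · simp [h0]
      simp only [hz i hi j hj h0, if_pos hi]
      split_ifs
      · have : ∏ i', ((p : ℂ) ^ E n0 i') ^ a j i' = (p : ℂ) ^ k n0 j := by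
          simp only [← zpow_natCast, ← zpow_mul]
          rw [prod_zpow_eq p_ne_zero, hE' n0 i hi j hj h0]
        simp only [mul_pow, prod_mul_distrib, this, map_mul, map_pow, map_natCast]
        ring
      · rfl)
  obtain ⟨n, h11, h12, h13⟩ := hS N
  refine hN (x n) (h3 n) (fun i => ?_)
  by_cases hi : i ∈ B
  swap
  · simp [hi]
  have h15 := (pow_dvd_pow _ h11).trans (h4 n i hi)
  rw [← sum_filter_add_sum_filter_not T (fun j => Sum.inr j ∈ S)] at h15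
  have h16 : (p : ℤ) ^ N ∣ ∑ j ∈ T.filter (fun j => ¬ Sum.inr j ∈ S),
      a j i * ((p : ℤ) ^ k n j * (c' n j * ∏ i', x n i' ^ a j i')) :=
    dvd_sum (fun j hj => ((pow_dvd_pow _ (h13 (Sum.inr j) (mem_filter.1 hj).2).le).mul_right
      _).mul_left _)
  have h17 := map_dvd (Int.castRingHom ℤ_[p]) ((dvd_add_left h16).1 h15)
  have h18 : (p : ℤ_[p]) ^ N ∣ ∑ j ∈ T.filter (fun j => Sum.inr j ∈ S), ((c' n j : ℤ_[p]) - c j) *
      (a j i * (p : ℤ_[p]) ^ k n0 j * ∏ i', (x n i' : ℤ_[p]) ^ a j i') :=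
    dvd_sum (fun j _ => ((pow_dvd_pow _ h11).trans (hc' n j)).mul_right _)
  simp only [map_pow, map_natCast, map_sum] at h17
  convert dvd_sub h17 h18 using 1
  rw [← sum_sub_distrib]
  refine sum_congr rfl (fun j hj => ?_)
  have : k n j = k n0 j := h12 _ (mem_filter.1 hj).2
  simp only [this, if_pos hi, eq_intCast]
  push_cast
  ring

end Pool.Agent.MP_5d9b3c_ag.H48L
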