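import Pool.Agent.MP_5d9b3c_ag.H48L.Basic

/-!
The common zeros of the big system.
-/

namespace Pool.Agent.MP_5d9b3c_ag.H48L

open Finset MvPolynomial Pool.Agent.MP_5d9b3c_ag.H22 Pool.Agent.MP_5d9b3c_ag.H48N

namespace ZeroAux

variable {p : ℕ} [hp : Fact p.Prime] {k : ℕ}

lemma dvd_iff (hk : k ≠ 0) (x : ZMod (p ^ k)) :
    (p : ZMod (p ^ k)) ∣ x ↔ ZMod.castHom (dvd_pow_self p hk) (ZMod p) x = 0 := by
  constructor
  · rintro ⟨y, rfl⟩
    rw [map_mul, map_natCast, ZMod.natCast_self, zero_mul]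
  · obtain ⟨n, rfl⟩ := ZMod.natCast_zmod_surjective x
    rw [map_natCast, ZMod.natCast_eq_zero_iff]
    exact fun h => Nat.cast_dvd_cast h

lemma unit_iff (hk : k ≠ 0) (x : ZMod (p ^ k)) : IsUnit x ↔ ¬ (p : ZMod (p ^ k)) ∣ x := by
  rw [dvd_iff hk]
  refine ⟨fun h => (h.map _).ne_zero, ?_⟩
  obtain ⟨n, rfl⟩ := ZMod.natCast_zmod_surjective x
  rw [map_natCast, ZMod.natCast_eq_zero_iff, ZMod.isUnit_iff_coprime]
  exact fun h => ((Nat.Prime.coprime_iff_not_dvd hp.out).2 h).symm.pow_right k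

lemma prod_unit (hk : k ≠ 0) (x : ZMod (p ^ k)) :
    IsUnit (∏ c ∈ (range p).erase 1, (x - (c : ZMod (p ^ k)))) ↔ (p : ZMod (p ^ k)) ∣ x - 1 := by
  rw [IsUnit.prod_iff]
  simp only [unit_iff hk, dvd_iff hk, map_sub, map_natCast, map_one, sub_eq_zero,
    mem_erase, mem_range]
  generalize ZMod.castHom (dvd_pow_self p hk) (ZMod p) x = y
  constructor
  · intro h
    by_contra h1
    refine h y.val ⟨fun h2 => h1 ?_, ZMod.val_lt y⟩ (ZMod.natCast_zmod_val y).symm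
    rw [← ZMod.natCast_zmod_val y, h2, Nat.cast_one]
  · rintro rfl c ⟨h1, h2⟩ h3
    have h4 := congrArg ZMod.val h3
    rw [ZMod.val_one, ZMod.val_natCast_of_lt h2] at h4
    exact h1 h4.symm

lemma cancel {E : ℕ} (hk : E < k) {x : ZMod (p ^ k)} (h : (p : ZMod (p ^ k)) ^ E * x = 0) :
    (p : ZMod (p ^ k)) ∣ x := by
  by_contra h1
  rw [((unit_iff (by omega) x).2 h1).mul_left_eq_zero, ← Nat.cast_pow, ZMod.natCast_eq_zero_iff,
    Nat.pow_dvd_pow_iff_le_right hp.out.one_lt] at h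
  omega

variable {ζ I : Type} [Fintype ζ]

/-- the parametrisation of the ball -/
def par (E : ℕ) (a : ζ → ℤ) (U : ζ → ZMod (p ^ k)) : ζ → ZMod (p ^ k) :=
  fun i => (a i : ZMod (p ^ k)) - (p : ZMod (p ^ k)) ^ E + (p : ZMod (p ^ k)) ^ E * U i

lemma eqs_iff (E : ℕ) (a : ζ → ℤ) (Φ : ζ ⊕ I → MvPolynomial (ζ ⊕ I) ℤ_[p])
    (h η : MvPolynomial (ζ ⊕ I) ℤ_[p]) (x : ζ ⊕ Option (ζ ⊕ I) → ZMod (p ^ k)) :
    (∀ o, ev k x (eqs E a Φ h η o) = 0) ↔ evh (x ∘ vx ζ I) h = 0 ∧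
      x (Sum.inr none) * (evh (x ∘ vx ζ I) η *
        ∏ i, ∏ c ∈ (range p).erase 1, (x (Sum.inl i) - (c : ZMod (p ^ k)))) = 1 ∧
      ∀ s, evh (x ∘ vx ζ I) (Φ s) = Sum.elim (par E a (x ∘ Sum.inl)) 0 s := by
  rw [Option.forall, Option.forall]
  refine and_congr ?_ (and_congr ?_ (forall_congr' fun s => ?_))
  · simp [eqs, ev_eq, evh_rename]
  · simp [eqs, et, ev_eq, evh_rename, evh_X, sub_eq_zero, eq_comm (a := (1 : ZMod (p ^ k)))]
  · rcases s with s | s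
    · simp [eqs, xs, ev_eq, evh_rename, evh_X, sub_eq_zero, par]
    · simp [eqs, ev_eq, evh_rename]

end ZeroAux

open ZeroAux in
theorem zero (hF : FibStmt) : ZeroStmt := by
  intro ζ I _ _ _ _ p hp j f a Φ h u η D
  obtain ⟨M, q, h1, h2⟩ := D.lin
  obtain ⟨δ, c₁, h3, h4, h5⟩ := hF _ p M _ q Φ h1 h2
  refine ⟨δ, fun E hE a' ha => ?_⟩
  obtain ⟨δ', c₂, h6, -, h7⟩ := hF ζ p (Matrix.diagonal fun _ => (p : ℤ_[p]) ^ E)
    (fun i => (a' i : ℤ_[p]) - (p : ℤ_[p]) ^ E) (fun _ => 0)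
    (fun i => C ((a' i : ℤ_[p]) - (p : ℤ_[p]) ^ E) + C ((p : ℤ_[p]) ^ E) * X i)
    (by
      rw [Matrix.det_diagonal]
      exact prod_ne_zero_iff.2 fun _ _ => pow_ne_zero _ (Nat.cast_ne_zero.2 hp.out.ne_zero))
    (fun s => by
      rw [sum_eq_single s (fun t _ ht => by simp [Matrix.diagonal_apply_ne' _ ht]) (by simp)]
      simp)
  refine ⟨c₂ * c₁, E + 1 + δ', mul_ne_zero h6 h3, fun k hk => ?_⟩
  have hk0 : k ≠ 0 := by omega
  have hf : ∀ (X : ζ ⊕ I → ZMod (p ^ k)) (z : ζ → ZMod (p ^ k)),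
      (∀ s, evh X (Φ s) = Sum.elim z 0 s) → (evh X h = 0 ↔ aeval z f = 0) := by
    intro X z hz
    have k1 : Ideal.span (Set.range fun s => Φ (Sum.inr s)) ≤ RingHom.ker (evh X) :=
      Ideal.span_le.2 (by rintro _ ⟨s, rfl⟩; exact hz _)
    have k2 := RingHom.mem_ker.1 (k1 D.mem)
    obtain ⟨r, hr⟩ := D.u1
    have k3 : IsUnit (evh X u) := by simpa [hr] using isUnit_one_add (evh X r)
    rw [map_sub, map_mul, evh_aeval, sub_eq_zero] at k2
    simp only [hz, Sum.elim_inl] at k2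
    rw [k2, k3.mul_right_eq_zero]
  have hη : ∀ X : ζ ⊕ I → ZMod (p ^ k), IsUnit (evh X η) := fun X => by
    obtain ⟨r, hr⟩ := D.e1
    simpa [hr] using isUnit_one_add (evh X r)
  have hb : ∀ U : ζ → ZMod (p ^ k), (∀ i, ∃ y, par E a' U i = (a' i : ZMod (p ^ k)) +
      (p : ZMod (p ^ k)) ^ (E + 1) * y) ↔
      IsUnit (∏ i, ∏ c ∈ (range p).erase 1, (U i - (c : ZMod (p ^ k)))) := by
    intro U
    rw [IsUnit.prod_univ_iff]
    refine forall_congr' fun i => ?_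
    rw [prod_unit hk0, par]
    constructor
    · rintro ⟨y, hy⟩
      obtain ⟨w, hw⟩ := cancel (show E < k by omega) (x := U i - 1 - (p : ZMod (p ^ k)) * y)
        (by linear_combination hy)
      exact ⟨w + y, by linear_combination hw⟩
    · rintro ⟨y, hy⟩
      exact ⟨y, by linear_combination (p : ZMod (p ^ k)) ^ E * hy⟩
  let e : {x : ζ ⊕ Option (ζ ⊕ I) → ZMod (p ^ k) // ∀ o, ev k x (eqs E a' Φ h η o) = 0} ≃
      Σ z : {x : ζ → ZMod (p ^ k) // InB p (E + 1) a' f k x}, {U // par E a' U = z.1} ×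
        {X : ζ ⊕ I → ZMod (p ^ k) // ∀ s, ev k X (Φ s) = Sum.elim z.1 0 s} :=
    { toFun := fun x => ⟨⟨par E a' (x.1 ∘ Sum.inl), by
          obtain ⟨k1, k2, k3⟩ := (eqs_iff _ _ _ _ _ _).1 x.2
          exact ⟨(hb _).2 (isUnit_of_mul_isUnit_right (IsUnit.of_mul_eq_one_right _ k2)),
            (hf _ _ k3).1 k1⟩⟩, ⟨_, rfl⟩, ⟨x.1 ∘ vx ζ I, ((eqs_iff _ _ _ _ _ _).1 x.2).2.2⟩⟩
      invFun := fun y => ⟨Sum.elim y.2.1.1 fun o => o.elim (Ring.inverse (evh y.2.2.1 η *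
          ∏ i, ∏ c ∈ (range p).erase 1, (y.2.1.1 i - (c : ZMod (p ^ k))))) y.2.2.1, by
        obtain ⟨⟨z, k1, k2⟩, ⟨U, k4⟩, X, k3⟩ := y
        obtain rfl : par E a' U = z := k4
        exact (eqs_iff _ _ _ _ _ _).2 ⟨(hf X _ k3).2 k2,
          Ring.inverse_mul_cancel _ ((hη X).mul ((hb U).1 k1)), k3⟩⟩
      left_inv := fun x => Subtype.ext (funext fun i => by
        rcases i with i | _ | i
        · rfl
        · have k2 := ((eqs_iff _ _ _ _ _ _).1 x.2).2.1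
          exact (Ring.eq_mul_inverse_iff_mul_eq _ _ _ (IsUnit.of_mul_eq_one_right _ k2)).2 k2
            |>.trans (one_mul _) |>.symm
        · rfl)
      right_inv := by
        rintro ⟨⟨z, k1⟩, ⟨U, k4⟩, X, k3⟩
        obtain rfl : par E a' U = z := k4
        rfl }
  have : NeZero (p ^ k) := ⟨pow_ne_zero _ hp.out.ne_zero⟩
  have := Fintype.ofFinite {x : ζ → ZMod (p ^ k) // InB p (E + 1) a' f k x}
  rw [Nat.card_congr e, Nat.card_sigma, sum_congr rfl (g := fun _ => c₂ * c₁), sum_const,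
    card_univ, Nat.card_eq_fintype_card, smul_eq_mul, mul_comm]
  rintro ⟨z, k1⟩ -
  choose y hy using k1.1
  choose r hr using ha
  obtain ⟨w, hw⟩ := h4 k (Sum.elim (fun i => PadicInt.toZModPow k (r i) +
    (p : ZMod (p ^ k)) ^ (E + 1 - δ) * y i) 0)
  rw [Nat.card_prod, h5 k (by omega) (Sum.elim z 0) w,
    ← h7 k (by omega) z fun i => 1 + (p : ZMod (p ^ k)) * y i]
  · congr 1
    refine Nat.card_congr (Equiv.subtypeEquivRight fun U => ?_)
    simp [funext_iff, par, ev_eq, evh_X]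
  · intro s
    rw [sum_eq_single s (fun t _ ht => by simp [Matrix.diagonal_apply_ne' _ ht]) (by simp), hy]
    simp only [Matrix.diagonal_apply_eq, map_sub, map_pow, map_intCast, map_natCast]
    ring
  · intro s
    rw [← hw]
    rcases s with s | s
    · have k3 := congrArg (PadicInt.toZModPow k) (hr s)
      simp only [map_sub, map_mul, map_pow, map_intCast, map_natCast] at k3
      simp only [Sum.elim_inl, hy]
      rw [mul_add, ← mul_assoc, ← pow_add, Nat.add_sub_cancel' (by omega)]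
      linear_combination k3
    · simp

end Pool.Agent.MP_5d9b3c_ag.H48L
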