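import Pool.Agent.MP_5d9b3c_ag.H48L.Local
import Pool.Agent.MP_5d9b3c_ag.H48L.Unif2
import Pool.Agent.MP_5d9b3c_ag.H48L.GlobP
import Pool.Agent.MP_5d9b3c_ag.H48L.TS
import Pool.Agent.MP_5d9b3c_ag.H48L.ET
import Pool.Agent.MP_5d9b3c_ag.H48L.BigB
import Pool.Agent.MP_5d9b3c_ag.H48L.Loc2
import Pool.Agent.MP_5d9b3c_ag.H48L.Cay
import Pool.Agent.MP_5d9b3c_ag.H48L.Mod
import Pool.Agent.MP_5d9b3c_ag.H48L.Ext
import Pool.Agent.MP_5d9b3c_ag.H48L.NormX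
import Pool.Agent.MP_5d9b3c_ag.H48L.Cnt
import Pool.Agent.MP_5d9b3c_ag.H48L.Zero
import Pool.Agent.MP_5d9b3c_ag.H48L.Smooth
import Pool.Agent.MP_5d9b3c_ag.H48L.Gen
import Pool.Agent.MP_5d9b3c_ag.H48L.Stab
import Pool.Agent.MP_5d9b3c_ag.H69.PT
import Pool.Agent.MP_5d9b3c_ag.H69.MA

/-!
The theorem on locally nondegenerate polynomials.
-/

namespace Pool.Agent.MP_5d9b3c_ag.H48L

open Finset MvPolynomial Pool.Agent.MP_5d9b3c_ag.H22 Pool.Agent.MP_5d9b3c_ag.H48N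

theorem main_all : MainStmt :=
  mainT (localI extend (modify trans) cayley (bigB ts etale) (globP unifA' (unifB' lift)) count
    (zero fibre)) (shift loc2 normX generic trans) stabB stabP smooth compact

theorem final (n p : ℕ) [hp : Fact p.Prime] (j : ℚ_[p] →+* ℂ) (f : MvPolynomial (Fin n) ℤ)
    (hdeg : f.totalDegree ≠ 0)
    (hc : ∀ a : Fin n → ℤ_[p], aeval a f = 0 → (∀ i, aeval a (pderiv i f) = 0) →
      ∃ (r k m : ℕ) (c : (Fin n ⊕ Fin r ⊕ Fin r ⊕ Fin k) ⊕ Fin m → ℚ_[p]) (Φ : _) (h u : _),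
        Pre (stab (Fin r) (Fin k) f) (Sum.elim a 0) c Φ h u ∧
        NDAt (fun i => j (c i)) (fun o => map j (sy h Φ o)))
    (A B : Polynomial ℚ) (hAB : IsCoprime A B)
    (hP : (B : PowerSeries ℚ) * PowerSeries.mk (fun m : ℕ =>
      (Nat.card {x : Fin n → ZMod (p ^ m) // aeval x f = 0} : ℚ) * (((p : ℚ) ^ n)⁻¹) ^ m) =
        (A : PowerSeries ℚ)) (T : ℂ) (hT : Polynomial.aeval T B = 0) (b : Polynomial ℂ)
    (hb : IsB (map (Int.castRingHom ℂ) f) b)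
    (hl : b.eval (-((Real.log ‖T‖ / Real.log p : ℝ) : ℂ)) ≠ 0) : False := by
  have hs : (fun m : ℕ => (((Nat.card {x : Fin n → ZMod (p ^ m) // aeval x f = 0} : ℚ) *
      (((p : ℚ) ^ n)⁻¹) ^ m : ℚ) : ℂ)) = H69.cnt p f := by
    ext m
    simp [H69.cnt]
  have h1 : 1 < ‖T‖ := by
    refine H69.noPole _ (A.map (algebraMap ℚ ℂ)) (B.map (algebraMap ℚ ℂ)) T
      (H69.decayS (p := p) H69.mA n f (by rintro rfl; simp at hdeg))
      (hAB.map (Polynomial.mapRingHom (algebraMap ℚ ℂ))) ?_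
      (by rwa [Polynomial.eval_map_algebraMap])
    have h3 := congrArg (PowerSeries.map (algebraMap ℚ ℂ)) hP
    rw [map_mul, ← Polynomial.polynomial_map_coe, ← Polynomial.polynomial_map_coe] at h3
    rw [← h3, ← hs]
    rfl
  refine no_pole hp.out hAB hP hT ?_
  rw [hs]
  exact main_all (Fin n) p j f hdeg hc b _
    (div_pos (Real.log_pos h1) (Real.log_pos (by exact_mod_cast hp.out.one_lt))) hb hl

end Pool.Agent.MP_5d9b3c_ag.H48L
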