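import Pool.Agent.MP_5d9b3c_ag.H48L.Spec2
import Pool.Agent.MP_5d9b3c_ag.H22.Lift

/-!
Assembly of the local statement, and the poles of the generating series.
-/

namespace Pool.Agent.MP_5d9b3c_ag.H48L

open Finset MvPolynomial Pool.Agent.MP_5d9b3c_ag.H22 Pool.Agent.MP_5d9b3c_ag.H48N

/-- Points with an integral chart. -/
def LocalIStmt : Prop :=
  ∀ (ζ I : Type) [Fintype ζ] [DecidableEq ζ] [Fintype I] [DecidableEq I] (p : ℕ) [Fact p.Prime]
    (j : ℤ_[p] →+* ℂ), Function.Injective j → ∀ (f : MvPolynomial ζ ℤ) (a : ζ → ℤ_[p])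
    (Φ : ζ ⊕ I → MvPolynomial (ζ ⊕ I) ℤ_[p]) (h u η : MvPolynomial (ζ ⊕ I) ℤ_[p]),
    IData j f a Φ h u η → ∀ (b : Polynomial ℂ) (l : ℝ), IsB (map (Int.castRingHom ℂ) f) b →
    b.eval (-(l : ℂ)) ≠ 0 → BG p f l a

theorem localI (hE : ExtStmt) (hM : ModStmt) (hC : CayStmt) (hB : BigBStmt)
    (hG : GlobPStmt) (hK : CntStmt) (hZ : ZeroStmt) : LocalIStmt := by
  intro ζ I _ _ _ _ p hp j hj f a Φ' h' u' η' hd b l hb hl
  obtain ⟨E0, hE0⟩ := hZ ζ I p _ f a Φ' h' u' η' hd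
  refine ⟨E0 + 1, fun E hE1 a' ha => ?_⟩
  obtain ⟨E, rfl⟩ : ∃ E', E = E' + 1 := ⟨E - 1, by omega⟩
  obtain ⟨c, k0, hc0, hcnt⟩ := hE0 E (by omega) a'
    (fun i => (pow_dvd_pow _ (Nat.le_succ _)).trans (ha i))
  obtain ⟨e1, e2, e3, e4⟩ := hE ζ I p _ f a Φ' h' u' η' hd E a'
  obtain ⟨lam, hl0, hnd⟩ := hM _ _ p _ hj (eqs E a' Φ' h' η') (et η') (Sum.inr none) (some none)
    rfl e1 e2 e3 e4
  have hF := hG _ p _ hj (cay (md (eqs E a' Φ' h' η') lam (some none))) _
    (l + (Fintype.card (Option (ζ ⊕ I)) : ℕ)) (by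
      rw [map_cay]
      exact hC _ _ _ hnd) (hB ζ I p _ f a Φ' h' u' η' hd E a' b hb lam hl0) (by
      rw [Polynomial.eval_comp, Polynomial.eval_add, Polynomial.eval_X, Polynomial.eval_C,
        Complex.ofReal_add, Complex.ofReal_natCast, neg_add, neg_add_cancel_right]
      exact hl)
  have hp0 : (p : ℂ) ≠ 0 := p_ne_zero
  have hp1 : 1 - (p : ℂ)⁻¹ ≠ 0 := by
    rw [show 1 - (p : ℂ)⁻¹ = (p - 1) / p by field_simp]
    exact div_ne_zero p_sub_one_ne_zero hp0
  have hc1 : (c : ℂ) ≠ 0 := by exact_mod_cast hc0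
  refine Good.scale (N := Fintype.card (Option (ζ ⊕ I))) hp.out.pos
    ((hF.const_mul ((1 - (p : ℂ)⁻¹) * c)⁻¹).eventually (k0 + 1) (fun k hk => ?_))
  rw [hK _ _ p _ k (by omega), den, den]
  simp only [ev_eq, md_zero_iff (evh _) hl0]
  have := hcnt k (by omega)
  simp only [ev_eq] at this
  rw [this, Fintype.card_sum (α := ζ) (β := Option (ζ ⊕ I)), pow_add, mul_inv ((p : ℂ) ^ _),
    mul_pow, Nat.cast_mul]
  generalize 1 - (p : ℂ)⁻¹ = r at hp1
  field_simp

lemma map_aff {ζ R S : Type} [CommRing R] [CommRing S] (j : R →+* S) (c : ζ → R) (r : R)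
    (q : MvPolynomial ζ R) : map j (aff c r q) = aff (fun i => j (c i)) (j r) (map j q) := by
  induction q using MvPolynomial.induction_on with
  | C c => simp [aff]
  | add p q hp hq => simp only [map_add, hp, hq]
  | mul_X p i hp => rw [map_mul, map_mul, map_mul, map_mul, hp]; simp [aff]

lemma aff_eq_zero {ζ K : Type} [Field K] {c : ζ → K} {r : K} (hr : r ≠ 0) {q : MvPolynomial ζ K}
    (h : aff c r q = 0) : q = 0 := by
  have : ∀ q : MvPolynomial ζ K, aff (fun i => -(r⁻¹ * c i)) r⁻¹ (aff c r q) = q := fun q => by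
    induction q using MvPolynomial.induction_on with
    | C c => simp [aff]
    | add p q hp hq => simp only [map_add, hp, hq]
    | mul_X p i hp =>
      rw [map_mul, map_mul, hp]
      congr 1
      have h1 : (C r * C r⁻¹ : MvPolynomial ζ K) = 1 := by rw [← C_mul, mul_inv_cancel₀ hr, C_1]
      simp only [aff, aeval_X, map_add, map_mul, aeval_C, algebraMap_eq, map_neg]
      linear_combination (X i - C (c i)) * h1
  rw [← this q, h, map_zero]

lemma NRel.smul {ζ I : Type} [Fintype ζ] [Fintype I] {w : ζ → ℕ} {x : ζ → ℂ}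
    {e : I → MvPolynomial ζ ℂ} (κ : I → ℂ) (hκ : ∀ o, κ o ≠ 0) (h : NRel Set.univ w x e) :
    NRel Set.univ w x (fun o => C (κ o) * e o) := by
  have key : ∀ o, fc w (C (κ o) * e o) = C (κ o) * fc w (e o) := fun o => by
    have h1 : ∀ q : MvPolynomial ζ ℂ, scl 1 q = q := fun q => by
      ext α
      simp [coeff_scl]
    simpa only [h1] using fc_scl (w := w) one_ne_zero (hκ o) (e o)
  intro y hy hz
  obtain ⟨t, ht⟩ := h (fun o => y o * κ o) (fun h0 => hy (funext fun o => by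
    simpa [hκ o] using congrFun h0 o)) (fun o ho => ⟨trivial, by
    simpa [key, hκ o] using (hz o (left_ne_zero_of_mul ho)).2⟩)
  refine ⟨t, ?_⟩
  simpa only [key, pderiv_C_mul, map_mul, eval_C, mul_assoc] using ht

/-- Every chart gives an integral chart. -/
def ShiftStmt : Prop :=
  ∀ (ζ I : Type) [Fintype ζ] [DecidableEq ζ] [Fintype I] [DecidableEq I] (p : ℕ) [Fact p.Prime]
    (j : ℚ_[p] →+* ℂ) (f : MvPolynomial ζ ℤ) (a : ζ → ℤ_[p]) (c : ζ ⊕ I → ℚ_[p])
    (Φ : ζ ⊕ I → MvPolynomial (ζ ⊕ I) ℚ_[p]) (h u : MvPolynomial (ζ ⊕ I) ℚ_[p]),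
    Pre f a c Φ h u → NDAt (fun i => j (c i)) (fun o => map j (sy h Φ o)) →
    ∃ (Φ' : ζ ⊕ I → MvPolynomial (ζ ⊕ I) ℤ_[p]) (h' u' η' : MvPolynomial (ζ ⊕ I) ℤ_[p]),
      IData (j.comp PadicInt.Coe.ringHom) f a Φ' h' u' η'

theorem shift (hL : Loc2Stmt) (hN : NormXStmt) (hG : GenStmt) (hT : TransStmt) : ShiftStmt := by
  intro ζ I _ _ _ _ p hp j f a c Φ h u hpre hnd
  classical
  obtain ⟨η, hη, hloc⟩ := hL _ _ _ j c _ hnd
  obtain ⟨e, he⟩ := hN ζ I p j f a c Φ h u (η * ∏ i ∈ univ.filter (fun i => c i ≠ 0), X i) hpre (by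
    rw [map_mul, map_prod]
    exact mul_ne_zero hη (prod_ne_zero_iff.2 (fun i hi => by simpa using hi)))
  obtain ⟨K, γ, hK, hD⟩ := hT (ζ ⊕ I) ((ζ ⊕ I) ⊕ (Σ o : Option I, (sy h Φ o).support)) p
    (j.comp PadicInt.Coe.ringHom) (j.injective.comp Subtype.val_injective)
    (Sum.elim (fun i => j (c i)) (fun s => j (coeff s.2.1 (sy h Φ s.1))))
  obtain ⟨Φ', h', u', η', κ, hd, hs, hη'⟩ := he (fun i => if c i = 0 then 0 else γ i)
  have hp0 : (p : ℂ) ≠ 0 := p_ne_zero
  set c' : ζ ⊕ I → ℚ_[p] := fun i =>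
    c i + (p : ℚ_[p]) ^ (e + 1) * ((if c i = 0 then 0 else γ i : ℤ_[p]) : ℚ_[p]) with hc'
  have hc0 : ∀ i, j (c' i) ≠ 0 → c i ≠ 0 := fun i hi h0 => hi (by simp [hc', h0])
  have hnd' : LocND Set.univ (fun o => map (j.comp PadicInt.Coe.ringHom) (sy h' Φ' o))
      (map (j.comp PadicInt.Coe.ringHom) η') := by
    intro w x hx hw
    have h1 := hη' _ hw
    rw [map_mul, map_mul, map_prod, map_prod] at h1
    have h2 := hG _ _ K (fun o => map j (sy h Φ o)) (map j η) (fun i => j (c' i)) ((p : ℂ) ^ e)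
      (pow_ne_zero _ hp0) (fun o α => by
        rw [coeff_map]
        by_cases hα : α ∈ (sy h Φ o).support
        · exact hK (Sum.inr ⟨o, α, hα⟩)
        · rw [notMem_support_iff.1 hα, map_zero]
          exact K.zero_mem) (fun i hi => by
        obtain ⟨D, hD⟩ := hD i
        refine ⟨((p : ℂ) ^ (e + 1))⁻¹ • D, fun i' => ?_⟩
        by_cases h0 : c i' = 0
        · have : i' ≠ i := fun h3 => hc0 i hi (h3 ▸ h0)
          simp [hc', h0, this]
        · have h3 : D (j (c i')) = 0 := D.map_algebraMap ⟨_, hK (Sum.inl i')⟩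
          have h4 := hD i'
          have h5 : j (c' i') = j (c i') + ((p ^ (e + 1) : ℕ) : ℂ) *
              (j.comp PadicInt.Coe.ringHom) (γ i') := by
            simp only [hc', if_neg h0, map_add, map_mul, map_pow, map_natCast, Nat.cast_pow]
            rfl
          rw [h5, Derivation.smul_apply, map_add, h3, Derivation.leibniz, Derivation.map_natCast,
            h4, smul_zero, zero_add, add_zero, smul_smul, Nat.cast_pow,
            inv_mul_cancel₀ (pow_ne_zero _ hp0), one_smul]) hloc w x hx (fun i hi => by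
        simpa only [map_X, eval_X] using
          prod_ne_zero_iff.1 (right_ne_zero_of_mul h1) i (by simpa using hc0 i hi))
      (left_ne_zero_of_mul h1)
    have h3 := h2.smul (fun o => j (κ o)) (fun o => (map_ne_zero j).2 (hs o).1)
    convert h3 using 2 with o
    rw [← MvPolynomial.map_map, (hs o).2, map_mul, map_C, map_aff, map_pow, map_natCast]
  refine ⟨Φ', h', u', η', hd.lin, hd.mem, hd.u1, hd.e1, fun o h0 => ?_, hnd', hd.et⟩
  refine (hnd (fun i => if c i = 0 then 1 else 0) (fun i => if c i = 0 then 1 else j (c i))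
    (fun i => by by_cases h1 : c i = 0 <;> simp [h1]) (fun i => by by_cases h1 : c i = 0 <;> simp [h1])
    (fun i hi => if_neg (fun h1 => hi (by simp [h1])))).ne o ?_
  have h1 := (hs o).2
  rw [h0, map_zero, eq_comm, mul_eq_zero, C_eq_zero] at h1
  rw [aff_eq_zero (pow_ne_zero _ (Nat.cast_ne_zero.2 hp.out.ne_zero)) (h1.resolve_left (hs o).1),
    map_zero]

open Cardinal in
theorem exists_emb (p : ℕ) [Fact p.Prime] : Nonempty (AlgebraicClosure ℚ_[p] ≃+* ℂ) := by
  have h1 : #ℚ_[p] ≤ 𝔠 := mk_quotient_le.trans ((mk_subtype_le _).trans (by simp))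
  have h3 : #(AlgebraicClosure ℚ_[p]) = 𝔠 := le_antisymm
    ((Algebra.IsAlgebraic.cardinalMk_le_max ℚ_[p] _).trans (max_le h1 aleph0_le_continuum))
    ((continuum_le_cardinal_of_nontriviallyNormedField ℚ_[p]).trans
      (mk_le_of_injective (algebraMap ℚ_[p] (AlgebraicClosure ℚ_[p])).injective))
  exact IsAlgClosed.ringEquiv_of_equiv_of_charZero (h3 ▸ aleph0_lt_continuum)
    (Cardinal.eq.1 (h3.trans Cardinal.mk_complex.symm))

/-- A good series has no pole on the circle. -/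
theorem no_pole {p : ℕ} (hp : p.Prime) {s : ℕ → ℚ} {A B : Polynomial ℚ} (hAB : IsCoprime A B)
    (hP : (B : PowerSeries ℚ) * PowerSeries.mk s = (A : PowerSeries ℚ)) {T : ℂ}
    (hT : Polynomial.aeval T B = 0)
    (h : Good p (Real.log ‖T‖ / Real.log p) (fun m => (s m : ℂ))) : False := by
  obtain ⟨R, C, h1, h2⟩ := h
  have h3 := congrArg (PowerSeries.map (algebraMap ℚ ℂ)) hP
  rw [map_mul, ← Polynomial.polynomial_map_coe, ← Polynomial.polynomial_map_coe] at h3
  have h4 : PowerSeries.map (algebraMap ℚ ℂ) (PowerSeries.mk s) =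
      PowerSeries.mk (fun m : ℕ => (s m : ℂ)) := by
    ext m
    simp
  rw [h4] at h3
  have h5 : R * A.map (algebraMap ℚ ℂ) = B.map (algebraMap ℚ ℂ) * C := by
    apply Polynomial.coe_injective
    rw [Polynomial.coe_mul, Polynomial.coe_mul, ← h1, ← h3]
    ring
  have h6 : IsCoprime (A.map (algebraMap ℚ ℂ)) (B.map (algebraMap ℚ ℂ)) :=
    hAB.map (Polynomial.mapRingHom (algebraMap ℚ ℂ))
  obtain ⟨Q, hQ⟩ : B.map (algebraMap ℚ ℂ) ∣ R := h6.symm.dvd_of_dvd_mul_right ⟨C, h5⟩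
  have hT0 : T ≠ 0 := by
    rintro rfl
    obtain ⟨u, v, huv⟩ := h6
    have h7 := congrArg PowerSeries.constantCoeff h3
    have h8 := congrArg (Polynomial.eval 0) huv
    have h9 : (B.map (algebraMap ℚ ℂ)).eval 0 = 0 := by rwa [Polynomial.eval_map_algebraMap]
    rw [map_mul, Polynomial.constantCoeff_coe, Polynomial.constantCoeff_coe,
      Polynomial.coeff_zero_eq_eval_zero, Polynomial.coeff_zero_eq_eval_zero, h9, zero_mul] at h7
    rw [Polynomial.eval_add, Polynomial.eval_mul, Polynomial.eval_mul, h9, ← h7] at h8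
    simp at h8
  refine h2 T ?_ ?_
  · have hp1 : (1 : ℝ) < p := by exact_mod_cast hp.one_lt
    rw [Real.rpow_def_of_pos (by linarith), mul_div_cancel₀ _ (Real.log_pos hp1).ne',
      Real.exp_log (norm_pos_iff.2 hT0)]
  · rw [hQ, Polynomial.eval_mul, Polynomial.eval_map_algebraMap, hT, zero_mul]

/-- The main statement. -/
def MainStmt : Prop :=
  ∀ (ζ : Type) [Fintype ζ] [DecidableEq ζ] (p : ℕ) [Fact p.Prime] (j : ℚ_[p] →+* ℂ)
    (f : MvPolynomial ζ ℤ), f.totalDegree ≠ 0 →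
    (∀ a : ζ → ℤ_[p], aeval a f = 0 → (∀ i, aeval a (pderiv i f) = 0) →
      ∃ (r k m : ℕ) (c : (ζ ⊕ Fin r ⊕ Fin r ⊕ Fin k) ⊕ Fin m → ℚ_[p]) (Φ : _) (h u : _),
        Pre (stab (Fin r) (Fin k) f) (Sum.elim a 0) c Φ h u ∧
        NDAt (fun i => j (c i)) (fun o => map j (sy h Φ o))) →
    ∀ (b : Polynomial ℂ) (l : ℝ), 0 < l → IsB (map (Int.castRingHom ℂ) f) b →
    b.eval (-(l : ℂ)) ≠ 0 → Good p l (den p ζ (fun _ x => aeval x f = 0))

theorem mainT (hL : LocalIStmt) (hH : ShiftStmt) (hB : StabBStmt) (hP : StabPStmt)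
    (hS : SmoothStmt) (hC : CompStmt) : MainStmt := by
  intro ζ _ _ p _ j f hdeg hloc b l hl0 hb hl
  have hl1 : l ≠ 1 := by
    rintro rfl
    obtain ⟨d, P, hP, heq⟩ := hb
    refine hl ?_
    have := root_neg_one (by
      rwa [totalDegree, support_map_of_injective _ (Int.castRingHom ℂ).injective_int]) hP heq
    simpa using this
  refine hC ζ p f l (fun a => ?_)
  by_cases h : aeval a f = 0 ∧ ∀ i, aeval a (pderiv i f) = 0
  · obtain ⟨r, k, m, c, Φ, h, u, hc, hn⟩ := hloc a h.1 h.2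
    obtain ⟨Φ', h', u', η', hd⟩ := hH _ _ p j _ _ c Φ h u hc hn
    obtain ⟨b', hb', hl'⟩ := hB ζ (Fin r) (Fin k) f b l hb hl (by
      rcases Nat.eq_zero_or_pos (Fintype.card (Fin r)) with h0 | h0
      · simpa [h0] using hl1
      · have : (1 : ℝ) ≤ (Fintype.card (Fin r) : ℕ) := by exact_mod_cast h0
        linarith)
    exact hP ζ (Fin r) (Fin k) p f l a hl0 hl1
      (hL _ _ p _ (j.injective.comp Subtype.val_injective) _ _ Φ' h' u' η' hd b' _ hb' hl')
  · exact hS ζ p f l a hl1 (by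
      by_contra h1
      push Not at h1
      exact h h1)

end Pool.Agent.MP_5d9b3c_ag.H48L
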