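import Pool.Agent.MP_5d9b3c_ag.H48L.Basic

/-!
Every chart gives an integral chart.
-/

namespace Pool.Agent.MP_5d9b3c_ag.H48L

open Finset MvPolynomial Pool.Agent.MP_5d9b3c_ag.H22 Pool.Agent.MP_5d9b3c_ag.H48N Filter

namespace NormAux

variable {τ I : Type}

section Int

variable {p : ℕ} [Fact p.Prime]

lemma p_ne : (p : ℚ_[p]) ≠ 0 := Nat.cast_ne_zero.2 (Fact.out : p.Prime).ne_zero

lemma int_scalar (x : ℚ_[p]) :
    ∀ᶠ n in atTop, ∃ y : ℤ_[p], PadicInt.Coe.ringHom y = (p : ℚ_[p]) ^ n * x := by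
  have h1 : Tendsto (fun n : ℕ => (p : ℚ_[p]) ^ n * x) atTop (nhds 0) := by
    simpa using (tendsto_pow_atTop_nhds_zero_of_norm_lt_one
      (Padic.norm_p_lt_one (p := p))).mul_const x
  filter_upwards [h1.eventually (Metric.closedBall_mem_nhds (0 : ℚ_[p]) one_pos)] with n hn
  exact ⟨⟨_, mem_closedBall_zero_iff.1 hn⟩, rfl⟩

lemma int_poly (k : ℕ) (G : MvPolynomial τ ℚ_[p]) (hG : ∀ α, α.degree ≤ k → coeff α G = 0) :
    ∀ᶠ e in atTop, ∃ q : MvPolynomial τ ℤ_[p], scl ((p : ℚ_[p]) ^ e) G =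
      C (((p : ℚ_[p]) ^ e) ^ k) * (C (p : ℚ_[p]) * map PadicInt.Coe.ringHom q) := by
  obtain ⟨N, hN⟩ := eventually_atTop.1
    ((eventually_all_finset G.support).2 (fun α _ => int_scalar (coeff α G)))
  filter_upwards [eventually_ge_atTop (N + 1)] with e he
  have hp : ((p : ℚ_[p]) ^ e) ^ k * p ≠ 0 := mul_ne_zero (pow_ne_zero _ (pow_ne_zero _ p_ne)) p_ne
  obtain ⟨q, hq⟩ : C ((((p : ℚ_[p]) ^ e) ^ k * p)⁻¹) * scl ((p : ℚ_[p]) ^ e) G ∈
      Set.range (map (σ := τ) (PadicInt.Coe.ringHom (p := p))) := by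
    rw [mem_range_map_iff_coeffs_subset]
    intro c hc
    obtain ⟨α, hα, rfl⟩ := mem_coeffs_iff.1 hc
    rw [mem_support_iff, coeff_C_mul, coeff_scl] at hα
    have h1 : coeff α G ≠ 0 := fun h => hα (by simp [h])
    have h2 : k < α.degree := lt_of_not_ge (fun h => h1 (hG α h))
    obtain ⟨d, hd⟩ := Nat.exists_eq_add_of_lt h2
    obtain ⟨e', rfl⟩ := Nat.exists_eq_add_of_le he
    obtain ⟨y, hy⟩ := hN (N + e' + (N + 1 + e') * d) (by omega) α (mem_support_iff.2 h1)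
    refine ⟨y, ?_⟩
    rw [hy, coeff_C_mul, coeff_scl, hd, eq_inv_mul_iff_mul_eq₀ hp]
    ring
  refine ⟨q, ?_⟩
  rw [hq, ← mul_assoc, ← mul_assoc, ← C_mul, ← C_mul, mul_inv_cancel₀ hp, C_1, one_mul]

lemma int_const (G : MvPolynomial τ ℚ_[p]) :
    ∀ᶠ e in atTop, ∃ q : MvPolynomial τ ℤ_[p], scl ((p : ℚ_[p]) ^ e) G =
      C (constantCoeff G) + C (p : ℚ_[p]) * map PadicInt.Coe.ringHom q := by
  classical
  filter_upwards [int_poly 0 (G - C (constantCoeff G)) (fun α hα => by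
    rw [(Finsupp.degree_eq_zero_iff α).1 (Nat.le_zero.1 hα)]
    simp [constantCoeff_eq])] with e ⟨q, hq⟩
  refine ⟨q, ?_⟩
  rw [map_sub, pow_zero, C_1, one_mul, sub_eq_iff_eq_add, add_comm] at hq
  rw [hq]
  simp [scl]

end Int

lemma map_aev {A B ζ : Type} [CommRing A] [CommRing B] [Algebra ℤ A] [Algebra ℤ B] (φ : A →+* B)
    (Φ : ζ → A) (f : MvPolynomial ζ ℤ) : φ (aeval Φ f) = aeval (fun i => φ (Φ i)) f := by
  induction f using MvPolynomial.induction_on with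
  | C r => rw [aeval_C, aeval_C, eq_intCast, eq_intCast, map_intCast]
  | add p q hp hq => simp only [map_add, hp, hq]
  | mul_X p i hp => simp only [map_mul, hp, aeval_X]

/-- The linear part of a map with invertible differential. -/
lemma lin_part {K : Type} [Field K] [Fintype τ] [DecidableEq τ] (Φ : τ → MvPolynomial τ K)
    (J : Matrix τ τ K) (hJ : ∀ s t, J s t = constantCoeff (pderiv t (Φ s))) (hd : J.det ≠ 0) :
    ∃ H : τ → MvPolynomial τ K, (∀ t α, α.degree ≤ 1 → coeff α (H t) = 0) ∧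
      ∀ s, Φ s = C (constantCoeff (Φ s)) + ∑ t, C (J s t) * (X t + H t) := by
  set R : τ → MvPolynomial τ K :=
    fun s => Φ s - C (constantCoeff (Φ s)) - ∑ t, C (J s t) * X t with hR
  have h1 : ∀ s α, α.degree ≤ 1 → coeff α (R s) = 0 := by
    intro s α hα
    rcases Nat.le_one_iff_eq_zero_or_eq_one.1 hα with h | h
    · rw [(Finsupp.degree_eq_zero_iff α).1 h]
      simp [hR, constantCoeff_eq, coeff_sum]
    · obtain ⟨t, rfl⟩ : α ∈ Set.range (fun a : τ => Finsupp.single a 1) := by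
        rw [Finsupp.range_single_one]
        exact h
      have h2 : J s t = coeff (Finsupp.single t 1) (Φ s) := by
        rw [hJ, constantCoeff_eq, coeff_pderiv]
        simp
      have h3 : (0 : τ →₀ ℕ) ≠ Finsupp.single t 1 :=
        (Finsupp.single_ne_zero.2 one_ne_zero).symm
      simp [hR, coeff_sum, coeff_X, coeff_C, h3, Finsupp.single_left_inj, h2]
  refine ⟨fun t => ∑ s, C (J⁻¹ t s) * R s, fun t α hα => ?_, fun s => ?_⟩
  · simp [coeff_sum, h1 _ α hα]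
  · have h2 : ∑ t, C (J s t) * ∑ s', C (J⁻¹ t s') * R s' = R s := by
      simp only [mul_sum, ← mul_assoc, ← C_mul]
      rw [sum_comm]
      simp only [← sum_mul, ← map_sum, ← Matrix.mul_apply,
        Matrix.mul_nonsing_inv J (Ne.isUnit hd), Matrix.one_apply]
      simp [apply_ite C]
    simp only [mul_add, sum_add_distrib]
    rw [h2, hR]
    ring

lemma scl_ne {r c : ℂ} (hr : r ≠ 0) (hc : c ≠ 0) {q : MvPolynomial τ ℂ} (hq : q ≠ 0) :
    C c * scl r q ≠ 0 := by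
  obtain ⟨α, hα⟩ := ne_zero_iff.1 hq
  refine ne_zero_iff.2 ⟨α, ?_⟩
  rw [coeff_C_mul, coeff_scl]
  exact mul_ne_zero hc (mul_ne_zero (pow_ne_zero _ hr) hα)

lemma locND_scl [Fintype τ] [Fintype I] {A : Set I} {e : I → MvPolynomial τ ℂ}
    {η η' : MvPolynomial τ ℂ} (h : LocND A e η) {r : ℂ} (hr : r ≠ 0) {c : I → ℂ}
    (hc : ∀ o, c o ≠ 0) (hη : ∀ x : τ → ℂ, eval x η' ≠ 0 → eval (fun i => r * x i) η ≠ 0) :
    LocND A (fun o => C (c o) * scl r (e o)) η' := by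
  intro w x hx h1 y hy h2
  have h3 : cut w (fun i => r * x i) = fun i => r * cut w x i := by
    funext i
    simp [cut]
  obtain ⟨t, ht⟩ := h w (fun i => r * x i) (fun i => mul_ne_zero hr (hx i)) (h3 ▸ hη _ h1)
    (fun o => y o * c o) (fun h0 => hy (funext fun o =>
      (mul_eq_zero.1 (congrFun h0 o)).resolve_right (hc o))) (fun o ho => by
      obtain ⟨h4, h5⟩ := h2 o (left_ne_zero_of_mul ho)
      rw [fc_scl hr (hc o), map_mul, eval_C, eval_scl] at h5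
      exact ⟨h4, (mul_eq_zero.1 h5).resolve_left (hc o)⟩)
  refine ⟨t, fun h0 => mul_ne_zero hr ht ?_⟩
  rw [← h0, mul_sum]
  refine sum_congr rfl (fun o _ => ?_)
  rw [fc_scl hr (hc o), pderiv_C_mul, pderiv_scl, map_mul, map_mul, eval_C, eval_C, eval_scl]
  ring

lemma jinj_scl [Fintype τ] [DecidableEq τ] {Ψ : τ → MvPolynomial τ ℂ} {r : ℂ} (hr : r ≠ 0)
    {c : τ → ℂ} (hc : ∀ s, c s ≠ 0) {z : τ → ℂ}
    (h : eval (fun i => r * z i) (Matrix.of (fun s t => pderiv t (Ψ s))).det ≠ 0) :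
    JInj (fun s => C (c s) * scl r (Ψ s)) z := by
  intro ξ hξ
  rw [RingHom.map_det] at h
  refine Matrix.eq_zero_of_mulVec_eq_zero h (funext fun s => ?_)
  refine (mul_eq_zero.1 ?_).resolve_left (mul_ne_zero (hc s) hr)
  rw [← hξ s, pd, Matrix.mulVec, dotProduct, mul_sum]
  refine sum_congr rfl (fun t _ => ?_)
  rw [pderiv_C_mul, pderiv_scl, map_mul, map_mul, eval_C, eval_C, eval_scl]
  simp [mul_assoc]

section Abs

variable {R K : Type} [CommRing R] [Field K] (ι : R →+* K) {ρ : K}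

lemma scl_C (b : K) : scl ρ (C b : MvPolynomial τ K) = C b := by simp [scl]

lemma scl_X (t : τ) : scl ρ (X t : MvPolynomial τ K) = C ρ * X t := by simp [scl]

lemma lift_const {G : MvPolynomial τ K} {q : MvPolynomial τ R} {b : K} {y π : R}
    (hy : ι y = b * constantCoeff G)
    (hq : scl ρ (C b * G) = C (constantCoeff (C b * G)) + C (ι π) * map ι q) :
    map ι (C y + C π * q) = C b * scl ρ G := by
  rw [map_mul, scl_C, map_mul constantCoeff, constantCoeff_C, ← hy] at hq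
  rw [hq, map_add, map_mul, map_C, map_C]

lemma lift_lin [Fintype τ] {G : MvPolynomial τ K} {H : τ → MvPolynomial τ K}
    {q : τ → MvPolynomial τ R} {b g : K} {y π : R} {J : τ → K} {M : τ → R}
    (hG : G = C g + ∑ t, C (J t) * (X t + H t)) (hy : ι y = b * g)
    (hM : ∀ t, ι (M t) = ρ * (b * J t))
    (hq : ∀ t, scl ρ (H t) = C (ρ ^ 1) * (C (ι π) * map ι (q t))) :
    map ι (C y + ∑ t, C (M t) * (X t + C π * q t)) = C b * scl ρ G := by
  rw [hG, map_add, map_add, map_sum, map_sum, map_C, scl_C, hy, C_mul, mul_add, mul_sum]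
  congr 1
  refine sum_congr rfl (fun t _ => ?_)
  rw [map_mul, map_mul, map_add, map_add, map_mul, map_C, map_C, map_X, scl_C, scl_X, hq, hM,
    pow_one, C_mul, C_mul]
  ring

lemma lift_sum {ζ : Type} [Fintype I] {f : MvPolynomial ζ ℤ} {h u : MvPolynomial τ K}
    {φ : ζ → MvPolynomial τ K} {g r : I → MvPolynomial τ K} {u' : MvPolynomial τ R}
    {φ' : ζ → MvPolynomial τ R} {g' r' : I → MvPolynomial τ R} {b P : K} (hP : P ≠ 0)
    (hr : ∑ s, r s * g s = h - u * aeval φ f) (hu : map ι u' = C b * scl ρ u)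
    (hφ : ∀ i, map ι (φ' i) = C 1 * scl ρ (φ i)) (hg : ∀ s, map ι (g' s) = C P⁻¹ * scl ρ (g s))
    (hr' : ∀ s, map ι (r' s) = C (P * b) * scl ρ (r s)) :
    map ι (u' * aeval φ' f + ∑ s, r' s * g' s) = C b * scl ρ h := by
  have h0 : h = u * aeval φ f + ∑ s, r s * g s := by
    rw [hr]
    ring
  have h3 : scl ρ (aeval φ f) = aeval (fun i => scl ρ (φ i)) f :=
    map_aev (scl ρ : MvPolynomial τ K →ₐ[K] _).toRingHom _ f
  rw [map_add, map_mul, map_sum, map_aev, hu, h0, map_add, map_mul, map_sum, h3, mul_add, mul_sum]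
  congr 1
  · simp only [hφ, C_1, one_mul, mul_assoc]
  · refine sum_congr rfl (fun s _ => ?_)
    rw [map_mul, hr', hg, map_mul (scl ρ), mul_mul_mul_comm, ← C_mul, mul_right_comm,
      mul_inv_cancel₀ hP, one_mul]

lemma map_comp (j : K →+* ℂ) {G : MvPolynomial τ R} {b : K} {G0 : MvPolynomial τ K}
    (hG : map ι G = C b * scl ρ G0) :
    map (j.comp ι) G = C (j b) * scl (j ρ) (map j G0) := by
  rw [← MvPolynomial.map_map, hG, map_mul, map_C, map_scl]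

lemma det_ne [Fintype τ] [DecidableEq τ] {J : Matrix τ τ K} {M : τ → τ → R} {b : τ → K}
    (hρ : ρ ≠ 0) (hb : ∀ s, b s ≠ 0) (hJ : J.det ≠ 0) (hM : ∀ s t, ι (M s t) = ρ * (b s * J s t)) :
    (Matrix.of M).det ≠ 0 := by
  intro h0
  have h1 : ι.mapMatrix (Matrix.of M) = Matrix.diagonal (fun s => ρ * b s) * J := by
    ext s t
    simp [Matrix.diagonal_mul, hM, mul_assoc]
  have h2 := congrArg ι h0
  rw [RingHom.map_det, h1, Matrix.det_mul, Matrix.det_diagonal, map_zero] at h2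
  exact mul_ne_zero (prod_ne_zero_iff.2 (fun s _ => mul_ne_zero hρ (hb s))) hJ h2

lemma map_jac [Fintype τ] [DecidableEq τ] (j : K →+* ℂ) (Φ : τ → MvPolynomial τ K) :
    map j (Matrix.of (fun s t => pderiv t (Φ s))).det =
      (Matrix.of (fun s t => pderiv t (map j (Φ s)))).det := by
  rw [RingHom.map_det (map j)]
  congr 1
  ext s t
  simp [pderiv_map]

end Abs

/-- The integral chart, once the lifts are known. -/
lemma idata {ζ : Type} [Fintype ζ] [DecidableEq ζ] [Fintype I] [DecidableEq I] {p : ℕ}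
    [Fact p.Prime] {j : ℚ_[p] →+* ℂ} {f : MvPolynomial ζ ℤ} {a : ζ → ℤ_[p]}
    {Φ : ζ ⊕ I → MvPolynomial (ζ ⊕ I) ℚ_[p]} {h u η0 : MvPolynomial (ζ ⊕ I) ℚ_[p]}
    (ch : Chart j f a Φ h u) (hnd : LocND Set.univ (fun o => map j (sy h Φ o)) (map j η0))
    {ι : ℤ_[p] →+* ℚ_[p]} {Φ' : ζ ⊕ I → MvPolynomial (ζ ⊕ I) ℤ_[p]}
    {h' u' η' : MvPolynomial (ζ ⊕ I) ℤ_[p]} {ρ b n : ℚ_[p]} {cs : ζ ⊕ I → ℚ_[p]} (hρ : ρ ≠ 0)
    (hb : b ≠ 0) (hcs : ∀ s, cs s ≠ 0) (e1 : ∀ s, map ι (Φ' s) = C (cs s) * scl ρ (Φ s))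
    (e2 : map ι u' = C b * scl ρ u)
    (e3 : map ι η' = C n * scl ρ (η0 * u * (Matrix.of (fun s t => pderiv t (Φ s))).det))
    (e4 : map ι h' = C b * scl ρ h) :
    (∀ o, sy h' Φ' o ≠ 0) ∧
      LocND Set.univ (fun o => map (j.comp ι) (sy h' Φ' o)) (map (j.comp ι) η') ∧
      ∀ z : ζ ⊕ I → ℂ, eval z (map (j.comp ι) η') ≠ 0 →
        eval z (map (j.comp ι) u') ≠ 0 ∧ JInj (fun s => map (j.comp ι) (Φ' s)) z := by
  have hj : ∀ {b : ℚ_[p]}, b ≠ 0 → j b ≠ 0 := fun hb => (map_ne_zero j).2 hb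
  have hco : ∀ o : Option I, j (o.elim b (fun s => cs (Sum.inr s))) ≠ 0 := by
    rintro (_ | s)
    exacts [hj hb, hj (hcs _)]
  have e6 : ∀ o, map (j.comp ι) (sy h' Φ' o) =
      C (j (o.elim b (fun s => cs (Sum.inr s)))) * scl (j ρ) (map j (sy h Φ o)) := by
    rintro (_ | s)
    exacts [map_comp ι j e4, map_comp ι j (e1 _)]
  have e7 : ∀ z : ζ ⊕ I → ℂ, eval z (map (j.comp ι) η') ≠ 0 →
      eval (fun i => j ρ * z i) (map j η0) ≠ 0 ∧ eval (fun i => j ρ * z i) (map j u) ≠ 0 ∧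
        eval (fun i => j ρ * z i) (Matrix.of (fun s t => pderiv t (map j (Φ s)))).det ≠ 0 := by
    intro z hz
    rw [map_comp ι j e3, map_mul, eval_scl, map_mul, map_mul, map_mul, map_mul, map_jac] at hz
    have h1 := right_ne_zero_of_mul hz
    exact ⟨left_ne_zero_of_mul (left_ne_zero_of_mul h1),
      right_ne_zero_of_mul (left_ne_zero_of_mul h1), right_ne_zero_of_mul h1⟩
  refine ⟨fun o h0 => ?_, ?_, fun z hz => ⟨?_, ?_⟩⟩
  · have h1 := (ch.nd (fun _ => 1) (fun _ => 1) (fun _ => one_pos) (fun _ => one_ne_zero)).ne o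
    refine scl_ne (hj hρ) (hco o) h1 ?_
    rw [← e6, h0, map_zero]
  · rw [funext e6]
    exact locND_scl hnd (hj hρ) hco (fun x hx => (e7 x hx).1)
  · rw [map_comp ι j e2, map_mul, eval_C, eval_scl]
    exact mul_ne_zero (hj hb) (e7 z hz).2.1
  · rw [funext (fun s => map_comp ι j (e1 s))]
    exact jinj_scl (hj hρ) (fun s => hj (hcs s)) (e7 z hz).2.2

end NormAux

open NormAux in
theorem normal (hL : LocStmt) : NormStmt := by
  intro ζ I _ _ _ _ p _ j f a Φ h u ch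
  obtain ⟨η0, hη0, hnd⟩ := hL (ζ ⊕ I) (Option I) ℚ_[p] j (sy h Φ) ch.nd
  obtain ⟨r, hr⟩ := Ideal.mem_span_range_iff_exists_fun.1 ch.mem
  obtain ⟨J, hJ, hJ0⟩ : ∃ J : Matrix (ζ ⊕ I) (ζ ⊕ I) ℚ_[p],
      (∀ s t, J s t = constantCoeff (pderiv t (Φ s))) ∧ J.det ≠ 0 := ⟨_, fun _ _ => rfl, ch.det⟩
  obtain ⟨H, hH, hΦ⟩ := lin_part Φ J hJ hJ0
  obtain ⟨η, hη⟩ : ∃ η, η = η0 * u * (Matrix.of (fun s t => pderiv t (Φ s))).det := ⟨_, rfl⟩
  have hn : constantCoeff η ≠ 0 := by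
    rw [hη, map_mul, map_mul, RingHom.map_det]
    exact mul_ne_zero (mul_ne_zero hη0 ch.u0) ch.det
  obtain ⟨c, hc⟩ := (eventually_all.2
    (fun s => int_scalar ((constantCoeff u)⁻¹ * constantCoeff (r s)))).exists
  choose y hy using hc
  have hpc : (p : ℚ_[p]) ^ c ≠ 0 := pow_ne_zero _ p_ne
  obtain ⟨cs, hc1, hc2⟩ : ∃ cs : ζ ⊕ I → ℚ_[p], (∀ i, cs (Sum.inl i) = 1) ∧
      ∀ s, cs (Sum.inr s) = ((p : ℚ_[p]) ^ c)⁻¹ :=
    ⟨Sum.elim (fun _ => 1) (fun _ => ((p : ℚ_[p]) ^ c)⁻¹), fun _ => rfl, fun _ => rfl⟩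
  have hcs : ∀ s, cs s ≠ 0 := by
    rintro (s | s)
    exacts [hc1 s ▸ one_ne_zero, hc2 s ▸ inv_ne_zero hpc]
  obtain ⟨e, ⟨⟨⟨⟨hM, hq⟩, hr'⟩, qu, hqu⟩, qe, hqe⟩⟩ :=
    (((((eventually_all.2 (fun s => eventually_all.2 (fun t => int_scalar (cs s * J s t)))).and
      (eventually_all.2 (fun t => int_poly 1 (H t) (hH t)))).and
      (eventually_all.2 (fun s => int_const (C ((p : ℚ_[p]) ^ c * (constantCoeff u)⁻¹) * r s)))).and
      (int_const (C (constantCoeff u)⁻¹ * u))).and (int_const (C (constantCoeff η)⁻¹ * η))).exists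
  choose M hM using hM
  choose q hq using hq
  choose r' hr' using hr'
  have hρ : (p : ℚ_[p]) ^ e ≠ 0 := pow_ne_zero _ p_ne
  have e1 : ∀ s, map PadicInt.Coe.ringHom
      (C (Sum.elim a 0 s) + ∑ t, C (M s t) * (X t + C (p : ℤ_[p]) * q t)) =
      C (cs s) * scl ((p : ℚ_[p]) ^ e) (Φ s) := by
    intro s
    refine lift_lin _ (hΦ s) ?_ (hM s) hq
    rcases s with s | s
    · rw [ch.c0, hc1, one_mul]
      rfl
    · rw [ch.c1, mul_zero]
      exact map_zero _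
  have e2 := lift_const (y := 1) (π := (p : ℤ_[p])) PadicInt.Coe.ringHom
    (by rw [inv_mul_cancel₀ ch.u0, map_one]) hqu
  have e3 := lift_const (y := 1) (π := (p : ℤ_[p])) PadicInt.Coe.ringHom
    (by rw [inv_mul_cancel₀ hn, map_one]) hqe
  have e4 := lift_sum PadicInt.Coe.ringHom hpc hr e2 (fun i => hc1 i ▸ e1 (Sum.inl i))
    (fun s => hc2 s ▸ e1 (Sum.inr s)) (fun s => lift_const (π := (p : ℤ_[p])) PadicInt.Coe.ringHom
      (by rw [hy s, mul_assoc]) (hr' s))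
  rw [C_1] at e2 e3 e4
  obtain ⟨h1, h2, h3⟩ := idata ch hnd hρ (inv_ne_zero ch.u0) hcs e1 e2 (hη ▸ e3) e4
  refine ⟨_, _, _, _, ⟨Matrix.of M, q, det_ne _ hρ hcs hJ0 hM, fun _ => rfl⟩, ?_, ⟨qu, rfl⟩,
    ⟨qe, rfl⟩, h1, h2, h3⟩
  exact Ideal.mem_span_range_iff_exists_fun.2 ⟨_, (add_sub_cancel_left _ _).symm⟩

end Pool.Agent.MP_5d9b3c_ag.H48L
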