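import Pool.Agent.MP_5d9b3c_ag.H48L.Spec2
import Pool.Agent.MP_5d9b3c_ag.H48L.Norm

/-!
Integral charts centred at all points close to the centre.
-/

namespace Pool.Agent.MP_5d9b3c_ag.H48L

open Finset MvPolynomial Pool.Agent.MP_5d9b3c_ag.H22 Pool.Agent.MP_5d9b3c_ag.H48N Filter

namespace NormXAux

open NormAux

variable {τ I : Type}

section Aff

variable {R S : Type} [CommRing R] [CommRing S]

lemma aff_C (c : τ → R) (r b : R) : aff c r (C b) = C b := by simp [aff]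

lemma aff_X (c : τ → R) (r : R) (t : τ) : aff c r (X t) = C (c t) + C r * X t := by simp [aff]

lemma map_aff (φ : R →+* S) (c : τ → R) (r : R) (q : MvPolynomial τ R) :
    map φ (aff c r q) = aff (fun i => φ (c i)) (φ r) (map φ q) := by
  induction q using MvPolynomial.induction_on with
  | C b => simp only [aff_C, map_C]
  | add p q hp hq => simp only [map_add, hp, hq]
  | mul_X p i hp => simp only [map_mul, hp, aff_X, map_X, map_add, map_C]

lemma eval_aff (c : τ → R) (r : R) (z : τ → R) (q : MvPolynomial τ R) :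
    eval z (aff c r q) = eval (fun i => c i + r * z i) q := by
  induction q using MvPolynomial.induction_on with
  | C b => simp only [aff_C, eval_C]
  | add p q hp hq => simp only [map_add, hp, hq]
  | mul_X p i hp => simp only [map_mul, hp, aff_X, eval_X, map_add, eval_C]

lemma cc_aff (c : τ → R) (r : R) (q : MvPolynomial τ R) :
    constantCoeff (aff c r q) = eval c q := by
  rw [← eval_zero', eval_aff]
  simp

lemma pderiv_aff (c : τ → R) (r : R) (t : τ) (q : MvPolynomial τ R) :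
    pderiv t (aff c r q) = C r * aff c r (pderiv t q) := by
  classical
  induction q using MvPolynomial.induction_on with
  | C b => simp
  | add p q hp hq => simp only [map_add, hp, hq, mul_add]
  | mul_X p i hp =>
    simp only [map_mul, Derivation.leibniz, smul_eq_mul, map_add, hp, aff_X, pderiv_C, pderiv_X,
      Pi.single_apply]
    split_ifs <;> simp <;> ring

lemma aff_scl (c d : τ → R) (r : R) (q : MvPolynomial τ R) :
    aff d 1 (scl r (aff c 1 q)) = aff (fun i => c i + r * d i) r q := by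
  induction q using MvPolynomial.induction_on with
  | C b => simp [scl]
  | add p q hp hq => simp only [map_add, hp, hq]
  | mul_X p i hp =>
    have h1 : scl r (C (c i) + C 1 * X i) = C (c i) + C r * X i := by simp [scl]
    rw [map_mul, map_mul, map_mul, hp, map_mul, aff_X, aff_X, h1, map_add, map_mul, aff_C, aff_C,
      aff_X, C_add, C_mul, C_1]
    ring

lemma shift (ι : R →+* S) {G : MvPolynomial τ R} {G0 : MvPolynomial τ S} {b ρ : S} {c : τ → S}
    (d : τ → R) (h : map ι G = C b * scl ρ (aff c 1 G0)) :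
    map ι (aff d 1 G) = C b * aff (fun i => c i + ρ * ι (d i)) ρ G0 := by
  rw [map_aff, h, map_mul, aff_C, map_one, aff_scl]

lemma shift_const (d : τ → R) (y π : R) (q : MvPolynomial τ R) :
    aff d 1 (C y + C π * q) = C y + C π * aff d 1 q := by
  rw [map_add, map_mul, aff_C, aff_C]

lemma shift_lin [Fintype τ] (γ M : τ → R) (y π : R) (q : τ → MvPolynomial τ R) :
    aff (fun i => π * γ i) 1 (C y + ∑ t, C (M t) * (X t + C π * q t)) =
      C y + ∑ t, C (M t) * (X t + C π * (C (γ t) + aff (fun i => π * γ i) 1 (q t))) := by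
  rw [map_add, map_sum, aff_C]
  congr 1
  refine sum_congr rfl (fun t _ => ?_)
  rw [map_mul, map_add, map_mul, aff_C, aff_C, aff_X, C_mul, C_1]
  ring

end Aff

lemma lift_sum {R K ζ : Type} [CommRing R] [Field K] (ι : R →+* K)
    (A : MvPolynomial τ K →ₐ[K] MvPolynomial τ K) [Fintype I] {f : MvPolynomial ζ ℤ}
    {h u : MvPolynomial τ K} {φ : ζ → MvPolynomial τ K} {g r : I → MvPolynomial τ K}
    {u' : MvPolynomial τ R} {φ' : ζ → MvPolynomial τ R} {g' r' : I → MvPolynomial τ R} {b P : K}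
    (hP : P ≠ 0) (hr : ∑ s, r s * g s = h - u * aeval φ f) (hu : map ι u' = C b * A u)
    (hφ : ∀ i, map ι (φ' i) = C 1 * A (φ i)) (hg : ∀ s, map ι (g' s) = C P⁻¹ * A (g s))
    (hr' : ∀ s, map ι (r' s) = C (P * b) * A (r s)) :
    map ι (u' * aeval φ' f + ∑ s, r' s * g' s) = C b * A h := by
  have h0 : h = u * aeval φ f + ∑ s, r s * g s := by
    rw [hr]
    ring
  have h3 : A (aeval φ f) = aeval (fun i => A (φ i)) f := map_aev A.toRingHom _ f
  rw [map_add, map_mul, map_sum, map_aev, hu, h0, map_add, map_mul, map_sum, h3, mul_add, mul_sum]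
  congr 1
  · simp only [hφ, C_1, one_mul, mul_assoc]
  · refine sum_congr rfl (fun s _ => ?_)
    rw [map_mul, hr', hg, map_mul A, mul_mul_mul_comm, ← C_mul, mul_right_comm,
      mul_inv_cancel₀ hP, one_mul]

lemma jinj_aff [Fintype τ] [DecidableEq τ] {Ψ : τ → MvPolynomial τ ℂ} {r : ℂ} (hr : r ≠ 0)
    {b c : τ → ℂ} (hb : ∀ s, b s ≠ 0) {z : τ → ℂ}
    (h : eval (fun i => c i + r * z i) (Matrix.of (fun s t => pderiv t (Ψ s))).det ≠ 0) :
    JInj (fun s => C (b s) * aff c r (Ψ s)) z := by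
  intro ξ hξ
  rw [RingHom.map_det] at h
  refine Matrix.eq_zero_of_mulVec_eq_zero h (funext fun s => ?_)
  refine (mul_eq_zero.1 ?_).resolve_left (mul_ne_zero (hb s) hr)
  rw [← hξ s, pd, Matrix.mulVec, dotProduct, mul_sum]
  refine sum_congr rfl (fun t _ => ?_)
  rw [pderiv_C_mul, pderiv_aff, map_mul, map_mul, eval_C, eval_C, eval_aff]
  simp [mul_assoc]

/-- The etale condition, once the lifts are known. -/
lemma etal {R K : Type} [CommRing R] [Field K] [Fintype τ] [DecidableEq τ] (ι : R →+* K)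
    (j : K →+* ℂ) {Φ : τ → MvPolynomial τ K} {u η : MvPolynomial τ K} {Φ' : τ → MvPolynomial τ R}
    {u' η' : MvPolynomial τ R} {ρ b n : K} {cs c : τ → K} (hρ : ρ ≠ 0) (hb : b ≠ 0)
    (hcs : ∀ s, cs s ≠ 0) (e1 : ∀ s, map ι (Φ' s) = C (cs s) * aff c ρ (Φ s))
    (e2 : map ι u' = C b * aff c ρ u)
    (e3 : map ι η' = C n * aff c ρ (η * u * (Matrix.of (fun s t => pderiv t (Φ s))).det))
    (z : τ → ℂ) (hz : eval z (map (j.comp ι) η') ≠ 0) :
    eval (fun i => j (c i) + j ρ * z i) (map j η) ≠ 0 ∧ eval z (map (j.comp ι) u') ≠ 0 ∧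
      JInj (fun s => map (j.comp ι) (Φ' s)) z := by
  have hj : ∀ {b : K}, b ≠ 0 → j b ≠ 0 := fun hb => (map_ne_zero j).2 hb
  have e5 : ∀ {G : MvPolynomial τ R} {b : K} {G0 : MvPolynomial τ K},
      map ι G = C b * aff c ρ G0 →
      map (j.comp ι) G = C (j b) * aff (fun i => j (c i)) (j ρ) (map j G0) := fun hG => by
    rw [← MvPolynomial.map_map, hG, map_mul, map_C, map_aff]
  rw [e5 e3, map_mul, eval_aff, map_mul, map_mul, map_mul, map_mul, map_jac] at hz
  have h1 := right_ne_zero_of_mul hz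
  refine ⟨left_ne_zero_of_mul (left_ne_zero_of_mul h1), ?_, ?_⟩
  · rw [e5 e2, map_mul, eval_C, eval_aff]
    exact mul_ne_zero (hj hb) (right_ne_zero_of_mul (left_ne_zero_of_mul h1))
  · rw [funext (fun s => e5 (e1 s))]
    exact jinj_aff (hj hρ) (fun s => hj (hcs s)) (right_ne_zero_of_mul h1)

end NormXAux

open NormAux NormXAux in
theorem normX : NormXStmt := by
  intro ζ I _ _ _ _ p _ j f a c Φ h u η0 ch hη0
  obtain ⟨r, hr⟩ := Ideal.mem_span_range_iff_exists_fun.1 ch.mem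
  obtain ⟨J, hJ, hJ0⟩ : ∃ J : Matrix (ζ ⊕ I) (ζ ⊕ I) ℚ_[p],
      (∀ s t, J s t = constantCoeff (pderiv t (aff c 1 (Φ s)))) ∧ J.det ≠ 0 :=
    ⟨_, fun _ _ => by rw [pderiv_aff, C_1, one_mul, cc_aff]; rfl, ch.det⟩
  obtain ⟨H, hH, hΦ⟩ := lin_part (fun s => aff c 1 (Φ s)) J hJ hJ0
  obtain ⟨η, hη⟩ : ∃ η, η = η0 * u * (Matrix.of (fun s t => pderiv t (Φ s))).det := ⟨_, rfl⟩
  have hn : eval c η ≠ 0 := by
    rw [hη, map_mul, map_mul, RingHom.map_det]
    exact mul_ne_zero (mul_ne_zero hη0 ch.u0) ch.det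
  obtain ⟨k, hk⟩ := (eventually_all.2
    (fun s => int_scalar ((eval c u)⁻¹ * eval c (r s)))).exists
  choose y hy using hk
  have hpk : (p : ℚ_[p]) ^ k ≠ 0 := pow_ne_zero _ p_ne
  obtain ⟨cs, hc1, hc2⟩ : ∃ cs : ζ ⊕ I → ℚ_[p], (∀ i, cs (Sum.inl i) = 1) ∧
      ∀ s, cs (Sum.inr s) = ((p : ℚ_[p]) ^ k)⁻¹ :=
    ⟨Sum.elim (fun _ => 1) (fun _ => ((p : ℚ_[p]) ^ k)⁻¹), fun _ => rfl, fun _ => rfl⟩
  have hcs : ∀ s, cs s ≠ 0 := by
    rintro (s | s)
    exacts [hc1 s ▸ one_ne_zero, hc2 s ▸ inv_ne_zero hpk]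
  obtain ⟨e, ⟨⟨⟨⟨hM, hq⟩, hr'⟩, qu, hqu⟩, qe, hqe⟩⟩ :=
    (((((eventually_all.2 (fun s => eventually_all.2 (fun t => int_scalar (cs s * J s t)))).and
      (eventually_all.2 (fun t => int_poly 1 (H t) (hH t)))).and
      (eventually_all.2 (fun s =>
        int_const (C ((p : ℚ_[p]) ^ k * (eval c u)⁻¹) * aff c 1 (r s))))).and
      (int_const (C (eval c u)⁻¹ * aff c 1 u))).and (int_const (C (eval c η)⁻¹ * aff c 1 η))).exists
  choose M hM using hM
  choose q hq using hq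
  choose r' hr' using hr'
  have hρ : (p : ℚ_[p]) ^ e ≠ 0 := pow_ne_zero _ p_ne
  refine ⟨e, fun γ => ?_⟩
  obtain ⟨c', hc'⟩ : ∃ c' : ζ ⊕ I → ℚ_[p], c' = fun i => c i + (p : ℚ_[p]) ^ (e + 1) * γ i :=
    ⟨_, rfl⟩
  have hs : ∀ {G : MvPolynomial (ζ ⊕ I) ℤ_[p]} {G0 : MvPolynomial (ζ ⊕ I) ℚ_[p]} {b : ℚ_[p]},
      map PadicInt.Coe.ringHom G = C b * scl ((p : ℚ_[p]) ^ e) (aff c 1 G0) →
      map PadicInt.Coe.ringHom (aff (fun i => (p : ℤ_[p]) * γ i) 1 G) =
        C b * aff c' ((p : ℚ_[p]) ^ e) G0 := by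
    intro G G0 b hG
    rw [shift _ _ hG, hc']
    simp only [pow_succ, mul_assoc]
    rfl
  have e1 : ∀ s, map PadicInt.Coe.ringHom (C (Sum.elim a 0 s) + ∑ t, C (M s t) * (X t +
      C (p : ℤ_[p]) * (C (γ t) + aff (fun i => (p : ℤ_[p]) * γ i) 1 (q t)))) =
      C (cs s) * aff c' ((p : ℚ_[p]) ^ e) (Φ s) := by
    intro s
    rw [← shift_lin]
    refine hs (lift_lin _ (hΦ s) ?_ (hM s) hq)
    rw [cc_aff]
    rcases s with s | s
    · rw [ch.c0, hc1, one_mul]
      rfl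
    · rw [ch.c1, mul_zero]
      exact map_zero _
  have e2 := hs (lift_const (y := 1) (π := (p : ℤ_[p])) PadicInt.Coe.ringHom
    (by rw [cc_aff, inv_mul_cancel₀ ch.u0, map_one]) hqu)
  have e3 := hs (lift_const (y := 1) (π := (p : ℤ_[p])) PadicInt.Coe.ringHom
    (by rw [cc_aff, inv_mul_cancel₀ hn, map_one]) hqe)
  rw [shift_const, C_1] at e2 e3
  have e4 := NormXAux.lift_sum PadicInt.Coe.ringHom _ hpk hr e2 (fun i => hc1 i ▸ e1 (Sum.inl i))
    (fun s => hc2 s ▸ e1 (Sum.inr s)) (fun s => hs (lift_const (π := (p : ℤ_[p]))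
      PadicInt.Coe.ringHom (by rw [cc_aff, hy s, mul_assoc]) (hr' s)))
  have e5 := etal PadicInt.Coe.ringHom j hρ (inv_ne_zero ch.u0) hcs e1 e2 (hη ▸ e3)
  refine ⟨_, _, _, _, fun o => o.elim (eval c u)⁻¹ (fun s => cs (Sum.inr s)),
    ⟨⟨Matrix.of M, _, det_ne _ hρ hcs hJ0 hM, fun _ => rfl⟩,
      Ideal.mem_span_range_iff_exists_fun.2 ⟨fun s => aff (fun i => (p : ℤ_[p]) * γ i) 1
        (C (y s) + C (p : ℤ_[p]) * r' s), (add_sub_cancel_left _ _).symm⟩, ⟨_, rfl⟩,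
      ⟨_, rfl⟩, fun z hz => (e5 z hz).2⟩, ?_, fun z hz => ?_⟩
  · rw [← hc']
    rintro (_ | s)
    exacts [⟨inv_ne_zero ch.u0, e4⟩, ⟨hcs _, e1 _⟩]
  · have h1 := (e5 z hz).1
    rwa [hc', map_pow, map_natCast] at h1

end Pool.Agent.MP_5d9b3c_ag.H48L
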