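import Pool.Agent.MP_5d9b3c_ag.H10N.Spec
import Pool.Agent.MP_5d9b3c_ag.H22.Phase

/-!
Locally nondegenerate polynomials: definitions and the statements of the steps.
-/

namespace Pool.Agent.MP_5d9b3c_ag.H48L

open Finset MvPolynomial Pool.Agent.MP_5d9b3c_ag.H22 Pool.Agent.MP_5d9b3c_ag.H48N

section Defs

variable {ζ I : Type}

/-- The functional equation. -/
def IsB (g : MvPolynomial ζ ℂ) (b : Polynomial ℂ) : Prop :=
  ∃ (d : ℕ) (P : ℕ → Module.End ℂ (MvPolynomial ζ ℂ)), (∀ t, P t ∈ WW ζ) ∧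
    ∀ m : ℕ, ∑ t ∈ range d, (m : ℂ) ^ t • P t (g ^ (m + 1)) = b.eval (m : ℂ) • g ^ m

/-- The face polynomial for a weight with natural entries. -/
noncomputable def fc [Fintype ζ] (w : ζ → ℕ) (g : MvPolynomial ζ ℂ) : MvPolynomial ζ ℂ :=
  fac (fun i => (w i : ℤ)) g

/-- The coordinates of positive weight are set to zero. -/
def cut (w : ζ → ℕ) (x : ζ → ℂ) : ζ → ℂ := fun i => if w i = 0 then x i else 0

/-- The gradients of the face polynomials with index in `A` that vanish at `x` are independent. -/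
def NRel [Fintype ζ] [Fintype I] (A : Set I) (w : ζ → ℕ) (x : ζ → ℂ)
    (e : I → MvPolynomial ζ ℂ) : Prop :=
  ∀ y : I → ℂ, y ≠ 0 → (∀ o, y o ≠ 0 → o ∈ A ∧ eval x (fc w (e o)) = 0) →
    ∃ t, ∑ o, y o * eval x (pderiv t (fc w (e o))) ≠ 0

/-- Nondegeneracy where `η` does not vanish. -/
def LocND [Fintype ζ] [Fintype I] (A : Set I) (e : I → MvPolynomial ζ ℂ)
    (η : MvPolynomial ζ ℂ) : Prop :=
  ∀ (w : ζ → ℕ) (x : ζ → ℂ), (∀ i, x i ≠ 0) → eval (cut w x) η ≠ 0 → NRel A w x e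

/-- The polynomial `∑ y_o e_o`. -/
noncomputable def cay {R : Type} [CommRing R] [Fintype I] (e : I → MvPolynomial ζ R) :
    MvPolynomial (ζ ⊕ I) R := ∑ o, X (Sum.inr o) * rename Sum.inl (e o)

/-- The derivative at `z` in the direction `ξ`. -/
noncomputable def pd [Fintype ζ] (z ξ : ζ → ℂ) (q : MvPolynomial ζ ℂ) : ℂ :=
  ∑ t, eval z (pderiv t q) * ξ t

/-- The differential at `z` is injective. -/
def JInj [Fintype ζ] (Ψ : I → MvPolynomial ζ ℂ) (z : ζ → ℂ) : Prop :=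
  ∀ ξ : ζ → ℂ, (∀ s, pd z ξ (Ψ s) = 0) → ξ = 0

/-- Evaluation modulo `p ^ k`. -/
noncomputable def ev {p : ℕ} [Fact p.Prime] (k : ℕ) (x : ζ → ZMod (p ^ k))
    (q : MvPolynomial ζ ℤ_[p]) : ZMod (p ^ k) := eval₂ (PadicInt.toZModPow k) x q

/-- The density of a family of sets. -/
noncomputable def den (p : ℕ) (ζ : Type) [Fintype ζ] (P : ∀ k : ℕ, (ζ → ZMod (p ^ k)) → Prop)
    (k : ℕ) : ℂ :=
  (Nat.card {x : ζ → ZMod (p ^ k) // P k x} : ℂ) * (((p : ℂ) ^ Fintype.card ζ)⁻¹) ^ k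

/-- The difference of consecutive terms. -/
noncomputable def dif (p : ℕ) (s : ℕ → ℂ) (k : ℕ) : ℂ :=
  s k - if 1 ≤ k then (p : ℂ)⁻¹ * s (k - 1) else 0

/-- The zeros in a ball. -/
def InB (p E : ℕ) (a : ζ → ℤ) (f : MvPolynomial ζ ℤ) (k : ℕ) (x : ζ → ZMod (p ^ k)) : Prop :=
  (∀ i, ∃ y, x i = (a i : ZMod (p ^ k)) + (p : ZMod (p ^ k)) ^ E * y) ∧ aeval x f = 0

/-- The series of all small balls near `a` are good. -/
def BG [Fintype ζ] (p : ℕ) [Fact p.Prime] (f : MvPolynomial ζ ℤ) (l : ℝ) (a : ζ → ℤ_[p]) : Prop :=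
  ∃ E0 : ℕ, ∀ E, E0 ≤ E → ∀ a' : ζ → ℤ, (∀ i, (p : ℤ_[p]) ^ E0 ∣ (a' i : ℤ_[p]) - a i) →
    Good p l (den p ζ (InB p E a' f))

/-- The system of equations of a chart. -/
def sy {R : Type} [CommRing R] (h : MvPolynomial (ζ ⊕ I) R)
    (Φ : ζ ⊕ I → MvPolynomial (ζ ⊕ I) R) : Option I → MvPolynomial (ζ ⊕ I) R :=
  fun o => o.elim h (fun s => Φ (Sum.inr s))

/-- A chart. -/
structure Chart [Fintype ζ] [DecidableEq ζ] [Fintype I] [DecidableEq I] {p : ℕ} [Fact p.Prime]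
    (j : ℚ_[p] →+* ℂ) (f : MvPolynomial ζ ℤ) (a : ζ → ℤ_[p])
    (Φ : ζ ⊕ I → MvPolynomial (ζ ⊕ I) ℚ_[p]) (h u : MvPolynomial (ζ ⊕ I) ℚ_[p]) : Prop where
  c0 : ∀ i, constantCoeff (Φ (Sum.inl i)) = a i
  c1 : ∀ s, constantCoeff (Φ (Sum.inr s)) = 0
  det : (Matrix.of (fun s t => constantCoeff (pderiv t (Φ s)))).det ≠ 0
  u0 : constantCoeff u ≠ 0
  mem : h - u * aeval (fun i => Φ (Sum.inl i)) f ∈ Ideal.span (Set.range (fun s => Φ (Sum.inr s)))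
  nd : ∀ (w : ζ ⊕ I → ℕ) (x : ζ ⊕ I → ℂ), (∀ i, 0 < w i) → (∀ i, x i ≠ 0) →
    NRel Set.univ w x (fun o => map j (sy h Φ o))

/-- An integral chart. -/
structure IData [Fintype ζ] [DecidableEq ζ] [Fintype I] [DecidableEq I] {p : ℕ} [Fact p.Prime]
    (j : ℤ_[p] →+* ℂ) (f : MvPolynomial ζ ℤ) (a : ζ → ℤ_[p])
    (Φ : ζ ⊕ I → MvPolynomial (ζ ⊕ I) ℤ_[p]) (h u η : MvPolynomial (ζ ⊕ I) ℤ_[p]) : Prop where
  lin : ∃ (M : Matrix (ζ ⊕ I) (ζ ⊕ I) ℤ_[p]) (q : ζ ⊕ I → MvPolynomial (ζ ⊕ I) ℤ_[p]),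
    M.det ≠ 0 ∧ ∀ s, Φ s = C (Sum.elim a 0 s) + ∑ t, C (M s t) * (X t + C (p : ℤ_[p]) * q t)
  mem : h - u * aeval (fun i => Φ (Sum.inl i)) f ∈ Ideal.span (Set.range (fun s => Φ (Sum.inr s)))
  u1 : ∃ q, u = 1 + C (p : ℤ_[p]) * q
  e1 : ∃ q, η = 1 + C (p : ℤ_[p]) * q
  ne : ∀ o, sy h Φ o ≠ 0
  nd : LocND Set.univ (fun o => map j (sy h Φ o)) (map j η)
  et : ∀ z : ζ ⊕ I → ℂ, eval z (map j η) ≠ 0 →
    eval z (map j u) ≠ 0 ∧ JInj (fun s => map j (Φ s)) z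

section Big

variable {p : ℕ} [Fact p.Prime]

/-- The inclusion of the variables of the chart. -/
def vx (ζ I : Type) : ζ ⊕ I → ζ ⊕ Option (ζ ⊕ I) := fun s => Sum.inr (some s)

/-- The parametrisation of a ball. -/
noncomputable def xs (I : Type) (E : ℕ) (a : ζ → ℤ) (i : ζ) :
    MvPolynomial (ζ ⊕ Option (ζ ⊕ I)) ℤ_[p] :=
  C ((a i : ℤ_[p]) - (p : ℤ_[p]) ^ E) + C ((p : ℤ_[p]) ^ E) * X (Sum.inl i)

/-- The localising polynomial. -/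
noncomputable def et [Fintype ζ] (η : MvPolynomial (ζ ⊕ I) ℤ_[p]) :
    MvPolynomial (ζ ⊕ Option (ζ ⊕ I)) ℤ_[p] :=
  rename (vx ζ I) η * ∏ i, ∏ c ∈ (range p).erase 1, (X (Sum.inl i) - C (c : ℤ_[p]))

/-- The big system of equations. -/
noncomputable def eqs [Fintype ζ] (E : ℕ) (a : ζ → ℤ) (Φ : ζ ⊕ I → MvPolynomial (ζ ⊕ I) ℤ_[p])
    (h η : MvPolynomial (ζ ⊕ I) ℤ_[p]) :
    Option (Option (ζ ⊕ I)) → MvPolynomial (ζ ⊕ Option (ζ ⊕ I)) ℤ_[p] :=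
  fun o => o.elim (rename (vx ζ I) h) (fun o' => o'.elim (1 - X (Sum.inr none) * et η)
    (fun s => rename (vx ζ I) (Φ s) - Sum.elim (xs I E a) 0 s))

end Big

/-- The modified system. -/
noncomputable def md {R : Type} [CommRing R] (e lam : I → MvPolynomial ζ R) (o' : I) :
    I → MvPolynomial ζ R := fun o => e o + lam o * e o'

end Defs

/-! ### The `p`-adic side for coefficients in `ℤ_[p]` -/

/-- Uniform stationary phase for all integer approximations. -/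
def UnifAStmt : Prop :=
  ∀ (ι κ : Type) [Fintype ι] [Fintype κ] (p : ℕ) [Fact p.Prime] (j : ℤ_[p] →+* ℂ),
    Function.Injective j → ∀ (A : κ → ι → ℕ) (c : κ → ℤ_[p]),
    (∀ w J, J.Nonempty → IsFace A w J → ND A (fun b => j (c b)) J) →
    ∃ M : ℕ, ∀ c' : κ → ℤ, (∀ b, (p : ℤ_[p]) ^ M ∣ (c' b : ℤ_[p]) - c b) →
      ∀ (L : ι → ℕ) (μ : ℕ) (k : κ → ℕ), (∀ b, ∑ i, L i * A b i = μ + k b) → (∃ b, k b = 0) →
      ∀ x : ι → ℤ, (∀ i, ¬ (p : ℤ) ∣ x i) →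
        ∃ i, ¬ (p : ℤ) ^ M ∣ ∑ b, A b i * ((p : ℤ) ^ k b * mon A c' b x)

/-- The uniform Nullstellensatz for a valid block, for all integer approximations. -/
def UnifBStmt : Prop :=
  ∀ (ι κ : Type) [Fintype ι] [LinearOrder ι] [Fintype κ] [DecidableEq κ] (p : ℕ) [Fact p.Prime]
    (j : ℤ_[p] →+* ℂ), Function.Injective j → ∀ (a : κ → ι →₀ ℕ) (c : κ → ℤ_[p]) (T : Finset κ)
    (F B : Finset ι), TND a (fun b => j (c b)) T F → B ⊆ F → Lin a T B → Occ a T B →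
    ¬ Solv a (fun b => j (c b)) T B →
    ∃ M : ℕ, ∀ c' : κ → ℤ, (∀ b, (p : ℤ_[p]) ^ M ∣ (c' b : ℤ_[p]) - c b) →
      ∀ (L m : ι → ℕ) (k : κ → ℕ),
      (∀ i ∈ B, ∀ b ∈ T, a b i ≠ 0 → ∑ i', L i' * a b i' = m i + k b) →
      (∀ i ∈ B, ∃ b ∈ T, a b i ≠ 0 ∧ k b = 0) → ∀ x : ι → ℤ, (∀ i, ¬ (p : ℤ) ∣ x i) →
      ∃ i ∈ B, ¬ (p : ℤ) ^ M ∣ ∑ b ∈ T, a b i * ((p : ℤ) ^ k b * (c' b * ∏ i', x i' ^ a b i'))

/-- The `p`-adic side, with the complex coefficients decoupled from the integer ones. -/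
def GridStmt3 : Prop :=
  ∀ (ι κ : Type) [Fintype ι] [LinearOrder ι] [Fintype κ] [DecidableEq κ] (p : ℕ) [Fact p.Prime]
    (a : κ → ι →₀ ℕ) (c : κ → ℤ) (cc : κ → ℂ) (l : ℝ), H10N.NDQ a cc →
    (∃ M : ℕ, ∀ θ L b, (M : ℤ) < zz a θ L b → EB p a c ∅ (zz a θ L) = 0) →
    (∃ M : ℕ, ∀ (T : Finset κ) (F B : Finset ι), TND a cc T F → B ⊆ F → Lin a T B →
      ¬ Solv a cc T B → ∀ (θ : ℕ) (L : ι → ℕ), (∀ b ∉ T, zz a θ L b ≤ 0) →
      (∀ i ∈ B, ∃ b ∈ T, a b i ≠ 0 ∧ (M : ℤ) ≤ zz a θ L b) → EB p a c B (zz a θ L) = 0) →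
    Blk a cc l → Good p l (fun θ => EB p a c univ (zz a θ 0))

/-- The global theorem for coefficients in `ℤ_[p]`. -/
def GlobPStmt : Prop :=
  ∀ (τ : Type) [Fintype τ] (p : ℕ) [Fact p.Prime] (j : ℤ_[p] →+* ℂ), Function.Injective j →
    ∀ (F : MvPolynomial τ ℤ_[p]) (β : Polynomial ℂ) (l : ℝ), (∀ W, Nond (fc W (map j F))) →
    IsB (map j F) ((Polynomial.X + 1) * β) → β.eval (-(l : ℂ)) ≠ 0 →
    Good p l (dif p (den p τ (fun k x => ev k x F = 0)))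

/-! ### Functional equations -/

/-- Adding hyperbolic planes shifts the polynomial. -/
def TSStmt : Prop :=
  ∀ (ζ ρ : Type) [Fintype ζ] [Fintype ρ] (f : MvPolynomial ζ ℂ) (b : Polynomial ℂ), IsB f b →
    IsB (cay (fun o : Option ρ => o.elim (rename Sum.inl f) (fun s => X (Sum.inr s)) :
        Option ρ → MvPolynomial (ζ ⊕ ρ) ℂ))
      ((Polynomial.X + 1) * b.comp (Polynomial.X + Polynomial.C (Fintype.card ρ : ℂ)))

/-- Pull back along a map that is etale where it matters. -/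
def ETStmt : Prop :=
  ∀ (τ : Type) [Fintype τ] (Ψ : τ → MvPolynomial τ ℂ) (G : MvPolynomial τ ℂ) (β : Polynomial ℂ)
    (y : τ), IsB G ((Polynomial.X + 1) * β) →
    (∀ z : τ → ℂ, eval z (pderiv y (aeval Ψ G)) = 0 → JInj Ψ z) →
    IsB (aeval Ψ G) ((Polynomial.X + 1) * β)

/-- The functional equation of the big polynomial. -/
def BigBStmt : Prop :=
  ∀ (ζ I : Type) [Fintype ζ] [DecidableEq ζ] [Fintype I] [DecidableEq I] (p : ℕ) [Fact p.Prime]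
    (j : ℤ_[p] →+* ℂ) (f : MvPolynomial ζ ℤ) (a : ζ → ℤ_[p])
    (Φ : ζ ⊕ I → MvPolynomial (ζ ⊕ I) ℤ_[p]) (h u η : MvPolynomial (ζ ⊕ I) ℤ_[p]),
    IData j f a Φ h u η → ∀ (E : ℕ) (a' : ζ → ℤ) (b : Polynomial ℂ),
    IsB (map (Int.castRingHom ℂ) f) b →
    ∀ lam : Option (Option (ζ ⊕ I)) → MvPolynomial (ζ ⊕ Option (ζ ⊕ I)) ℤ_[p],
    lam (some none) = 0 →
    IsB (map j (cay (md (eqs E a' Φ h η) lam (some none))))
      ((Polynomial.X + 1) *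
        b.comp (Polynomial.X + Polynomial.C (Fintype.card (Option (ζ ⊕ I)) : ℂ)))

/-! ### Nondegeneracy -/

/-- Nondegeneracy along the compact faces spreads to a Zariski neighbourhood. -/
def LocStmt : Prop :=
  ∀ (ζ I K : Type) [Fintype ζ] [Fintype I] [Field K] (j : K →+* ℂ) (e : I → MvPolynomial ζ K),
    (∀ (w : ζ → ℕ) (x : ζ → ℂ), (∀ i, 0 < w i) → (∀ i, x i ≠ 0) →
      NRel Set.univ w x (fun o => map j (e o))) →
    ∃ η : MvPolynomial ζ K, constantCoeff η ≠ 0 ∧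
      LocND Set.univ (fun o => map j (e o)) (map j η)

/-- Generic `p`-adic integers. -/
def TransStmt : Prop :=
  ∀ (α κ : Type) [Fintype α] [DecidableEq α] [Fintype κ] (p : ℕ) [Fact p.Prime]
    (j : ℤ_[p] →+* ℂ), Function.Injective j → ∀ c : κ → ℂ,
    ∃ (K : Subfield ℂ) (γ : α → ℤ_[p]), (∀ k, c k ∈ K) ∧
      ∀ i, ∃ D : Derivation K ℂ ℂ, ∀ i', D (j (γ i')) = if i' = i then 1 else 0

/-- The faces of `∑ y_o e_o`. -/
def CayStmt : Prop :=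
  ∀ (ζ I : Type) [Fintype ζ] [Fintype I] [Nonempty I] (e : I → MvPolynomial ζ ℂ),
    (∀ (w : ζ → ℕ) (x : ζ → ℂ), (∀ i, x i ≠ 0) → NRel Set.univ w x e) →
    ∀ W, Nond (fc W (cay e))

/-- A generic modification is nondegenerate everywhere. -/
def ModStmt : Prop :=
  ∀ (ζ I : Type) [Fintype ζ] [Fintype I] (p : ℕ) [Fact p.Prime] (j : ℤ_[p] →+* ℂ),
    Function.Injective j → ∀ (e : I → MvPolynomial ζ ℤ_[p]) (η : MvPolynomial ζ ℤ_[p]) (V : ζ)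
    (o' : I), e o' = 1 - X V * η → pderiv V η = 0 → (∀ o, o ≠ o' → pderiv V (e o) = 0) →
    (∀ o, e o ≠ 0) → LocND {o | o ≠ o'} (fun o => map j (e o)) (map j η) →
    ∃ lam : I → MvPolynomial ζ ℤ_[p], lam o' = 0 ∧ ∀ (w : ζ → ℕ) (x : ζ → ℂ), (∀ i, x i ≠ 0) →
      NRel Set.univ w x (fun o => map j (md e lam o' o))

/-- The big system is nondegenerate where the localising polynomial does not vanish. -/
def ExtStmt : Prop :=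
  ∀ (ζ I : Type) [Fintype ζ] [DecidableEq ζ] [Fintype I] [DecidableEq I] (p : ℕ) [Fact p.Prime]
    (j : ℤ_[p] →+* ℂ) (f : MvPolynomial ζ ℤ) (a : ζ → ℤ_[p])
    (Φ : ζ ⊕ I → MvPolynomial (ζ ⊕ I) ℤ_[p]) (h u η : MvPolynomial (ζ ⊕ I) ℤ_[p]),
    IData j f a Φ h u η → ∀ (E : ℕ) (a' : ζ → ℤ),
    pderiv (Sum.inr none) (et η) = 0 ∧
    (∀ o, o ≠ some none → pderiv (Sum.inr none) (eqs E a' Φ h η o) = 0) ∧
    (∀ o, eqs E a' Φ h η o ≠ 0) ∧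
    LocND {o | o ≠ some none} (fun o => map j (eqs E a' Φ h η o)) (map j (et η))

/-- Every chart gives an integral chart. -/
def NormStmt : Prop :=
  ∀ (ζ I : Type) [Fintype ζ] [DecidableEq ζ] [Fintype I] [DecidableEq I] (p : ℕ) [Fact p.Prime]
    (j : ℚ_[p] →+* ℂ) (f : MvPolynomial ζ ℤ) (a : ζ → ℤ_[p])
    (Φ : ζ ⊕ I → MvPolynomial (ζ ⊕ I) ℚ_[p]) (h u : MvPolynomial (ζ ⊕ I) ℚ_[p]),
    Chart j f a Φ h u →
    ∃ (Φ' : ζ ⊕ I → MvPolynomial (ζ ⊕ I) ℤ_[p]) (h' u' η' : MvPolynomial (ζ ⊕ I) ℤ_[p]),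
      IData (j.comp PadicInt.Coe.ringHom) f a Φ' h' u' η'

/-! ### Counting -/

/-- The zeros of `∑ y_o e_o` and the common zeros of the `e_o`. -/
def CntStmt : Prop :=
  ∀ (ζ I : Type) [Fintype ζ] [Fintype I] (p : ℕ) [Fact p.Prime] (e : I → MvPolynomial ζ ℤ_[p])
    (k : ℕ), 1 ≤ k → dif p (den p (ζ ⊕ I) (fun k x => ev k x (cay e) = 0)) k =
      (1 - (p : ℂ)⁻¹) * den p ζ (fun k x => ∀ o, ev k x (e o) = 0) k

/-- The fibres of a chart. -/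
def FibStmt : Prop :=
  ∀ (τ : Type) [Fintype τ] [DecidableEq τ] (p : ℕ) [Fact p.Prime] (M : Matrix τ τ ℤ_[p])
    (t0 : τ → ℤ_[p]) (q Θ : τ → MvPolynomial τ ℤ_[p]), M.det ≠ 0 →
    (∀ s, Θ s = C (t0 s) + ∑ t, C (M s t) * (X t + C (p : ℤ_[p]) * q t)) →
    ∃ δ c : ℕ, c ≠ 0 ∧
      (∀ (k : ℕ) (z : τ → ZMod (p ^ k)), ∃ y : τ → ZMod (p ^ k),
        ∀ s, (p : ZMod (p ^ k)) ^ δ * z s = ∑ t, PadicInt.toZModPow k (M s t) * y t) ∧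
      ∀ k, δ ≤ k → ∀ z y : τ → ZMod (p ^ k),
        (∀ s, z s = PadicInt.toZModPow k (t0 s) + ∑ t, PadicInt.toZModPow k (M s t) * y t) →
        Nat.card {x : τ → ZMod (p ^ k) // ∀ s, ev k x (Θ s) = z s} = c

/-- The common zeros of the big system. -/
def ZeroStmt : Prop :=
  ∀ (ζ I : Type) [Fintype ζ] [DecidableEq ζ] [Fintype I] [DecidableEq I] (p : ℕ) [Fact p.Prime]
    (j : ℤ_[p] →+* ℂ) (f : MvPolynomial ζ ℤ) (a : ζ → ℤ_[p])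
    (Φ : ζ ⊕ I → MvPolynomial (ζ ⊕ I) ℤ_[p]) (h u η : MvPolynomial (ζ ⊕ I) ℤ_[p]),
    IData j f a Φ h u η → ∃ E0 : ℕ, ∀ E, E0 ≤ E → ∀ a' : ζ → ℤ,
    (∀ i, (p : ℤ_[p]) ^ E0 ∣ (a' i : ℤ_[p]) - a i) → ∃ c k0 : ℕ, c ≠ 0 ∧ ∀ k, k0 ≤ k →
      Nat.card {x : ζ ⊕ Option (ζ ⊕ I) → ZMod (p ^ k) // ∀ o, ev k x (eqs E a' Φ h η o) = 0} =
        c * Nat.card {x : ζ → ZMod (p ^ k) // InB p (E + 1) a' f k x}

/-- Points that are not singular points of the zero set. -/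
def SmoothStmt : Prop :=
  ∀ (ζ : Type) [Fintype ζ] (p : ℕ) [Fact p.Prime] (f : MvPolynomial ζ ℤ) (l : ℝ)
    (a : ζ → ℤ_[p]), l ≠ 1 → (aeval a f ≠ 0 ∨ ∃ i, aeval a (pderiv i f) ≠ 0) → BG p f l a

/-- Points with a chart. -/
def LocalStmt : Prop :=
  ∀ (ζ I : Type) [Fintype ζ] [DecidableEq ζ] [Fintype I] [DecidableEq I] (p : ℕ) [Fact p.Prime]
    (j : ℚ_[p] →+* ℂ) (f : MvPolynomial ζ ℤ) (a : ζ → ℤ_[p])
    (Φ : ζ ⊕ I → MvPolynomial (ζ ⊕ I) ℚ_[p]) (h u : MvPolynomial (ζ ⊕ I) ℚ_[p]),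
    Chart j f a Φ h u → ∀ (b : Polynomial ℂ) (l : ℝ), IsB (map (Int.castRingHom ℂ) f) b →
    b.eval (-(l : ℂ)) ≠ 0 → BG p f l a

/-- Compactness. -/
def CompStmt : Prop :=
  ∀ (ζ : Type) [Fintype ζ] (p : ℕ) [Fact p.Prime] (f : MvPolynomial ζ ℤ) (l : ℝ),
    (∀ a, BG p f l a) → Good p l (den p ζ (fun _ x => aeval x f = 0))

end Pool.Agent.MP_5d9b3c_ag.H48L
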